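import Pool.Agent.V1166.FP.Small

namespace Pool.Agent.V1166.FP

universe u v w

open Finsupp (linearCombination single)

/-- filtrations by modules induced from flat modules, given by generators and relations -/
structure Filt {R A : Type u} [Ring R] [Ring A] (φ : R →+* A) (E : Type u) [AddCommGroup E]
    [Module A E] where
  B : Type u
  J : Type u
  [lin : LinearOrder J]
  [wf : WellFoundedLT J]
  lev : B → J
  e : B → E
  K : J → Submodule R (B →₀ R)
  supp : ∀ j, ∀ k ∈ K j, ∀ b ∈ k.support, lev b = j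
  theta : ∀ j, Theta (K j : Set (B →₀ R))
  gen : ∀ x : E, ∃ a : B →₀ A, linearCombination A e a = x
  rel : ∀ j (a : B →₀ A), (∀ b ∈ a.support, lev b = j) →
    ((∃ x : B →₀ A, (∀ b ∈ x.support, lev b < j) ∧
      linearCombination A e a = linearCombination A e x) ↔
      a ∈ Submodule.span A (bc φ '' (K j : Set (B →₀ R))))

section attach

variable {R A : Type u} [Ring R] [Ring A] (φ : R →+* A) {B J : Type u} [LinearOrder J]
  [WellFoundedLT J] (lev : B → J) (K : J → Submodule R (B →₀ R))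
  (t : J → (B →₀ R) → (B →₀ A))

/-- the relations of level `j` -/
def relset (j : J) : Set (B →₀ A) := {x | ∃ k ∈ K j, x = bc φ k - t j k}

/-- relations below `j` -/
noncomputable def Rl (j : J) : Submodule A (B →₀ A) := Submodule.span A {x | ∃ j' < j, x ∈ relset φ K t j'}

/-- relations up to `j` -/
noncomputable def Rle (j : J) : Submodule A (B →₀ A) := Submodule.span A {x | ∃ j' ≤ j, x ∈ relset φ K t j'}

/-- all relations -/
noncomputable def Rall : Submodule A (B →₀ A) := Submodule.span A {x | ∃ j, x ∈ relset φ K t j}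

/-- vectors supported below `j` -/
def Lt (j : J) (x : B →₀ A) : Prop := ∀ b ∈ x.support, lev b < j

def Le (j : J) (x : B →₀ A) : Prop := ∀ b ∈ x.support, lev b ≤ j

def Eq' (j : J) (x : B →₀ A) : Prop := ∀ b ∈ x.support, lev b = j

lemma supp_iff {P : B → Prop} {x : B →₀ A} : (∀ b ∈ x.support, P b) ↔
    x ∈ Finsupp.supported A A {b | P b} := by
  rw [Finsupp.mem_supported]
  rfl

omit [WellFoundedLT J] in
lemma Lt_iff {lev : B → J} {j : J} {x : B →₀ A} : Lt lev j x ↔
    x ∈ Finsupp.supported A A {b | lev b < j} := supp_iff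

omit [WellFoundedLT J] in
lemma Le_iff {lev : B → J} {j : J} {x : B →₀ A} : Le lev j x ↔
    x ∈ Finsupp.supported A A {b | lev b ≤ j} := supp_iff

omit [WellFoundedLT J] in
lemma Eq_iff {lev : B → J} {j : J} {x : B →₀ A} : Eq' lev j x ↔
    x ∈ Finsupp.supported A A {b | lev b = j} := supp_iff

omit [WellFoundedLT J] in
lemma disj {j : J} {x : B →₀ A} (h : Lt lev j x) (h' : Eq' lev j x) : x = 0 := by
  by_contra hx
  obtain ⟨b, hb⟩ := Finsupp.support_nonempty_iff.2 hx
  have h1 := h b hb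
  have h2 := h' b hb
  rw [h2] at h1
  exact lt_irrefl _ h1

structure AttachData : Prop where
  supp : ∀ j, ∀ k ∈ K j, ∀ b ∈ k.support, lev b = j
  low : ∀ j, ∀ k ∈ K j, Lt lev j (t j k)
  add : ∀ j, ∀ x ∈ K j, ∀ y ∈ K j, t j (x + y) - (t j x + t j y) ∈ Rl φ K t j
  smul : ∀ j, ∀ (a : R), ∀ x ∈ K j, t j (a • x) - φ a • t j x ∈ Rl φ K t j
  theta : ∀ j, Theta (K j : Set (B →₀ R))

variable {φ lev K t}

omit [WellFoundedLT J] in
lemma bc_eq' (h : AttachData φ lev K t) {j : J} {k : B →₀ R} (hk : k ∈ K j) :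
    Eq' lev j (bc φ k) := by
  intro b hb
  apply h.supp j k hk
  rw [Finsupp.mem_support_iff, bc_apply] at hb
  rw [Finsupp.mem_support_iff]
  intro h0
  apply hb
  rw [h0, map_zero]

omit [WellFoundedLT J] in
lemma relset_le (h : AttachData φ lev K t) {j : J} {x : B →₀ A} (hx : x ∈ relset φ K t j) :
    Le lev j x := by
  obtain ⟨k, hk, rfl⟩ := hx
  have h1 : bc φ k ∈ Finsupp.supported A A {b | lev b ≤ j} :=
    supp_iff.1 fun b hb => (bc_eq' h hk b hb).le
  have h2 : t j k ∈ Finsupp.supported A A {b | lev b ≤ j} :=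
    supp_iff.1 fun b hb => (h.low j k hk b hb).le
  exact supp_iff.2 (sub_mem h1 h2)

omit [WellFoundedLT J] in
lemma Rl_lt (h : AttachData φ lev K t) {j : J} {x : B →₀ A} (hx : x ∈ Rl φ K t j) :
    Lt lev j x := by
  have : Rl φ K t j ≤ Finsupp.supported A A {b | lev b < j} := by
    unfold Rl
    rw [Submodule.span_le]
    rintro y ⟨j', hj', hy⟩
    exact supp_iff.1 fun b hb => (relset_le h hy b hb).trans_lt hj'
  exact supp_iff.2 (this hx)

omit [WellFoundedLT J] in
lemma Rle_le (h : AttachData φ lev K t) {j : J} {x : B →₀ A} (hx : x ∈ Rle φ K t j) :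
    Le lev j x := by
  have : Rle φ K t j ≤ Finsupp.supported A A {b | lev b ≤ j} := by
    unfold Rle
    rw [Submodule.span_le]
    rintro y ⟨j', hj', hy⟩
    exact supp_iff.1 fun b hb => (relset_le h hy b hb).trans hj'
  exact supp_iff.2 (this hx)

omit [WellFoundedLT J] in
lemma Rle_split {j : J} {x : B →₀ A} (hx : x ∈ Rle φ K t j) :
    ∃ y ∈ Rl φ K t j, ∃ l : (B →₀ R) →₀ A, (∀ k ∈ l.support, k ∈ K j) ∧
      x = y + (l.sum fun k a => a • bc φ k) - (l.sum fun k a => a • t j k) := by
  have h1 : x ∈ Rl φ K t j ⊔ Submodule.span A (relset φ K t j) := by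
    have : Rle φ K t j ≤ Rl φ K t j ⊔ Submodule.span A (relset φ K t j) := by
      unfold Rle
      rw [Submodule.span_le]
      rintro y ⟨j', hj', hy⟩
      rcases hj'.lt_or_eq with h | h
      · exact Submodule.mem_sup_left (Submodule.subset_span ⟨j', h, hy⟩)
      · subst h
        exact Submodule.mem_sup_right (Submodule.subset_span hy)
    exact this hx
  obtain ⟨y, hy, z, hz, rfl⟩ := Submodule.mem_sup.1 h1
  have h2 : relset φ K t j = (fun k => bc φ k - t j k) '' (K j : Set (B →₀ R)) := by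
    ext w
    constructor
    · rintro ⟨k, hk, rfl⟩; exact ⟨k, hk, rfl⟩
    · rintro ⟨k, hk, rfl⟩; exact ⟨k, hk, rfl⟩
  rw [h2, Finsupp.mem_span_image_iff_linearCombination] at hz
  obtain ⟨l, hl, rfl⟩ := hz
  refine ⟨y, hy, l, fun k hk => hl hk, ?_⟩
  rw [add_sub_assoc, Finsupp.linearCombination_apply]
  congr 1
  simp only [Finsupp.sum]
  rw [← Finset.sum_sub_distrib]
  exact Finset.sum_congr rfl fun k _ => smul_sub _ _ _

omit [WellFoundedLT J] in
lemma sum_t_mem (h : AttachData φ lev K t) {j : J} {l : (B →₀ R) →₀ A}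
    (hl : ∀ k ∈ l.support, k ∈ K j) (h0 : (l.sum fun k a => a • bc φ k) = 0) :
    (l.sum fun k a => a • t j k) ∈ Rl φ K t j := by
  have hs : SLin φ ⊤ (K j : Set (B →₀ R)) (fun k => (Rl φ K t j).mkQ (t j k)) := by
    constructor
    · intro x hx y hy
      rw [← map_add, ← sub_eq_zero, ← map_sub, Submodule.mkQ_apply, Submodule.Quotient.mk_eq_zero]
      exact h.add j x hx y hy
    · intro a _ x hx
      rw [← map_smul, ← sub_eq_zero, ← map_sub, Submodule.mkQ_apply,
        Submodule.Quotient.mk_eq_zero]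
      exact h.smul j a x hx
  have h1 := bc1 (subLike_top (K j)) (h.theta j) hs l.support (fun k => k) hl (fun k => l k) h0
  rw [← Submodule.Quotient.mk_eq_zero, ← Submodule.mkQ_apply, Finsupp.sum, map_sum]
  simp only [map_smul]
  exact h1

omit [WellFoundedLT J] in
lemma supported_sum_bc (h : AttachData φ lev K t) {j : J} {l : (B →₀ R) →₀ A}
    (hl : ∀ k ∈ l.support, k ∈ K j) : Eq' lev j (l.sum fun k a => a • bc φ k) := by
  apply Eq_iff.2
  exact sum_mem fun k hk => Submodule.smul_mem _ _ (supp_iff.1 (bc_eq' h (hl k hk)))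

omit [WellFoundedLT J] in
lemma supported_sum_t (h : AttachData φ lev K t) {j : J} {l : (B →₀ R) →₀ A}
    (hl : ∀ k ∈ l.support, k ∈ K j) : Lt lev j (l.sum fun k a => a • t j k) := by
  apply Lt_iff.2
  exact sum_mem fun k hk => Submodule.smul_mem _ _ (supp_iff.1 (h.low j k (hl k hk)))

omit [WellFoundedLT J] in
lemma one_step (h : AttachData φ lev K t) {j : J} {x : B →₀ A} (hx : x ∈ Rle φ K t j)
    (hx' : Lt lev j x) : x ∈ Rl φ K t j := by
  obtain ⟨y, hy, l, hl, rfl⟩ := Rle_split hx
  have h1 : (l.sum fun k a => a • bc φ k) = 0 := by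
    apply disj lev (j := j) _ (supported_sum_bc h hl)
    have h2 : (l.sum fun k a => a • bc φ k) = (y + (l.sum fun k a => a • bc φ k) -
      (l.sum fun k a => a • t j k)) - y + (l.sum fun k a => a • t j k) := by abel
    rw [h2]
    exact supp_iff.2 (add_mem (sub_mem (supp_iff.1 hx') (supp_iff.1 (Rl_lt h hy)))
      (supp_iff.1 (supported_sum_t h hl)))
  rw [h1, add_zero]
  exact sub_mem hy (sum_t_mem h hl h1)

omit [WellFoundedLT J] in
lemma Rle_mono {j j' : J} (h : j ≤ j') : Rle φ K t j ≤ Rle φ K t j' :=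
  Submodule.span_mono fun _ ⟨i, hi, hx⟩ => ⟨i, hi.trans h, hx⟩

omit [WellFoundedLT J] in
lemma Rle_le_Rl {j j' : J} (h : j < j') : Rle φ K t j ≤ Rl φ K t j' :=
  Submodule.span_mono fun _ ⟨i, hi, hx⟩ => ⟨i, hi.trans_lt h, hx⟩

omit [WellFoundedLT J] in
lemma mem_Rl {j : J} {x : B →₀ A} (hx : x ∈ Rl φ K t j) : x = 0 ∨ ∃ j' < j, x ∈ Rle φ K t j' := by
  refine Submodule.span_induction (p := fun x _ => x = 0 ∨ ∃ j' < j, x ∈ Rle φ K t j')
    ?_ ?_ ?_ ?_ hx
  · rintro x ⟨j', hj', hx⟩
    exact Or.inr ⟨j', hj', Submodule.subset_span ⟨j', le_rfl, hx⟩⟩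
  · left; rfl
  · rintro x y _ _ (rfl | ⟨i, hi, hx⟩) (rfl | ⟨i', hi', hy⟩)
    · left; rw [add_zero]
    · right; exact ⟨i', hi', by rwa [zero_add]⟩
    · right; exact ⟨i, hi, by rwa [add_zero]⟩
    · right
      exact ⟨max i i', max_lt hi hi', add_mem (Rle_mono (le_max_left _ _) hx)
        (Rle_mono (le_max_right _ _) hy)⟩
  · rintro a x _ (rfl | ⟨i, hi, hx⟩)
    · left; rw [smul_zero]
    · right; exact ⟨i, hi, Submodule.smul_mem _ _ hx⟩

omit [WellFoundedLT J] in
lemma mem_Rall {x : B →₀ A} (hx : x ∈ Rall φ K t) : x = 0 ∨ ∃ j', x ∈ Rle φ K t j' := by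
  refine Submodule.span_induction (p := fun x _ => x = 0 ∨ ∃ j', x ∈ Rle φ K t j')
    ?_ ?_ ?_ ?_ hx
  · rintro x ⟨j', hx⟩
    exact Or.inr ⟨j', Submodule.subset_span ⟨j', le_rfl, hx⟩⟩
  · left; rfl
  · rintro x y _ _ (rfl | ⟨i, hx⟩) (rfl | ⟨i', hy⟩)
    · left; rw [add_zero]
    · right; exact ⟨i', by rwa [zero_add]⟩
    · right; exact ⟨i, by rwa [add_zero]⟩
    · right
      exact ⟨max i i', add_mem (Rle_mono (le_max_left _ _) hx)
        (Rle_mono (le_max_right _ _) hy)⟩
  · rintro a x _ (rfl | ⟨i, hx⟩)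
    · left; rw [smul_zero]
    · right; exact ⟨i, Submodule.smul_mem _ _ hx⟩

lemma mem_Rl_of_lt (h : AttachData φ lev K t) {j : J} {x : B →₀ A} (hx : x ∈ Rall φ K t)
    (hx' : Lt lev j x) : x ∈ Rl φ K t j := by
  rcases mem_Rall hx with rfl | ⟨j', hj'⟩
  · exact zero_mem _
  · induction j' using WellFoundedLT.induction with
    | ind j' ih =>
      rcases lt_or_ge j' j with hlt | hge
      · exact Rle_le_Rl hlt hj'
      · have h1 : x ∈ Rl φ K t j' := one_step h hj' fun b hb => (hx' b hb).trans_le hge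
        rcases mem_Rl h1 with rfl | ⟨j'', hj'', h2⟩
        · exact zero_mem _
        · exact ih j'' hj'' h2

lemma mem_Rle_of_le (h : AttachData φ lev K t) {j : J} {x : B →₀ A} (hx : x ∈ Rall φ K t)
    (hx' : Le lev j x) : x ∈ Rle φ K t j := by
  rcases mem_Rall hx with rfl | ⟨j', hj'⟩
  · exact zero_mem _
  · induction j' using WellFoundedLT.induction with
    | ind j' ih =>
      rcases le_or_gt j' j with hlt | hge
      · exact Rle_mono hlt hj'
      · have h1 : x ∈ Rl φ K t j' := one_step h hj' fun b hb => (hx' b hb).trans_lt hge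
        rcases mem_Rl h1 with rfl | ⟨j'', hj'', h2⟩
        · exact zero_mem _
        · exact ih j'' hj'' h2

/-- the attached module is filtered -/
noncomputable def attachFilt (h : AttachData φ lev K t) : Filt φ ((B →₀ A) ⧸ Rall φ K t) where
  B := B
  J := J
  lev := lev
  e b := (Rall φ K t).mkQ (single b 1)
  K := K
  supp := h.supp
  theta := h.theta
  gen x := by
    obtain ⟨a, rfl⟩ := (Rall φ K t).mkQ_surjective x
    refine ⟨a, ?_⟩
    have : linearCombination A (fun b => (Rall φ K t).mkQ (single b (1 : A))) =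
        (Rall φ K t).mkQ := by
      ext b; simp
    rw [this]
  rel j a ha := by
    have hlc : linearCombination A (fun b => (Rall φ K t).mkQ (single b (1 : A))) =
        (Rall φ K t).mkQ := by
      ext b; simp
    rw [hlc]
    constructor
    · rintro ⟨x, hx, hax⟩
      rw [← sub_eq_zero, ← map_sub, Submodule.mkQ_apply, Submodule.Quotient.mk_eq_zero] at hax
      have h1 : Le lev j (a - x) := by
        apply Le_iff.2
        exact sub_mem (supp_iff.1 fun b hb => (ha b hb).le) (supp_iff.1 fun b hb => (hx b hb).le)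
      obtain ⟨y, hy, l, hl, hal⟩ := Rle_split (mem_Rle_of_le h hax h1)
      have h2 : a - (l.sum fun k a => a • bc φ k) = 0 := by
        apply disj lev (j := j)
        · have h3 : a - (l.sum fun k a => a • bc φ k) = x + y - (l.sum fun k a => a • t j k) := by
            have : a = (a - x) + x := by abel
            rw [this, hal]; abel
          rw [h3]
          exact supp_iff.2 (sub_mem (add_mem (supp_iff.1 hx) (supp_iff.1 (Rl_lt h hy)))
            (supp_iff.1 (supported_sum_t h hl)))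
        · exact supp_iff.2 (sub_mem (supp_iff.1 ha) (supp_iff.1 (supported_sum_bc h hl)))
      rw [sub_eq_zero] at h2
      rw [h2]
      exact sum_mem fun k hk => Submodule.smul_mem _ _
        (Submodule.subset_span ⟨k, hl k hk, rfl⟩)
    · intro haK
      rw [Finsupp.mem_span_image_iff_linearCombination] at haK
      obtain ⟨l, hl, rfl⟩ := haK
      have hl' : ∀ k ∈ l.support, k ∈ K j := fun k hk => hl hk
      refine ⟨l.sum fun k a => a • t j k, supported_sum_t h hl', ?_⟩
      rw [← sub_eq_zero, ← map_sub, Submodule.mkQ_apply, Submodule.Quotient.mk_eq_zero,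
        Finsupp.linearCombination_apply, Finsupp.sum, Finsupp.sum, ← Finset.sum_sub_distrib]
      refine sum_mem fun k hk => ?_
      rw [← smul_sub]
      exact Submodule.smul_mem _ _ (Submodule.subset_span ⟨j, k, hl' k hk, rfl⟩)

end attach

end Pool.Agent.V1166.FP
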