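import Mathlib

namespace Pool.Agent.V1166.FP

universe u v w

open Finsupp (linearCombination single)

section theta

variable {B : Type*} [Ring B] {ι : Type*}

/-- every element of `K` is fixed by a linear map into `K` -/
def Theta (K : Set (ι →₀ B)) : Prop :=
  ∀ k ∈ K, ∃ θ : ι → (ι →₀ B), (∀ i, θ i ∈ K) ∧ linearCombination B θ k = k

/-- sets of vectors closed under linear combinations with coefficients in a subring -/
structure SubLike (S : Subring B) (K : Set (ι →₀ B)) : Prop where
  zero : (0 : ι →₀ B) ∈ K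
  add : ∀ x ∈ K, ∀ y ∈ K, x + y ∈ K
  smul : ∀ a ∈ S, ∀ x ∈ K, a • x ∈ K
  val : ∀ x ∈ K, ∀ i, x i ∈ S

variable {S : Subring B} {K : Set (ι →₀ B)}

lemma SubLike.neg (h : SubLike S K) {x : ι →₀ B} (hx : x ∈ K) : -x ∈ K := by
  have := h.smul (-1) (neg_mem (one_mem S)) x hx
  simpa using this

lemma SubLike.sub (h : SubLike S K) {x y : ι →₀ B} (hx : x ∈ K) (hy : y ∈ K) : x - y ∈ K := by
  rw [sub_eq_add_neg]; exact h.add _ hx _ (h.neg hy)

lemma SubLike.sum (h : SubLike S K) {α : Type*} (s : Finset α) (f : α → ι →₀ B)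
    (hf : ∀ a ∈ s, f a ∈ K) : ∑ a ∈ s, f a ∈ K :=
  Finset.sum_induction f (· ∈ K) (fun a b ha hb => h.add a ha b hb) h.zero hf

lemma SubLike.lc_mem (h : SubLike S K) {θ : ι → (ι →₀ B)} (hθ : ∀ i, θ i ∈ K) {x : ι →₀ B}
    (hx : ∀ i, x i ∈ S) : linearCombination B θ x ∈ K := by
  rw [Finsupp.linearCombination_apply, Finsupp.sum]
  exact h.sum _ _ fun i _ => h.smul _ (hx i) _ (hθ i)

/-- finitely many elements of `K` are simultaneously fixed -/
lemma Theta.multi (h : SubLike S K) (hK : Theta K) {α : Type*} (s : Finset α) (k : α → ι →₀ B)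
    (hk : ∀ a ∈ s, k a ∈ K) :
    ∃ θ : ι → (ι →₀ B), (∀ i, θ i ∈ K) ∧ ∀ a ∈ s, linearCombination B θ (k a) = k a := by
  classical
  induction s using Finset.induction_on with
  | empty => exact ⟨fun _ => 0, fun _ => h.zero, fun a ha => absurd ha (Finset.notMem_empty _)⟩
  | insert a s ha ih =>
    obtain ⟨θ₁, h1, h2⟩ := ih fun b hb => hk b (Finset.mem_insert_of_mem hb)
    have hka := hk a (Finset.mem_insert_self _ _)
    obtain ⟨θ₂, h3, h4⟩ := hK (k a - linearCombination B θ₁ (k a))
      (h.sub hka (h.lc_mem h1 (h.val _ hka)))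
    let θ : ι → (ι →₀ B) := fun i => θ₁ i + (θ₂ i - linearCombination B θ₂ (θ₁ i))
    have hθ : ∀ x, linearCombination B θ x = linearCombination B θ₁ x +
        linearCombination B θ₂ (x - linearCombination B θ₁ x) := by
      intro x
      induction x using Finsupp.induction_linear with
      | zero => simp
      | add x y hx hy =>
        rw [map_add, hx, hy, map_add, map_sub, map_sub, map_sub, map_add, map_add]
        abel
      | single i b =>
        rw [Finsupp.linearCombination_single, Finsupp.linearCombination_single, map_sub,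
          Finsupp.linearCombination_single, map_smul]
        simp only [θ]
        rw [smul_add, smul_sub]
    refine ⟨θ, fun i => h.add _ (h1 i) _ (h.sub (h3 i) (h.lc_mem h3 (h.val _ (h1 i)))), ?_⟩
    intro b hb
    rw [hθ]
    rcases Finset.mem_insert.1 hb with rfl | hb
    · rw [h4]; abel
    · rw [h2 b hb, sub_self, map_zero, add_zero]

end theta

section bc

variable {B : Type*} [Ring B] {ι : Type*} {S : Subring B} {K : Set (ι →₀ B)}
  {B' : Type*} [Ring B'] (ψ : B →+* B') {C : Type*} [AddCommGroup C] [Module B' C]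

/-- base change of vectors -/
noncomputable def bc (x : ι →₀ B) : ι →₀ B' := Finsupp.mapRange ψ (map_zero ψ) x

lemma bc_apply (x : ι →₀ B) (i : ι) : bc ψ x i = ψ (x i) := by
  simp [bc]

lemma bc_add (x y : ι →₀ B) : bc ψ (x + y) = bc ψ x + bc ψ y := by
  ext i; simp [bc_apply]

lemma bc_zero : bc ψ (0 : ι →₀ B) = 0 := by
  ext i; simp [bc_apply]

lemma bc_smul (a : B) (x : ι →₀ B) : bc ψ (a • x) = ψ a • bc ψ x := by
  ext i; simp [bc_apply]

lemma bc_single (i : ι) (a : B) : bc ψ (single i a) = single i (ψ a) := by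
  simp [bc]

lemma bc_sum {α : Type*} (s : Finset α) (f : α → ι →₀ B) :
    bc ψ (∑ a ∈ s, f a) = ∑ a ∈ s, bc ψ (f a) := by
  classical
  induction s using Finset.induction_on with
  | empty => simp [bc_zero]
  | insert a s ha ih => rw [Finset.sum_insert ha, Finset.sum_insert ha, bc_add, ih]

/-- additive and semilinear on a set of vectors -/
def SLin (S : Subring B) (K : Set (ι →₀ B)) (f : (ι →₀ B) → C) : Prop :=
  (∀ x ∈ K, ∀ y ∈ K, f (x + y) = f x + f y) ∧ ∀ a ∈ S, ∀ x ∈ K, f (a • x) = ψ a • f x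

variable {ψ}

lemma SLin.zero (h : SubLike S K) {f : (ι →₀ B) → C} (hf : SLin ψ S K f) : f 0 = 0 := by
  have := hf.2 0 (zero_mem S) 0 h.zero
  simpa using this

lemma SLin.sum (h : SubLike S K) {f : (ι →₀ B) → C} (hf : SLin ψ S K f) {α : Type*}
    (s : Finset α) (x : α → ι →₀ B) (hx : ∀ a ∈ s, x a ∈ K) :
    f (∑ a ∈ s, x a) = ∑ a ∈ s, f (x a) := by
  classical
  induction s using Finset.induction_on with
  | empty => simp [hf.zero h]
  | insert a s ha ih =>
    rw [Finset.sum_insert ha, Finset.sum_insert ha, hf.1 _ (hx a (Finset.mem_insert_self _ _)) _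
      (h.sum _ _ fun b hb => hx b (Finset.mem_insert_of_mem hb)),
      ih fun b hb => hx b (Finset.mem_insert_of_mem hb)]

lemma SLin.lc (h : SubLike S K) {f : (ι →₀ B) → C} (hf : SLin ψ S K f) {θ : ι → (ι →₀ B)}
    (hθ : ∀ i, θ i ∈ K) {x : ι →₀ B} (hx : ∀ i, x i ∈ S) :
    f (linearCombination B θ x) = linearCombination B' (fun i => f (θ i)) (bc ψ x) := by
  classical
  rw [Finsupp.linearCombination_apply, Finsupp.sum, hf.sum h _ _
    (fun i _ => h.smul _ (hx i) _ (hθ i))]
  rw [Finsupp.linearCombination_apply, Finsupp.sum_of_support_subset (s := x.support)]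
  · refine Finset.sum_congr rfl fun i _ => ?_
    rw [hf.2 _ (hx i) _ (hθ i), bc_apply]
  · intro i hi
    rw [Finsupp.mem_support_iff, bc_apply] at hi
    rw [Finsupp.mem_support_iff]
    intro h0
    apply hi
    rw [h0, map_zero]
  · intro i _
    rw [zero_smul]

/-- base change along a ring map is well defined on flat quotients -/
lemma bc1 (h : SubLike S K) (hK : Theta K) {f : (ι →₀ B) → C} (hf : SLin ψ S K f)
    {α : Type*} (s : Finset α) (k : α → ι →₀ B) (hk : ∀ a ∈ s, k a ∈ K) (c : α → B')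
    (h0 : ∑ a ∈ s, c a • bc ψ (k a) = 0) : ∑ a ∈ s, c a • f (k a) = 0 := by
  obtain ⟨θ, h1, h2⟩ := hK.multi h s k hk
  have e1 : ∀ a ∈ s, f (k a) = linearCombination B' (fun i => f (θ i)) (bc ψ (k a)) := by
    intro a ha
    conv_lhs => rw [← h2 a ha]
    exact hf.lc h h1 (h.val _ (hk a ha))
  rw [Finset.sum_congr rfl fun a ha => by rw [e1 a ha]]
  simp only [← map_smul]
  rw [← map_sum, h0, map_zero]

/-- a map out of `X` killing the kernel of `L` extends along `L` into an injective module -/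
lemma exists_ext_of_injective {B' : Type u} [Ring B'] {X Y C : Type u} [AddCommGroup X]
    [Module B' X] [AddCommGroup Y] [Module B' Y] [AddCommGroup C] [Module B' C]
    [Module.Injective B' C] (L : X →ₗ[B'] Y) (g : X →ₗ[B'] C)
    (h : LinearMap.ker L ≤ LinearMap.ker g) : ∃ e : Y →ₗ[B'] C, ∀ x, e (L x) = g x := by
  let j : (X ⧸ LinearMap.ker L) →ₗ[B'] Y := (LinearMap.ker L).liftQ L le_rfl
  have hj : Function.Injective j := by
    rw [← LinearMap.ker_eq_bot]
    exact Submodule.ker_liftQ_eq_bot _ _ _ le_rfl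
  obtain ⟨e, he⟩ := Module.Injective.out j hj ((LinearMap.ker L).liftQ g h)
  refine ⟨e, fun x => ?_⟩
  have := he (Submodule.Quotient.mk x)
  simpa [j] using this

/-- semilinear maps into injective modules extend -/
lemma bc_injective {B' : Type u} [Ring B'] {ι C : Type u} {B : Type u} [Ring B]
    {S : Subring B} {K : Set (ι →₀ B)} {ψ : B →+* B'} [AddCommGroup C] [Module B' C]
    [Module.Injective B' C] (h : SubLike S K) (hK : Theta K) {f : (ι →₀ B) → C}
    (hf : SLin ψ S K f) : ∃ c : ι → C, ∀ k ∈ K, f k = linearCombination B' c (bc ψ k) := by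
  classical
  let L : (K →₀ B') →ₗ[B'] (ι →₀ B') := linearCombination B' (fun k : K => bc ψ (k : ι →₀ B))
  let g : (K →₀ B') →ₗ[B'] C := linearCombination B' (fun k : K => f (k : ι →₀ B))
  have hk : LinearMap.ker L ≤ LinearMap.ker g := by
    intro x hx
    rw [LinearMap.mem_ker] at hx ⊢
    simp only [L, g, Finsupp.linearCombination_apply, Finsupp.sum] at hx ⊢
    exact bc1 h hK hf x.support (fun k : K => (k : ι →₀ B)) (fun k _ => k.2) (fun k => x k) hx
  obtain ⟨e, he⟩ := exists_ext_of_injective L g hk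
  refine ⟨fun i => e (single i 1), fun k hk => ?_⟩
  have h1 := he (single ⟨k, hk⟩ 1)
  simp only [L, g, Finsupp.linearCombination_single, one_smul] at h1
  rw [← h1, Finsupp.linearCombination_apply, Finsupp.sum]
  conv_lhs => rw [← Finsupp.sum_single (bc ψ k), Finsupp.sum, map_sum]
  refine Finset.sum_congr rfl fun i _ => ?_
  rw [← map_smul]
  simp

/-- base change preserves flatness of the quotient -/
lemma bc_theta (h : SubLike S K) (hK : Theta K) :
    Theta (Submodule.span B' (bc ψ '' K) : Set (ι →₀ B')) := by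
  classical
  intro x hx
  rw [SetLike.mem_coe, Finsupp.mem_span_image_iff_linearCombination] at hx
  obtain ⟨l, hl, rfl⟩ := hx
  obtain ⟨θ, h1, h2⟩ := hK.multi h l.support (fun k => k) (fun k hk => hl hk)
  refine ⟨fun i => bc ψ (θ i), fun i => Submodule.subset_span ⟨_, h1 i, rfl⟩, ?_⟩
  rw [Finsupp.linearCombination_apply B' l, Finsupp.sum, map_sum]
  refine Finset.sum_congr rfl fun k hk => ?_
  rw [map_smul]
  congr 1
  have := hl hk
  have hS : SLin ψ S K (fun x => bc ψ x) :=
    ⟨fun x _ y _ => bc_add ψ x y, fun a _ x _ => bc_smul ψ a x⟩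
  have h3 := hS.lc h h1 (h.val _ this)
  rw [h2 k hk] at h3
  exact h3.symm

end bc

end Pool.Agent.V1166.FP
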