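import Pool.Agent.V1166.FP.LiftE

namespace Pool.Agent.V1166.FP

universe u v w

open Finsupp (linearCombination single)
open Fsup

section claim

variable {R A : Type u} [Ring R] [Ring A] {φ : R →+* A} {F E : Type u} [AddCommGroup F]
  [Module A F] [AddCommGroup E] [Module A E] {d : F →ₗ[A] F} {i : F →ₗ[A] E} {r : E →ₗ[A] F}
  {W : Filt φ E} {N : Set (UU A R F E W.B)}

lemma bc_id {ι : Type*} (x : ι →₀ A) : bc (RingHom.id A) x = x := by
  ext i; simp [bc_apply]

lemma Nice.subLikeK (hN : Nice d i r W N) : SubLike hN.NA (KN d W N) where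
  zero := ⟨sp_zero_finsupp, fun z hz => absurd hz (by simp), map_zero _⟩
  add := by
    classical
    rintro x ⟨hx1, hx2, hx3⟩ y ⟨hy1, hy2, hy3⟩
    refine ⟨hN.sp_add hx1 hy1, fun b hb => ?_, by rw [map_add, hx3, hy3, add_zero]⟩
    rcases Finset.mem_union.1 (Finsupp.support_add hb) with h | h
    · exact hx2 b h
    · exact hy2 b h
  smul := by
    rintro a ha x ⟨hx1, hx2, hx3⟩
    exact ⟨hN.sp_smul ha hx1, fun b hb => hx2 b (Finsupp.support_smul hb),
      by rw [map_smul, hx3, smul_zero]⟩
  val _ hx b := hN.coefA hx.1 b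

lemma Nice.thetaK (hN : Nice d i r W N) : Theta (KN d W N) := hN.fl

lemma Nice.cloK (hN : Nice d i r W N) : Clo hN.NA (KN d W N) :=
  ⟨hN.subLikeK.zero, hN.subLikeK.add, hN.subLikeK.smul⟩

lemma SLin.of_linOn {ι : Type*} {C : Type*} [AddCommGroup C] [Module A C] {S : Subring A}
    {K : Set (ι →₀ A)} {f : (ι →₀ A) → C} (h : LinOn S K f) : SLin (RingHom.id A) S K f := h

/-- the assertion proved by induction -/
def Claim (φ : R →+* A) (d : F →ₗ[A] F) (W : Filt φ E) (S : Subring A)
    (N : Set (UU A R F E W.B)) : Prop :=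
  ∀ (C : Type u) [AddCommGroup C] [Module A C], CotV φ C → ∀ f : (F →₀ A) → C,
    LinOn S (KN d W N) f → ∃ c : F → C, ∀ x ∈ KN d W N, f x = linearCombination A c x

/-- the lifting property -/
def Lifting (φ : R →+* A) (d : F →ₗ[A] F) (W : Filt φ E) (S : Subring A)
    (N : Set (UU A R F E W.B)) : Prop :=
  ∀ (C I C' : Type u) [AddCommGroup C] [Module A C]
    [AddCommGroup I] [Module A I] [AddCommGroup C'] [Module A C'], CotV φ C → CotV φ C' →
    ∀ (j : C →ₗ[A] I) (q : I →ₗ[A] C'), Function.Injective j → Function.Surjective q →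
    LinearMap.range j = LinearMap.ker q → ∀ g : (F →₀ A) → C', LinOn S (KN d W N) g →
    ∃ h : (F →₀ A) → I, LinOn S (KN d W N) h ∧ ∀ x ∈ KN d W N, q (h x) = g x

/-- elementary relations -/
lemma Nice.rel_add (hN : Nice d i r W N) {x y : F} (hx : iF x ∈ N) (hy : iF y ∈ N)
    (hx' : d x = 0) (hy' : d y = 0) :
    (single (x + y) (1 : A) - single x 1 - single y 1) ∈ KN d W N := by
  classical
  have hs : ∀ z : F, iF z ∈ N → d z = 0 → sp (single z (1 : A)) ⊆ N ∧
      ∀ w ∈ (single z (1 : A)).support, d w = 0 := by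
    intro z hz hz'
    constructor
    · rw [sp_finsupp]
      intro w hw
      have := Finsupp.support_single_subset hw
      rw [Finset.mem_singleton] at this
      subst this
      refine ⟨(spF _).2 hz, ?_⟩
      rw [Finsupp.single_eq_same]
      exact (spA _).2 hN.A1
    · intro w hw
      have := Finsupp.support_single_subset hw
      rw [Finset.mem_singleton] at this
      subst this
      exact hz'
  have h1 := hs _ (hN.Fadd _ _ hx hy) (by rw [map_add, hx', hy', add_zero])
  have h2 := hs _ hx hx'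
  have h3 := hs _ hy hy'
  have hneg : ∀ z : F →₀ A, sp z ⊆ N → sp (-z) ⊆ N := by
    intro z hz
    have := hN.sp_smul (hN.NA.neg_mem (one_mem _)) hz
    rwa [neg_smul, one_smul] at this
  refine ⟨?_, ?_, ?_⟩
  · rw [sub_eq_add_neg, sub_eq_add_neg]
    exact hN.sp_add (hN.sp_add h1.1 (hneg _ h2.1)) (hneg _ h3.1)
  · intro w hw
    rcases Finset.mem_union.1 (Finsupp.support_sub hw) with h | h
    · rcases Finset.mem_union.1 (Finsupp.support_sub h) with h | h
      · exact h1.2 w h
      · exact h2.2 w h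
    · exact h3.2 w h
  · rw [map_sub, map_sub, Finsupp.linearCombination_single, Finsupp.linearCombination_single,
      Finsupp.linearCombination_single, one_smul, one_smul, one_smul]
    simp

lemma Nice.rel_smul (hN : Nice d i r W N) {x : F} (hx : iF x ∈ N) {a : A} (ha : a ∈ hN.NA)
    (hx' : d x = 0) : (single (a • x) (1 : A) - single x a) ∈ KN d W N := by
  classical
  have hs : ∀ z : F, iF z ∈ N → d z = 0 → ∀ a ∈ hN.NA, sp (single z a) ⊆ N ∧
      ∀ w ∈ (single z a).support, d w = 0 := by
    intro z hz hz' a ha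
    constructor
    · rw [sp_finsupp]
      intro w hw
      have := Finsupp.support_single_subset hw
      rw [Finset.mem_singleton] at this
      subst this
      refine ⟨(spF _).2 hz, ?_⟩
      rw [Finsupp.single_eq_same]
      exact (spA _).2 ha
    · intro w hw
      have := Finsupp.support_single_subset hw
      rw [Finset.mem_singleton] at this
      subst this
      exact hz'
  have h1 := hs _ (hN.Fsmul _ _ ha hx) (by rw [map_smul, hx', smul_zero]) 1 (one_mem _)
  have h2 := hs _ hx hx' a ha
  have hneg : ∀ z : F →₀ A, sp z ⊆ N → sp (-z) ⊆ N := by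
    intro z hz
    have := hN.sp_smul (hN.NA.neg_mem (one_mem _)) hz
    rwa [neg_smul, one_smul] at this
  refine ⟨?_, ?_, ?_⟩
  · rw [sub_eq_add_neg]
    exact hN.sp_add h1.1 (hneg _ h2.1)
  · intro w hw
    rcases Finset.mem_union.1 (Finsupp.support_sub hw) with h | h
    · exact h1.2 w h
    · exact h2.2 w h
  · rw [map_sub, Finsupp.linearCombination_single, Finsupp.linearCombination_single, one_smul]
    simp

/-- the lifting property implies the claim -/
theorem Nice.claim_of_lifting (hN : Nice d i r W N) (hdd : ∀ x, d (d x) = 0)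
    (hri : ∀ x, r (i x) = x)
    (hL : Lifting φ d W hN.NA N) : Claim φ d W hN.NA N := by
  classical
  intro C _ _ hC f hf
  obtain ⟨I, _, _, j, hI, hj⟩ := exists_injective (A := A) C
  let q : I →ₗ[A] (I ⧸ LinearMap.range j) := (LinearMap.range j).mkQ
  have hq : Function.Surjective q := Submodule.mkQ_surjective _
  have hjq : LinearMap.range j = LinearMap.ker q := (Submodule.ker_mkQ _).symm
  have hC' : CotV φ (I ⧸ LinearMap.range j) := hC.cosyz j q hj hq hjq
  have hqj : ∀ c, q (j c) = 0 := by
    intro c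
    rw [← LinearMap.mem_ker, ← hjq]
    exact ⟨_, rfl⟩
  -- extend j ∘ f
  have hjf : SLin (RingHom.id A) hN.NA (KN d W N) (fun x => j (f x)) := by
    constructor
    · intro x hx y hy
      show j (f (x + y)) = j (f x) + j (f y)
      rw [hf.1 x hx y hy, map_add]
    · intro a ha x hx
      show j (f (a • x)) = a • j (f x)
      rw [hf.2 a ha x hx, map_smul]
  obtain ⟨e, he⟩ := bc_injective hN.subLikeK hN.thetaK hjf
  simp only [bc_id] at he
  have hqe : ∀ x ∈ KN d W N, linearCombination A (fun z => q (e z)) x = 0 := by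
    intro x hx
    have := congrArg q (he x hx)
    rw [hqj, Finsupp.apply_linearCombination] at this
    exact this.symm
  set Z : Set F := {z | iF z ∈ N ∧ d z = 0} with hZ
  have hZc : Clo hN.NA Z := by
    refine ⟨⟨hN.F0, map_zero _⟩, ?_, ?_⟩
    · rintro x ⟨hx, hx'⟩ y ⟨hy, hy'⟩
      exact ⟨hN.Fadd _ _ hx hy, by rw [map_add, hx', hy', add_zero]⟩
    · rintro a ha x ⟨hx, hx'⟩
      exact ⟨hN.Fsmul _ _ ha hx, by rw [map_smul, hx', smul_zero]⟩
  have hg₀ : LinOn hN.NA Z (fun z => q (e z)) := by
    constructor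
    · rintro x ⟨hx, hx'⟩ y ⟨hy, hy'⟩
      have := hqe _ (hN.rel_add hx hy hx' hy')
      rw [map_sub, map_sub, Finsupp.linearCombination_single, Finsupp.linearCombination_single,
        Finsupp.linearCombination_single, one_smul, one_smul, one_smul] at this
      rw [sub_sub, sub_eq_zero] at this
      exact this
    · rintro a ha x ⟨hx, hx'⟩
      have := hqe _ (hN.rel_smul hx ha hx')
      rw [map_sub, Finsupp.linearCombination_single, Finsupp.linearCombination_single,
        one_smul, sub_eq_zero] at this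
      exact this
  set g₀ : F → I ⧸ LinearMap.range j := fun z => q (e z) with hg₀d
  -- a section
  have hσ : ∀ z, z ∈ Z → ∃ y, iF y ∈ N ∧ d y = z := fun z hz => hN.ac z hz.1 hz.2
  choose! σ hσ1 hσ2 using hσ
  have hsuppZ : ∀ x ∈ KN d W N, ∀ z ∈ x.support, z ∈ Z := fun x hx z hz =>
    ⟨(spF _).1 ((sp_finsupp x).1 hx.1 z hz).1, hx.2.1 z hz⟩
  have hlcσ : ∀ x ∈ KN d W N, linearCombination A σ x ∈ Z := by
    intro x hx
    constructor
    · exact hN.cloF.lc (fun z => hN.coefA hx.1 z) fun z hz => hσ1 z (hsuppZ x hx z hz)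
    · rw [Finsupp.apply_linearCombination]
      rw [← hx.2.2]
      rw [Finsupp.linearCombination_apply, Finsupp.linearCombination_apply]
      refine Finset.sum_congr rfl fun z hz => ?_
      show x z • d (σ z) = x z • z
      rw [hσ2 z (hsuppZ x hx z hz)]
  -- the claim for C'
  obtain ⟨c', hc'⟩ : ∃ c' : F → I ⧸ LinearMap.range j, ∀ x ∈ KN d W N,
      g₀ (linearCombination A σ x) = linearCombination A c' x := by
    obtain ⟨h, hh, hh'⟩ := hL C I (I ⧸ LinearMap.range j) hC hC' j q hj hq hjq
      (fun x => g₀ (linearCombination A σ x)) (by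
      constructor
      · intro x hx y hy
        beta_reduce
        rw [map_add]
        exact hg₀.1 _ (hlcσ x hx) _ (hlcσ y hy)
      · intro a ha x hx
        beta_reduce
        rw [map_smul]
        exact hg₀.2 a ha _ (hlcσ x hx))
    obtain ⟨e', he'⟩ := bc_injective hN.subLikeK hN.thetaK (SLin.of_linOn hh)
    refine ⟨fun z => q (e' z), fun x hx => ?_⟩
    rw [← hh' x hx, he' x hx, bc_id, Finsupp.apply_linearCombination]
    rfl
  -- extend g₀ to F_N
  let g' : F → I ⧸ LinearMap.range j := fun y => g₀ (y - σ (d y)) + c' (d y)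
  have hdZ : ∀ y, iF y ∈ N → d y ∈ Z := fun y hy => ⟨hN.Fd _ hy, hdd y⟩
  have hyZ : ∀ y, iF y ∈ N → y - σ (d y) ∈ Z := fun y hy =>
    ⟨hN.cloF.sub hy (hσ1 _ (hdZ y hy)), by rw [map_sub, hσ2 _ (hdZ y hy), sub_self]⟩
  have hg' : LinOn hN.NA {y : F | iF y ∈ N} g' := by
    constructor
    · intro x hx y hy
      have hdx := hdZ x hx
      have hdy := hdZ y hy
      have hk := hN.rel_add hdx.1 hdy.1 hdx.2 hdy.2
      have e1 := hc' _ hk
      simp only [map_sub, Finsupp.linearCombination_single, one_smul] at e1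
      have hxy : iF (x + y) ∈ N := hN.Fadd _ _ hx hy
      have e2 : x + y - σ (d (x + y)) + (σ (d x + d y) - σ (d x) - σ (d y)) =
          (x - σ (d x)) + (y - σ (d y)) := by rw [map_add]; abel
      have hw : σ (d x + d y) - σ (d x) - σ (d y) ∈ Z := by
        have := hlcσ _ hk
        simpa only [map_sub, Finsupp.linearCombination_single, one_smul] using this
      have e3 := congrArg g₀ e2
      rw [hg₀.1 _ (hyZ _ hxy) _ hw, hg₀.1 _ (hyZ x hx) _ (hyZ y hy), e1] at e3
      show g₀ (x + y - σ (d (x + y))) + c' (d (x + y)) = (g₀ (x - σ (d x)) + c' (d x)) +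
        (g₀ (y - σ (d y)) + c' (d y))
      have e4 : c' (d (x + y)) = c' (d x + d y) := by rw [map_add]
      rw [e4]
      have e5 : g₀ (x + y - σ (d (x + y))) = g₀ (x - σ (d x)) + g₀ (y - σ (d y)) -
          (c' (d x + d y) - c' (d x) - c' (d y)) := by rw [← e3]; abel
      rw [e5]; abel
    · intro a ha x hx
      have hdx := hdZ x hx
      have hk := hN.rel_smul hdx.1 ha hdx.2
      have e1 := hc' _ hk
      simp only [map_sub, Finsupp.linearCombination_single, one_smul] at e1
      have hax : iF (a • x) ∈ N := hN.Fsmul _ _ ha hx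
      have e2 : a • x - σ (d (a • x)) + (σ (a • d x) - a • σ (d x)) =
          a • (x - σ (d x)) := by rw [map_smul, smul_sub]; abel
      have hw : σ (a • d x) - a • σ (d x) ∈ Z := by
        have := hlcσ _ hk
        simpa only [map_sub, Finsupp.linearCombination_single, one_smul] using this
      have e3 := congrArg g₀ e2
      rw [hg₀.1 _ (hyZ _ hax) _ hw, hg₀.2 _ ha _ (hyZ x hx), e1] at e3
      show g₀ (a • x - σ (d (a • x))) + c' (d (a • x)) = a • (g₀ (x - σ (d x)) + c' (d x))
      have e4 : c' (d (a • x)) = c' (a • d x) := by rw [map_smul]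
      rw [e4, smul_add, ← e3]
      abel
  have hg'0 : ∀ z ∈ Z, g' z = g₀ z := by
    intro z hz
    have h0Z : (0 : F) ∈ Z := hZc.zero
    have hσ0 : σ 0 ∈ Z := ⟨hσ1 0 h0Z, hσ2 0 h0Z⟩
    have e1 : g' 0 = 0 := hg'.zero hN.cloF
    have e2 : g' 0 = g₀ (0 - σ 0) + c' 0 := by
      show g₀ (0 - σ (d 0)) + c' (d 0) = _
      rw [map_zero]
    rw [e1, hg₀.sub hZc h0Z hσ0, hg₀.zero hZc, zero_sub] at e2
    show g₀ (z - σ (d z)) + c' (d z) = _
    rw [hz.2, hg₀.sub hZc hz hσ0]
    have e3 : c' 0 = g₀ (σ 0) := by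
      rw [← sub_eq_zero, sub_eq_add_neg, add_comm, ← e2]
    rw [e3]; abel
  obtain ⟨h, hh, hh'⟩ := hN.lift hC j q hj hq hjq (fun x => g' (r x)) (by
    constructor
    · intro x hx y hy
      beta_reduce
      rw [map_add]
      exact hg'.1 _ (hN.Er _ hx) _ (hN.Er _ hy)
    · intro a ha x hx
      beta_reduce
      rw [map_smul]
      exact hg'.2 _ ha _ (hN.Er _ hx))
  have hc : ∀ z, z ∈ Z → ∃ y, j y = e z - h (i z) := by
    intro z hz
    have : e z - h (i z) ∈ LinearMap.ker q := by
      rw [LinearMap.mem_ker, map_sub, hh' _ (hN.Fi _ hz.1), hri, hg'0 z hz]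
      exact sub_self _
    rw [← hjq] at this
    exact this
  choose! c hc using hc
  refine ⟨c, fun x hx => ?_⟩
  apply hj
  rw [he x hx, Finsupp.apply_linearCombination]
  have hhi : LinOn hN.NA {y : F | iF y ∈ N} (fun y => h (i y)) := by
    constructor
    · intro x hx y hy
      beta_reduce
      rw [map_add]
      exact hh.1 _ (hN.Fi _ hx) _ (hN.Fi _ hy)
    · intro a ha x hx
      beta_reduce
      rw [map_smul]
      exact hh.2 _ ha _ (hN.Fi _ hx)
  have e1 : linearCombination A (fun z => h (i z)) x = 0 := by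
    have := hhi.lc hN.cloF (c := (id : F → F)) (x := x) (fun z => hN.coefA hx.1 z)
      (fun z hz => (hsuppZ x hx z hz).1)
    rw [hx.2.2, hhi.zero hN.cloF] at this
    exact this.symm
  have e2 : linearCombination A (⇑j ∘ c) x = linearCombination A e x -
      linearCombination A (fun z => h (i z)) x := by
    rw [Finsupp.linearCombination_apply, Finsupp.linearCombination_apply,
      Finsupp.linearCombination_apply, Finsupp.sum, Finsupp.sum, Finsupp.sum,
      ← Finset.sum_sub_distrib]
    refine Finset.sum_congr rfl fun z hz => ?_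
    show x z • j (c z) = _
    rw [hc z (hsuppZ x hx z hz), smul_sub]
  rw [e2, e1, sub_zero]

end claim

end Pool.Agent.V1166.FP
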