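import Pool.Agent.V1166.FP.Claim

namespace Pool.Agent.V1166.FP

universe u v w

open Finsupp (linearCombination single)
open Fsup

section count

/-- lifting for countable flat modules -/
theorem lifting_count {A : Type u} [Ring A] {ι : Type u} {S : Subring A} {K : Set (ι →₀ A)}
    (hS : SubLike S K) (hK : Theta K) (hc : K.Countable) {I C' : Type*} [AddCommGroup I]
    [Module A I] [AddCommGroup C'] [Module A C'] (q : I →ₗ[A] C') (hq : Function.Surjective q)
    (g : (ι →₀ A) → C') (hg : LinOn S K g) :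
    ∃ h : (ι →₀ A) → I, LinOn S K h ∧ ∀ x ∈ K, q (h x) = g x := by
  classical
  obtain ⟨k, hk⟩ := hc.exists_eq_range ⟨0, hS.zero⟩
  have hkK : ∀ n, k n ∈ K := fun n => by rw [hk]; exact ⟨n, rfl⟩
  -- approximate identities
  have hθ : ∀ (n : ℕ) (Y : (ι →₀ A) →ₗ[A] (ι →₀ A)), ∃ θ : ι → (ι →₀ A), (∀ z, θ z ∈ K) ∧
      ((∀ x ∈ K, Y x ∈ K) → ∀ m ≤ n, linearCombination A θ (Y (k m)) = Y (k m)) := by
    intro n Y
    by_cases hY : ∀ x ∈ K, Y x ∈ K
    · obtain ⟨θ, h1, h2⟩ := hK.multi hS (Finset.range (n + 1)) (fun m => Y (k m))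
        (fun m _ => hY _ (hkK m))
      exact ⟨θ, h1, fun _ m hm => h2 m (Finset.mem_range.2 (by omega))⟩
    · exact ⟨fun _ => 0, fun _ => hS.zero, fun h => absurd h hY⟩
  choose θ hθ1 hθ2 using hθ
  obtain ⟨Y, hY0, hYs⟩ : ∃ Y : ℕ → ((ι →₀ A) →ₗ[A] (ι →₀ A)), Y 0 = LinearMap.id ∧
      ∀ n, Y (n + 1) = Y n - linearCombination A (θ n (Y n)) ∘ₗ Y n :=
    ⟨fun n => Nat.rec LinearMap.id (fun n Y => Y - linearCombination A (θ n Y) ∘ₗ Y) n, rfl,
      fun n => rfl⟩
  have hYK : ∀ n, ∀ x ∈ K, Y n x ∈ K := by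
    intro n
    induction n with
    | zero => intro x hx; rw [hY0]; exact hx
    | succ n ih =>
      intro x hx
      rw [hYs, LinearMap.sub_apply, LinearMap.comp_apply]
      exact hS.sub (ih x hx) (hS.lc_mem (hθ1 n (Y n)) (hS.val _ (ih x hx)))
  have hY1 : ∀ n m, m ≤ n → Y (n + 1) (k m) = 0 := by
    intro n m hm
    rw [hYs, LinearMap.sub_apply, LinearMap.comp_apply, hθ2 n (Y n) (hYK n) m hm, sub_self]
  have hYfin : ∀ x ∈ K, ∃ M, ∀ n ≥ M, Y n x = 0 := by
    intro x hx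
    rw [hk] at hx
    obtain ⟨m, rfl⟩ := hx
    refine ⟨m + 1, fun n hn => ?_⟩
    obtain ⟨n', rfl⟩ : ∃ n', n = n' + 1 := ⟨n - 1, by omega⟩
    exact hY1 n' m (by omega)
  have hYsum : ∀ n x, x = Y n x + ∑ l ∈ Finset.range n,
      linearCombination A (θ l (Y l)) (Y l x) := by
    intro n x
    induction n with
    | zero => rw [hY0]; simp
    | succ n ih =>
      rw [Finset.sum_range_succ, hYs, LinearMap.sub_apply, LinearMap.comp_apply]
      conv_lhs => rw [ih]
      abel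
  choose c hc' using fun (n : ℕ) (z : ι) => hq (g (θ n (Y n) z))
  let h : (ι →₀ A) → I := fun x => if hx : ∃ M, ∀ n ≥ M, Y n x = 0 then
    ∑ n ∈ Finset.range hx.choose, linearCombination A (c n) (Y n x) else 0
  have hh : ∀ x M, (∀ n ≥ M, Y n x = 0) →
      h x = ∑ n ∈ Finset.range M, linearCombination A (c n) (Y n x) := by
    intro x M hM
    have hx : ∃ M, ∀ n ≥ M, Y n x = 0 := ⟨M, hM⟩
    simp only [h]
    rw [dif_pos hx]
    have key : ∀ M₁ M₂, M₁ ≤ M₂ → (∀ n ≥ M₁, Y n x = 0) →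
        ∑ n ∈ Finset.range M₁, linearCombination A (c n) (Y n x) =
        ∑ n ∈ Finset.range M₂, linearCombination A (c n) (Y n x) := by
      intro M₁ M₂ h12 h0
      refine Finset.sum_subset (Finset.range_mono h12) fun n _ hn => ?_
      rw [Finset.mem_range, not_lt] at hn
      rw [h0 n hn, map_zero]
    rcases le_total hx.choose M with h12 | h12
    · exact key _ _ h12 hx.choose_spec
    · exact (key _ _ h12 hM).symm
  refine ⟨h, ⟨?_, ?_⟩, ?_⟩
  · intro x hx y hy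
    obtain ⟨M₁, h1⟩ := hYfin x hx
    obtain ⟨M₂, h2⟩ := hYfin y hy
    have h1' : ∀ n ≥ max M₁ M₂, Y n x = 0 := fun n hn => h1 n (le_trans (le_max_left _ _) hn)
    have h2' : ∀ n ≥ max M₁ M₂, Y n y = 0 := fun n hn => h2 n (le_trans (le_max_right _ _) hn)
    have h3 : ∀ n ≥ max M₁ M₂, Y n (x + y) = 0 := fun n hn => by
      rw [map_add, h1' n hn, h2' n hn, add_zero]
    rw [hh _ _ h1', hh _ _ h2', hh _ _ h3, ← Finset.sum_add_distrib]
    exact Finset.sum_congr rfl fun n _ => by rw [map_add, map_add]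
  · intro a ha x hx
    obtain ⟨M, h1⟩ := hYfin x hx
    have h3 : ∀ n ≥ M, Y n (a • x) = 0 := fun n hn => by rw [map_smul, h1 n hn, smul_zero]
    rw [hh _ _ h1, hh _ _ h3, Finset.smul_sum]
    exact Finset.sum_congr rfl fun n _ => by rw [map_smul, map_smul]
  · intro x hx
    obtain ⟨M, h1⟩ := hYfin x hx
    rw [hh _ _ h1, map_sum]
    have hcl : Clo S K := ⟨hS.zero, hS.add, hS.smul⟩
    have h2 := hYsum M x
    rw [h1 M le_rfl, zero_add] at h2
    conv_rhs => rw [h2]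
    rw [hg.sum hcl _ _ fun n _ => hS.lc_mem (hθ1 n (Y n)) (hS.val _ (hYK n x hx))]
    refine Finset.sum_congr rfl fun n _ => ?_
    rw [hg.lc hcl (hS.val _ (hYK n x hx)) fun z _ => hθ1 n (Y n) z,
      Finsupp.apply_linearCombination]
    congr 2
    ext z
    exact hc' n z

variable {R A : Type u} [Ring R] [Ring A] {φ : R →+* A} {F E : Type u} [AddCommGroup F]
  [Module A F] [AddCommGroup E] [Module A E] {d : F →ₗ[A] F} {i : F →ₗ[A] E} {r : E →ₗ[A] F}
  {W : Filt φ E} {N : Set (UU A R F E W.B)}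

theorem Nice.lifting_countable (hN : Nice d i r W N) (hc : N.Countable) :
    Lifting φ d W hN.NA N := by
  intro C I C' _ _ _ _ _ _ _ _ j q _ hq _ g hg
  refine lifting_count hN.subLikeK hN.thetaK ?_ q hq g hg
  exact (Fsup.cnt (X := F →₀ A) N hc).mono fun x hx => hx.1

end count

end Pool.Agent.V1166.FP
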