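import Pool.Agent.V1166.FP.Basic

namespace Pool.Agent.V1166.FP

universe u v w

open Finsupp (linearCombination single)

/-- flatness, by the equational criterion -/
def Flat (B : Type u) [Ring B] (M : Type u) [AddCommGroup M] [Module B M] : Prop :=
  ∀ (n : ℕ) (a : Fin n → B) (x : Fin n → M), ∑ i, a i • x i = 0 →
    ∃ (m : ℕ) (y : Fin m → M) (b : Fin n → Fin m → B),
      (∀ i, x i = ∑ j, b i j • y j) ∧ ∀ j, ∑ i, a i * b i j = 0

/-- vanishing of `Ext¹` in the sense of Yoneda: every extension of `M` by `C` splits -/
def ExtZero (B : Type u) [Ring B] (M C : Type u) [AddCommGroup M] [Module B M]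
    [AddCommGroup C] [Module B C] : Prop :=
  ∀ (X : Type u) [AddCommGroup X] [Module B X] (i : C →ₗ[B] X) (p : X →ₗ[B] M),
    Function.Injective i → Function.Surjective p → LinearMap.range i = LinearMap.ker p →
    ∃ s : M →ₗ[B] X, p ∘ₗ s = LinearMap.id

/-- cotorsion modules -/
def Cotorsion (B : Type u) [Ring B] (C : Type u) [AddCommGroup C] [Module B C] : Prop :=
  ∀ (G : Type u) [AddCommGroup G] [Module B G], Flat B G → ExtZero B G C

section flat

variable {B : Type u} [Ring B] {M : Type u} [AddCommGroup M] [Module B M] {ι : Type u}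

/-- the relation module of a family -/
noncomputable def Rel (B : Type u) [Ring B] {M : Type v} [AddCommGroup M] [Module B M] {ι : Type w}
    (c : ι → M) : Submodule B (ι →₀ B) := LinearMap.ker (linearCombination B c)

lemma mem_Rel {M : Type v} [AddCommGroup M] [Module B M] {ι : Type w} {c : ι → M} {x : ι →₀ B} :
    x ∈ Rel B c ↔ linearCombination B c x = 0 := LinearMap.mem_ker

lemma subLike_top {ι : Type w} (K : Submodule B (ι →₀ B)) :
    SubLike (⊤ : Subring B) (K : Set (ι →₀ B)) where
  zero := K.zero_mem
  add _ hx _ hy := K.add_mem hx hy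
  smul _ _ _ hx := K.smul_mem _ hx
  val _ _ _ := trivial

lemma theta_of_flat (h : Flat B M) (c : ι → M) (hc : Function.Surjective (linearCombination B c)) :
    Theta (Rel B c : Set (ι →₀ B)) := by
  classical
  intro k hk
  rw [SetLike.mem_coe, mem_Rel] at hk
  let s := k.support
  let eq := s.equivFin.symm
  have h0 : ∑ i : Fin s.card, k (eq i) • c (eq i) = 0 := by
    rw [Finsupp.linearCombination_apply, Finsupp.sum] at hk
    rw [← hk, eq.sum_comp (fun i : s => k i • c i), Finset.sum_coe_sort s (fun i => k i • c i)]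
  obtain ⟨m, y, b, h1, h2⟩ := h s.card (fun i => k (eq i)) (fun i => c (eq i)) h0
  choose Y hY using fun j => hc (y j)
  let θ : ι → (ι →₀ B) := fun i => if hi : i ∈ s then
    single i 1 - ∑ j, b (eq.symm ⟨i, hi⟩) j • Y j else 0
  have hθ : ∀ i : Fin s.card, θ (eq i) = single (eq i : ι) 1 - ∑ j, b i j • Y j := by
    intro i
    simp only [θ]
    rw [dif_pos (eq i).2]
    simp
  refine ⟨θ, ?_, ?_⟩
  · intro i
    by_cases hi : i ∈ s
    · have : i = (eq (eq.symm ⟨i, hi⟩) : ι) := by simp
      rw [this, hθ, SetLike.mem_coe, mem_Rel, map_sub, Finsupp.linearCombination_single, one_smul,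
        map_sum]
      simp only [map_smul, hY]
      rw [← h1, sub_self]
    · simp only [θ]
      rw [dif_neg hi]
      exact (Rel B c).zero_mem
  · have e1 : linearCombination B θ k = ∑ i : Fin s.card, k (eq i) • θ (eq i) := by
      rw [Finsupp.linearCombination_apply, Finsupp.sum, eq.sum_comp (fun i : s => k i • θ i),
        Finset.sum_coe_sort s (fun i => k i • θ i)]
    have e2 : k = ∑ i : Fin s.card, k (eq i) • single (eq i : ι) 1 := by
      have : k = ∑ i ∈ s, k i • single i 1 := by
        conv_lhs => rw [← Finsupp.sum_single k, Finsupp.sum]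
        refine Finset.sum_congr rfl fun i _ => ?_
        rw [Finsupp.smul_single, smul_eq_mul, mul_one]
      conv_lhs => rw [this]
      rw [eq.sum_comp (fun i : s => k i • single (i : ι) (1 : B)),
        Finset.sum_coe_sort s (fun i => k i • single (i : ι) (1 : B))]
    rw [e1]
    conv_rhs => rw [e2]
    rw [← sub_eq_zero, ← Finset.sum_sub_distrib]
    have e3 : ∀ i : Fin s.card, k (eq i) • θ (eq i) - k (eq i) • single (eq i : ι) 1 =
        - ∑ j, (k (eq i) * b i j) • Y j := by
      intro i
      rw [hθ, smul_sub, sub_sub_cancel_left, Finset.smul_sum]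
      simp only [smul_smul]
    rw [Finset.sum_congr rfl fun i _ => e3 i, Finset.sum_neg_distrib, Finset.sum_comm, neg_eq_zero]
    refine Finset.sum_eq_zero fun j _ => ?_
    rw [← Finset.sum_smul, h2 j, zero_smul]

lemma flat_of_theta (c : ι → M) (hc : Function.Surjective (linearCombination B c))
    (h : Theta (Rel B c : Set (ι →₀ B))) : Flat B M := by
  classical
  intro n a x hx
  choose p hp using fun i => hc (x i)
  have hk : ∑ i, a i • p i ∈ (Rel B c : Set (ι →₀ B)) := by
    rw [SetLike.mem_coe, mem_Rel, map_sum]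
    simp only [map_smul, hp]
    exact hx
  obtain ⟨θ, h1, h2⟩ := h _ hk
  let q : Fin n → (ι →₀ B) := fun i => p i - linearCombination B θ (p i)
  have hθK : ∀ z, linearCombination B θ z ∈ Rel B c := fun z =>
    (subLike_top (Rel B c)).lc_mem h1 (fun _ => trivial)
  have hq1 : ∀ i, linearCombination B c (q i) = x i := by
    intro i
    simp only [q]
    rw [map_sub, hp, mem_Rel.1 (hθK _), sub_zero]
  have hq2 : ∑ i, a i • q i = 0 := by
    simp only [q, smul_sub, Finset.sum_sub_distrib]
    rw [sub_eq_zero]
    conv_lhs => rw [← h2]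
    rw [map_sum]
    simp only [map_smul]
  let s : Finset ι := Finset.univ.biUnion fun i => (q i).support
  have hs : ∀ i, (q i).support ⊆ s := fun i =>
    Finset.subset_biUnion_of_mem (fun i => (q i).support) (Finset.mem_univ i)
  let eq := s.equivFin.symm
  refine ⟨s.card, fun j => c (eq j), fun i j => q i (eq j), ?_, ?_⟩
  · intro i
    rw [← hq1, Finsupp.linearCombination_apply, Finsupp.sum_of_support_subset (q i) (hs i)
      (fun j a => a • c j) (fun _ _ => zero_smul _ _)]
    rw [eq.sum_comp (fun j : s => q i j • c j), Finset.sum_coe_sort s (fun j => q i j • c j)]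
  · intro j
    have := DFunLike.congr_fun hq2 (eq j : ι)
    rw [Finsupp.finsetSum_apply] at this
    simpa using this

/-- syzygies of flat modules are flat -/
lemma theta_syz {ι : Type w} {K : Submodule B (ι →₀ B)} (h : Theta (K : Set (ι →₀ B))) :
    Theta (Rel B (fun k : K => (k : ι →₀ B)) : Set (K →₀ B)) := by
  classical
  intro x hx
  rw [SetLike.mem_coe, mem_Rel] at hx
  obtain ⟨θ, h1, h2⟩ := h.multi (subLike_top K) x.support (fun k : K => (k : ι →₀ B))
    (fun k _ => k.2)
  let θ' : K → (K →₀ B) := fun k => if k ∈ x.support then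
    single k 1 - linearCombination B (fun i => single (⟨θ i, h1 i⟩ : K) (1 : B)) (k : ι →₀ B)
    else 0
  have key : ∀ z : ι →₀ B, linearCombination B (fun k : K => (k : ι →₀ B))
      (linearCombination B (fun i => single (⟨θ i, h1 i⟩ : K) (1 : B)) z) =
      linearCombination B θ z := by
    intro z
    induction z using Finsupp.induction_linear with
    | zero => simp
    | add a b ha hb => rw [map_add, map_add, map_add, ha, hb]
    | single i a => simp
  refine ⟨θ', ?_, ?_⟩
  · intro k
    rw [SetLike.mem_coe, mem_Rel]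
    simp only [θ']
    split_ifs with hk
    · rw [map_sub, key, Finsupp.linearCombination_single, one_smul, h2 k hk, sub_self]
    · exact map_zero _
  · have e1 : linearCombination B θ' x = x -
        linearCombination B (fun i => single (⟨θ i, h1 i⟩ : K) (1 : B))
          (linearCombination B (fun k : K => (k : ι →₀ B)) x) := by
      conv_rhs => rw [Finsupp.linearCombination_apply B x, Finsupp.sum, map_sum]
      conv_lhs => rw [Finsupp.linearCombination_apply, Finsupp.sum]
      rw [eq_sub_iff_add_eq, ← Finset.sum_add_distrib]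
      conv_rhs => rw [← Finsupp.sum_single x, Finsupp.sum]
      refine Finset.sum_congr rfl fun k hk => ?_
      simp only [θ']
      rw [if_pos hk, map_smul, ← smul_add, sub_add_cancel, Finsupp.smul_single, smul_eq_mul,
        mul_one]
    rw [e1, hx, map_zero, sub_zero]

end flat

section ext

variable {B : Type u} [Ring B]

/-- maps factor through surjections -/
lemma exists_factor {X Y C : Type*} [AddCommGroup X] [Module B X] [AddCommGroup Y] [Module B Y]
    [AddCommGroup C] [Module B C] (L : X →ₗ[B] Y) (hL : Function.Surjective L) (g : X →ₗ[B] C)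
    (h : LinearMap.ker L ≤ LinearMap.ker g) : ∃ s : Y →ₗ[B] C, ∀ x, s (L x) = g x := by
  refine ⟨(LinearMap.ker L).liftQ g h ∘ₗ (L.quotKerEquivOfSurjective hL).symm.toLinearMap, ?_⟩
  intro x
  have : (L.quotKerEquivOfSurjective hL).symm (L x) = Submodule.Quotient.mk x := by
    rw [LinearEquiv.symm_apply_eq]
    rfl
  simp only [LinearMap.comp_apply, LinearEquiv.coe_coe]
  rw [this]
  rfl

variable {M C : Type u} [AddCommGroup M] [Module B M] [AddCommGroup C] [Module B C] {ι : Type u}

lemma extZero_of_ext2 (c : ι → M) (hc : Function.Surjective (linearCombination B c))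
    (h : ∀ f : Rel B c →ₗ[B] C, ∃ d : ι → C, ∀ k : Rel B c, f k = linearCombination B d k) :
    ExtZero B M C := by
  intro X _ _ i p hi hp hip
  choose σ hσ using fun j => hp (c j)
  have h1 : ∀ x, p (linearCombination B σ x) = linearCombination B c x := by
    intro x
    rw [Finsupp.apply_linearCombination]
    congr 1
    ext j
    simp [hσ]
  have h2 : ∀ k : Rel B c, ∃ y, i y = linearCombination B σ (k : ι →₀ B) := by
    intro k
    have : linearCombination B σ (k : ι →₀ B) ∈ LinearMap.ker p := by
      rw [LinearMap.mem_ker, h1]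
      exact mem_Rel.1 k.2
    rw [← hip] at this
    exact this
  choose f hf using h2
  let f' : Rel B c →ₗ[B] C :=
    { toFun := f
      map_add' := by
        intro x y
        apply hi
        rw [map_add, hf, hf, hf, ← map_add]
        rfl
      map_smul' := by
        intro a x
        apply hi
        rw [RingHom.id_apply, map_smul, hf, hf, ← map_smul]
        rfl }
  obtain ⟨d, hd⟩ := h f'
  have hd' : ∀ k : Rel B c, f k = linearCombination B d k := hd
  obtain ⟨s, hs⟩ := exists_factor (linearCombination B c) hc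
    (linearCombination B σ - i ∘ₗ linearCombination B d) (by
      intro x hx
      rw [LinearMap.mem_ker, LinearMap.sub_apply, LinearMap.comp_apply]
      have h3 := hf ⟨x, hx⟩
      rw [hd' ⟨x, hx⟩] at h3
      rw [h3, sub_self])
  refine ⟨s, ?_⟩
  ext m
  obtain ⟨x, rfl⟩ := hc m
  rw [LinearMap.comp_apply, hs, LinearMap.sub_apply, map_sub, h1, LinearMap.comp_apply,
    LinearMap.id_apply]
  have : p (i (linearCombination B d x)) = 0 := by
    rw [← LinearMap.mem_ker, ← hip]
    exact ⟨_, rfl⟩
  rw [this, sub_zero]

lemma ext2_of_extZero (c : ι → M) (hc : Function.Surjective (linearCombination B c))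
    (h : ExtZero B M C) (f : Rel B c →ₗ[B] C) :
    ∃ d : ι → C, ∀ k : Rel B c, f k = linearCombination B d k := by
  -- pushout
  let N : Submodule B (C × (ι →₀ B)) := LinearMap.range (f.prod (-(Rel B c).subtype))
  let i : C →ₗ[B] (C × (ι →₀ B)) ⧸ N := N.mkQ ∘ₗ LinearMap.inl B C (ι →₀ B)
  let p0 : (C × (ι →₀ B)) →ₗ[B] M := linearCombination B c ∘ₗ LinearMap.snd B C (ι →₀ B)
  have hp0 : N ≤ LinearMap.ker p0 := by
    rintro _ ⟨k, rfl⟩
    show linearCombination B c (-(k : ι →₀ B)) = 0
    rw [map_neg, mem_Rel.1 k.2, neg_zero]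
  let p : ((C × (ι →₀ B)) ⧸ N) →ₗ[B] M := N.liftQ p0 hp0
  have hi : Function.Injective i := by
    rw [injective_iff_map_eq_zero]
    intro x hx
    have : ((x, 0) : C × (ι →₀ B)) ∈ N := by
      rw [← Submodule.Quotient.mk_eq_zero]
      exact hx
    obtain ⟨k, hk⟩ := this
    have h1 : f k = x := congrArg Prod.fst hk
    have h2 : -(k : ι →₀ B) = 0 := congrArg Prod.snd hk
    have h3 : k = 0 := by
      apply Subtype.ext
      exact neg_eq_zero.1 h2
    rw [← h1, h3, map_zero]
  have hp : Function.Surjective p := by
    intro m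
    obtain ⟨x, rfl⟩ := hc m
    exact ⟨N.mkQ (0, x), rfl⟩
  have hip : LinearMap.range i = LinearMap.ker p := by
    apply le_antisymm
    · rintro _ ⟨x, rfl⟩
      show linearCombination B c 0 = 0
      exact map_zero _
    · intro z hz
      obtain ⟨⟨y, x⟩, rfl⟩ := N.mkQ_surjective z
      have hx : x ∈ Rel B c := hz
      refine ⟨y + f ⟨x, hx⟩, ?_⟩
      show N.mkQ (y + f ⟨x, hx⟩, 0) = N.mkQ (y, x)
      rw [← sub_eq_zero, ← map_sub, Submodule.mkQ_apply, Submodule.Quotient.mk_eq_zero]
      refine ⟨⟨x, hx⟩, ?_⟩
      simp [LinearMap.prod_apply]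
  obtain ⟨s, hs⟩ := h _ i p hi hp hip
  have h1 : ∀ z, ∃ y, i y = z - s (p z) := by
    intro z
    have : z - s (p z) ∈ LinearMap.ker p := by
      rw [LinearMap.mem_ker, map_sub]
      have := LinearMap.congr_fun hs (p z)
      rw [LinearMap.comp_apply, LinearMap.id_apply] at this
      rw [this, sub_self]
    rw [← hip] at this
    exact this
  choose ρ hρ using h1
  let ρ' : ((C × (ι →₀ B)) ⧸ N) →ₗ[B] C :=
    { toFun := ρ
      map_add' := by
        intro x y
        apply hi
        rw [map_add, hρ, hρ, hρ, map_add, map_add]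
        abel
      map_smul' := by
        intro a x
        apply hi
        rw [RingHom.id_apply, map_smul, hρ, hρ, map_smul, map_smul, smul_sub] }
  have hρi : ∀ y, ρ' (i y) = y := by
    intro y
    apply hi
    show i (ρ (i y)) = i y
    rw [hρ]
    have : p (i y) = 0 := by rw [← LinearMap.mem_ker, ← hip]; exact ⟨y, rfl⟩
    rw [this, map_zero, sub_zero]
  refine ⟨fun j => ρ' (N.mkQ (0, single j 1)), fun k => ?_⟩
  have h2 : linearCombination B (fun j => ρ' (N.mkQ ((0 : C), single j (1 : B)))) (k : ι →₀ B) =
      ρ' (N.mkQ (0, (k : ι →₀ B))) := by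
    have : ∀ x : ι →₀ B, linearCombination B
        (fun j => ρ' (N.mkQ ((0 : C), single j (1 : B)))) x = ρ' (N.mkQ (0, x)) := by
      intro x
      induction x using Finsupp.induction_linear with
      | zero =>
        rw [map_zero]
        have : ((0 : C), (0 : ι →₀ B)) = 0 := rfl
        rw [this, map_zero, map_zero]
      | add x y hx hy =>
        rw [map_add, hx, hy, ← map_add, ← map_add, Prod.mk_add_mk, add_zero]
      | single j b =>
        rw [Finsupp.linearCombination_single, ← map_smul, ← map_smul, Prod.smul_mk, smul_zero,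
          Finsupp.smul_single, smul_eq_mul, mul_one]
    exact this _
  rw [h2, ← hρi (f k)]
  congr 1
  rw [← sub_eq_zero]
  show N.mkQ (f k, 0) - N.mkQ (0, (k : ι →₀ B)) = 0
  rw [← map_sub, Submodule.mkQ_apply, Submodule.Quotient.mk_eq_zero]
  refine ⟨k, ?_⟩
  simp [LinearMap.prod_apply]

end ext

section cot

variable {R A : Type u} [Ring R] [Ring A] (φ : R →+* A)

/-- working form of: the module `C` over `A` is cotorsion over `R` -/
def CotV (C : Type u) [AddCommGroup C] [Module A C] : Prop :=
  ∀ (ι : Type u) (K : Submodule R (ι →₀ R)), Theta (K : Set (ι →₀ R)) → ∀ f : (ι →₀ R) → C,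
    SLin φ ⊤ (K : Set (ι →₀ R)) f → ∃ d : ι → C, ∀ k ∈ K, f k = linearCombination A d (bc φ k)

lemma cotV_of_cotorsion {C : Type u} [AddCommGroup C] [Module A C] [Module R C]
    (hc : ∀ (r : R) (x : C), r • x = φ r • x) (h : Cotorsion R C) : CotV φ C := by
  intro ι K hK f hf
  let c : ι → (ι →₀ R) ⧸ K := fun i => K.mkQ (single i 1)
  have hlc : linearCombination R c = K.mkQ := by
    ext i
    simp [c]
  have hcs : Function.Surjective (linearCombination R c) := by
    rw [hlc]; exact K.mkQ_surjective
  have hrel : Rel R c = K := by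
    unfold Rel
    rw [hlc, Submodule.ker_mkQ]
  have hflat : Flat R ((ι →₀ R) ⧸ K) := flat_of_theta c hcs (by rw [hrel]; exact hK)
  have hmem : ∀ x : Rel R c, (x : ι →₀ R) ∈ K := fun x => (le_of_eq hrel) x.2
  let f' : Rel R c →ₗ[R] C :=
    { toFun := fun k => f k
      map_add' := fun x y => hf.1 _ (hmem x) _ (hmem y)
      map_smul' := fun a x => by
        rw [RingHom.id_apply, hc]
        exact hf.2 a trivial _ (hmem x) }
  obtain ⟨d, hd⟩ := ext2_of_extZero c hcs (h _ hflat) f'
  refine ⟨d, fun k hk => ?_⟩
  have h1 : f k = linearCombination R d k := hd ⟨k, by rw [hrel]; exact hk⟩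
  rw [h1]
  have : ∀ x : ι →₀ R, linearCombination R d x = linearCombination A d (bc φ x) := by
    intro x
    induction x using Finsupp.induction_linear with
    | zero => rw [map_zero, bc_zero, map_zero]
    | add x y hx hy => rw [map_add, bc_add, map_add, hx, hy]
    | single i b =>
      rw [Finsupp.linearCombination_single, bc_single, Finsupp.linearCombination_single, hc]
  exact this k

variable {φ}

/-- cotorsion modules are closed under cokernels of embeddings into injectives -/
lemma CotV.cosyz {C I C' : Type u} [AddCommGroup C] [Module A C] [AddCommGroup I] [Module A I]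
    [AddCommGroup C'] [Module A C'] [Module.Injective A I] (h : CotV φ C) (j : C →ₗ[A] I)
    (q : I →ₗ[A] C') (hj : Function.Injective j) (hq : Function.Surjective q)
    (hjq : LinearMap.range j = LinearMap.ker q) : CotV φ C' := by
  classical
  intro ι K hK f hf
  have hKs := subLike_top K
  choose m hm using fun k : K => hq (f k)
  -- the discrepancy
  have h1 : ∀ x : K →₀ R, x ∈ Rel R (fun k : K => (k : ι →₀ R)) →
      ∃ y, j y = linearCombination A m (bc φ x) := by
    intro x hx
    have : linearCombination A m (bc φ x) ∈ LinearMap.ker q := by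
      rw [LinearMap.mem_ker, Finsupp.apply_linearCombination]
      rw [mem_Rel, Finsupp.linearCombination_apply, Finsupp.sum] at hx
      have e1 : f (∑ k ∈ x.support, x k • (k : ι →₀ R)) = ∑ k ∈ x.support, φ (x k) • f k := by
        rw [hf.sum hKs]
        · exact Finset.sum_congr rfl fun k _ => hf.2 _ trivial _ k.2
        · exact fun k _ => K.smul_mem _ k.2
      rw [hx, hf.zero hKs] at e1
      rw [Finsupp.linearCombination_apply, Finsupp.sum_of_support_subset (s := x.support), e1]
      · refine Finset.sum_congr rfl fun k _ => ?_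
        rw [bc_apply, Function.comp_apply, hm]
      · intro k hk
        rw [Finsupp.mem_support_iff, bc_apply] at hk
        rw [Finsupp.mem_support_iff]
        intro h0
        apply hk
        rw [h0, map_zero]
      · intro k _
        rw [zero_smul]
    rw [← hjq] at this
    exact this
  choose! δ hδ using h1
  obtain ⟨d, hd⟩ := h K (Rel R (fun k : K => (k : ι →₀ R))) (theta_syz hK) δ (by
    constructor
    · intro x hx y hy
      apply hj
      rw [map_add, hδ x hx, hδ y hy, hδ _ (add_mem hx hy), bc_add, map_add]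
    · intro a _ x hx
      apply hj
      rw [map_smul, hδ x hx, hδ _ (Submodule.smul_mem _ a hx), bc_smul, map_smul])
  let g : (ι →₀ R) → I := fun x => if hx : x ∈ K then m ⟨x, hx⟩ - j (d ⟨x, hx⟩) else 0
  have hg : ∀ x (hx : x ∈ K), g x = m ⟨x, hx⟩ - j (d ⟨x, hx⟩) := by
    intro x hx
    simp only [g]
    rw [dif_pos hx]
  have hsl : SLin φ ⊤ (K : Set (ι →₀ R)) g := by
    constructor
    · intro x hx y hy
      have hxy := add_mem hx hy
      have hz : (single (⟨x + y, hxy⟩ : K) (1 : R) - single (⟨x, hx⟩ : K) 1 -
          single (⟨y, hy⟩ : K) 1) ∈ Rel R (fun k : K => (k : ι →₀ R)) := by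
        rw [mem_Rel, map_sub, map_sub, Finsupp.linearCombination_single,
          Finsupp.linearCombination_single, Finsupp.linearCombination_single, one_smul, one_smul,
          one_smul]
        simp
      have e1 := hδ _ hz
      rw [hd _ hz] at e1
      have e2 : bc φ (single (⟨x + y, hxy⟩ : K) (1 : R) - single (⟨x, hx⟩ : K) 1 -
          single (⟨y, hy⟩ : K) 1) = single (⟨x + y, hxy⟩ : K) (1 : A) - single (⟨x, hx⟩ : K) 1 -
          single (⟨y, hy⟩ : K) 1 := by
        ext k
        simp only [bc_apply, Finsupp.sub_apply, map_sub]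
        congr 1
        · congr 1
          · rw [← bc_apply φ, bc_single, map_one]
          · rw [← bc_apply φ, bc_single, map_one]
        · rw [← bc_apply φ, bc_single, map_one]
      rw [e2] at e1
      simp only [map_sub, Finsupp.linearCombination_single, one_smul] at e1
      rw [hg _ hxy, hg _ hx, hg _ hy]
      have e3 : j (d ⟨x + y, hxy⟩) = m ⟨x + y, hxy⟩ - m ⟨x, hx⟩ - m ⟨y, hy⟩ + j (d ⟨x, hx⟩) +
          j (d ⟨y, hy⟩) := by rw [← e1]; abel
      rw [e3]; abel
    · intro a _ x hx
      have hax := K.smul_mem a hx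
      have hz : (single (⟨a • x, hax⟩ : K) (1 : R) - single (⟨x, hx⟩ : K) a) ∈
          Rel R (fun k : K => (k : ι →₀ R)) := by
        rw [mem_Rel, map_sub, Finsupp.linearCombination_single,
          Finsupp.linearCombination_single, one_smul]
        simp
      have e1 := hδ _ hz
      rw [hd _ hz] at e1
      have e2 : bc φ (single (⟨a • x, hax⟩ : K) (1 : R) - single (⟨x, hx⟩ : K) a) =
          single (⟨a • x, hax⟩ : K) (1 : A) - single (⟨x, hx⟩ : K) (φ a) := by
        ext k
        simp only [bc_apply, Finsupp.sub_apply, map_sub]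
        congr 1
        · rw [← bc_apply φ, bc_single, map_one]
        · rw [← bc_apply φ, bc_single]
      rw [e2] at e1
      simp only [map_sub, Finsupp.linearCombination_single, one_smul] at e1
      rw [hg _ hax, hg _ hx]
      have e3 : j (d ⟨a • x, hax⟩) = m ⟨a • x, hax⟩ - φ a • m ⟨x, hx⟩ +
          j (φ a • d ⟨x, hx⟩) := by rw [← e1]; abel
      rw [e3, map_smul, smul_sub]; abel
  obtain ⟨e, he⟩ := bc_injective hKs hK hsl
  refine ⟨fun i => q (e i), fun k hk => ?_⟩
  have e1 : q (g k) = f k := by
    rw [hg k hk, map_sub, hm]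
    have : q (j (d ⟨k, hk⟩)) = 0 := by
      rw [← LinearMap.mem_ker, ← hjq]; exact ⟨_, rfl⟩
    rw [this, sub_zero]
  rw [← e1, he k hk, Finsupp.apply_linearCombination]
  rfl

/-- enough injectives -/
lemma exists_injective (C : Type u) [AddCommGroup C] [Module A C] :
    ∃ (I : Type u) (_ : AddCommGroup I) (_ : Module A I) (j : C →ₗ[A] I),
      Module.Injective A I ∧ Function.Injective j := by
  obtain ⟨P⟩ := CategoryTheory.EnoughInjectives.presentation (ModuleCat.of A C)
  refine ⟨P.J, inferInstance, inferInstance, P.f.hom, ?_, ?_⟩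
  · have : CategoryTheory.Injective (ModuleCat.of A P.J) := P.injective
    exact Module.injective_module_of_injective_object A P.J
  · exact (ModuleCat.mono_iff_injective P.f).1 P.mono

end cot

end Pool.Agent.V1166.FP
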