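import Pool.Agent.V1166.FP.Main

namespace Pool.Agent.V1166.FP

universe u v w

open Finsupp (linearCombination single)
open Fsup
open scoped Cardinal DirectSum

/-- relatively flaprojective modules -/
def Flapro {R A : Type u} [Ring R] [Ring A] (φ : R →+* A) (F : Type u) [AddCommGroup F]
    [Module A F] : Prop :=
  ∀ (C : Type u) [AddCommGroup C] [Module A C] [Module R C], (∀ (r : R) (x : C), r • x = φ r • x) →
    Cotorsion R C → ExtZero A F C

/-- maps lift along extensions by `C` -/
lemma ExtZero.lift {A : Type u} [Ring A] {M C : Type u} [AddCommGroup M] [Module A M]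
    [AddCommGroup C] [Module A C] (h : ExtZero A M C) {X M' : Type u} [AddCommGroup X]
    [Module A X] [AddCommGroup M'] [Module A M'] (i : C →ₗ[A] X) (p : X →ₗ[A] M')
    (hi : Function.Injective i) (hp : Function.Surjective p)
    (hip : LinearMap.range i = LinearMap.ker p) (g : M →ₗ[A] M') :
    ∃ s : M →ₗ[A] X, p ∘ₗ s = g := by
  have hpi : ∀ c, p (i c) = 0 := by
    intro c
    rw [← LinearMap.mem_ker, ← hip]
    exact ⟨_, rfl⟩
  let Y : Submodule A (X × M) := LinearMap.ker (p ∘ₗ LinearMap.fst A X M - g ∘ₗ LinearMap.snd A X M)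
  have hY : ∀ x : X × M, x ∈ Y ↔ p x.1 = g x.2 := by
    intro x
    rw [LinearMap.mem_ker, LinearMap.sub_apply, sub_eq_zero]
    rfl
  let i' : C →ₗ[A] Y := (LinearMap.inl A X M ∘ₗ i).codRestrict Y (by
    intro c
    rw [hY]
    show p (i c) = g 0
    rw [hpi, map_zero])
  let p' : Y →ₗ[A] M := LinearMap.snd A X M ∘ₗ Y.subtype
  obtain ⟨s, hs⟩ := h Y i' p' (by
    intro a b hab
    apply hi
    have := congrArg (fun y : Y => (y : X × M).1) hab
    exact this) (by
    intro m
    obtain ⟨x, hx⟩ := hp (g m)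
    exact ⟨⟨(x, m), (hY _).2 hx⟩, rfl⟩) (by
    apply le_antisymm
    · rintro _ ⟨c, rfl⟩
      rw [LinearMap.mem_ker]
      rfl
    · rintro ⟨⟨x, m⟩, hx⟩ hm
      have hm' : m = 0 := hm
      subst hm'
      have hx' : p x = g 0 := (hY _).1 hx
      rw [map_zero, ← LinearMap.mem_ker, ← hip] at hx'
      obtain ⟨c, rfl⟩ := hx'
      exact ⟨c, rfl⟩)
  refine ⟨LinearMap.fst A X M ∘ₗ Y.subtype ∘ₗ s, ?_⟩
  ext m
  have h1 : p ((s m : Y) : X × M).1 = g ((s m : Y) : X × M).2 := (hY _).1 (s m).2
  have h2 : ((s m : Y) : X × M).2 = m := LinearMap.congr_fun hs m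
  show p ((s m : Y) : X × M).1 = g m
  rw [h1, h2]

lemma ExtZero.retract {A : Type u} [Ring A] {M C M' : Type u} [AddCommGroup M] [Module A M]
    [AddCommGroup C] [Module A C] [AddCommGroup M'] [Module A M'] (h : ExtZero A M C)
    (ι : M' →ₗ[A] M) (π : M →ₗ[A] M') (hr : π ∘ₗ ι = LinearMap.id) : ExtZero A M' C := by
  intro X _ _ i p hi hp hip
  obtain ⟨s, hs⟩ := h.lift i p hi hp hip π
  exact ⟨s ∘ₗ ι, by rw [← LinearMap.comp_assoc, hs, hr]⟩

lemma ExtZero.directSum {A : Type u} [Ring A] {J : Type} [DecidableEq J] {M : J → Type u}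
    {C : Type u}
    [∀ n, AddCommGroup (M n)] [∀ n, Module A (M n)] [AddCommGroup C] [Module A C]
    (h : ∀ n, ExtZero A (M n) C) : ExtZero A (⨁ n, M n) C := by
  intro X _ _ i p hi hp hip
  choose s hs using fun n => (h n).lift i p hi hp hip (DirectSum.lof A J M n)
  refine ⟨DirectSum.toModule A J X s, ?_⟩
  apply DirectSum.linearMap_ext
  intro n
  ext y
  rw [LinearMap.comp_apply, LinearMap.comp_apply, DirectSum.toModule_lof,
    ← LinearMap.comp_apply, hs]
  rfl

/-- flatness with an arbitrary finite index type -/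
lemma flat_of_fintype {A : Type u} [Ring A] {M : Type u} [AddCommGroup M] [Module A M]
    (h : ∀ (n : ℕ) (a : Fin n → A) (x : Fin n → M), ∑ i, a i • x i = 0 →
    ∃ (J : Type) (_ : Fintype J) (y : J → M) (b : Fin n → J → A),
      (∀ i, x i = ∑ j, b i j • y j) ∧ ∀ j, ∑ i, a i * b i j = 0) : Flat A M := by
  intro n a x hx
  obtain ⟨J, _, y, b, h1, h2⟩ := h n a x hx
  let e := (Fintype.equivFin J).symm
  refine ⟨Fintype.card J, fun j => y (e j), fun i j => b i (e j), fun i => ?_, fun j => h2 _⟩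
  rw [h1, ← e.sum_comp (fun j => b i j • y j)]

section periodic

variable {R A : Type u} [Ring R] [Ring A] {φ : R →+* A} {F : Type u} [AddCommGroup F]
  [Module A F] {d : F →ₗ[A] F}

/-- the periodic case -/
theorem periodic (hex : LinearMap.range d = LinearMap.ker d) (hF : Flapro φ F)
    (hZ : Flat A (LinearMap.ker d)) : Flapro φ (LinearMap.ker d) := by
  classical
  have hdd : ∀ x, d (d x) = 0 := by
    intro x
    rw [← LinearMap.mem_ker, ← hex]
    exact ⟨_, rfl⟩
  have hac : ∀ z, d z = 0 → ∃ y, d y = z := by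
    intro z hz
    rw [← LinearMap.mem_ker, ← hex] at hz
    exact hz
  -- F is a direct summand of a filtered module
  obtain ⟨E, _, _, q, ⟨W⟩, hq, hker⟩ := exists_filt φ F
  let _ : Module R (LinearMap.ker q) := Module.compHom _ φ
  have hcot : Cotorsion R (LinearMap.ker q) := hker _ fun _ _ => rfl
  obtain ⟨i, hi⟩ := hF (LinearMap.ker q) (fun _ _ => rfl) hcot E (LinearMap.ker q).subtype q
    (Submodule.injective_subtype _) hq (Submodule.range_subtype _)
  have hri : ∀ x, q (i x) = x := fun x => LinearMap.congr_fun hi x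
  obtain ⟨cl, hcl, hcl2⟩ := good_nice (i := i) (r := q) W hac hZ
  have hnice : ∀ N, Cl cl N → Nice d i q W N := fun N hN => hcl2 N hN
  have hun := closed_univ cl
  have hN := hnice _ hun
  have hclaim := Nice.claim hcl hnice hdd hri _ hN hun
  intro C _ _ _ hC hCc
  have hCV : CotV φ C := cotV_of_cotorsion φ hC hCc
  let Z := LinearMap.ker d
  apply extZero_of_ext2 (id : Z → Z) (fun g => ⟨single g 1, by simp⟩)
  intro f
  let cm : (F →₀ A) →ₗ[A] (Z →₀ A) := Finsupp.lcomapDomain (fun z : Z => (z : F))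
    Subtype.val_injective
  have hcm : ∀ x ∈ KN d W Set.univ, Finsupp.mapDomain (fun z : Z => (z : F)) (cm x) = x := by
    intro x hx
    apply Finsupp.mapDomain_comapDomain _ Subtype.val_injective
    intro z hz
    exact ⟨⟨z, hx.2.1 z hz⟩, rfl⟩
  have hcmr : ∀ x ∈ KN d W Set.univ, cm x ∈ Rel A (id : Z → Z) := by
    intro x hx
    rw [mem_Rel]
    apply Z.injective_subtype
    rw [map_zero, Finsupp.apply_linearCombination]
    have hx3 := hx.2.2
    rw [← hcm x hx, Finsupp.linearCombination_mapDomain] at hx3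
    exact hx3
  let f' : (F →₀ A) → C := fun x => if hx : cm x ∈ Rel A (id : Z → Z) then f ⟨cm x, hx⟩ else 0
  have hf' : ∀ x (hx : cm x ∈ Rel A (id : Z → Z)), f' x = f ⟨cm x, hx⟩ := by
    intro x hx
    simp only [f']
    rw [dif_pos hx]
  obtain ⟨c, hc⟩ := hclaim C hCV f' (by
    constructor
    · intro x hx y hy
      have h1 := hcmr x hx
      have h2 := hcmr y hy
      have h3 : cm (x + y) ∈ Rel A (id : Z → Z) := by rw [map_add]; exact add_mem h1 h2
      rw [hf' _ h1, hf' _ h2, hf' _ h3, ← map_add]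
      congr 1
      apply Subtype.ext
      exact map_add cm x y
    · intro a _ x hx
      have h1 := hcmr x hx
      have h3 : cm (a • x) ∈ Rel A (id : Z → Z) := by
        rw [map_smul]; exact Submodule.smul_mem _ a h1
      rw [hf' _ h1, hf' _ h3, ← map_smul]
      congr 1
      apply Subtype.ext
      exact map_smul cm a x)
  refine ⟨fun z => c z, fun k => ?_⟩
  let x : F →₀ A := Finsupp.mapDomain (fun z : Z => (z : F)) (k : Z →₀ A)
  have hxk : cm x = (k : Z →₀ A) := Finsupp.comapDomain_mapDomain _ Subtype.val_injective _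
  have hx : x ∈ KN d W Set.univ := by
    refine ⟨Set.subset_univ _, ?_, ?_⟩
    · intro z hz
      have := Finsupp.mapDomain_support hz
      rw [Finset.mem_image] at this
      obtain ⟨z', _, rfl⟩ := this
      exact z'.2
    · show linearCombination A (id : F → F) (Finsupp.mapDomain (fun z : Z => (z : F)) (k : Z →₀ A)) = 0
      rw [Finsupp.linearCombination_mapDomain]
      have := congrArg Z.subtype (mem_Rel.1 k.2)
      rw [Finsupp.apply_linearCombination, map_zero] at this
      exact this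
  have h1 := hc x hx
  rw [hf' x (hcmr x hx)] at h1
  have h2 : (⟨cm x, hcmr x hx⟩ : Rel A (id : Z → Z)) = k := Subtype.ext hxk
  rw [h2] at h1
  rw [h1]
  show linearCombination A c (Finsupp.mapDomain (fun z : Z => (z : F)) (k : Z →₀ A)) = _
  rw [Finsupp.linearCombination_mapDomain]
  rfl

end periodic

section complex

variable {R A : Type u} [Ring R] [Ring A] {φ : R →+* A} (F : ℤ → Type u)
  [∀ n, AddCommGroup (F n)] [∀ n, Module A (F n)] (d : ∀ n, F n →ₗ[A] F (n + 1))

/-- the total differential -/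
noncomputable def dT : (⨁ n, F n) →ₗ[A] (⨁ n, F n) :=
  DirectSum.toModule A ℤ _ fun n => DirectSum.lof A ℤ F (n + 1) ∘ₗ d n

lemma dT_lof (n : ℤ) (x : F n) : dT F d (DirectSum.lof A ℤ F n x) =
    DirectSum.lof A ℤ F (n + 1) (d n x) := by
  unfold dT
  rw [DirectSum.toModule_lof]
  rfl

lemma dT_apply (x : ⨁ n, F n) (n : ℤ) : dT F d x (n + 1) = d n (x n) := by
  induction x using DirectSum.induction_on with
  | zero => simp
  | of m y =>
    have e1 : DirectSum.of F m y = DirectSum.lof A ℤ F m y := rfl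
    rw [e1, dT_lof]
    by_cases h : m = n
    · subst h
      rw [DirectSum.lof_apply, DirectSum.lof_apply]
    · have hne : ∀ (k l : ℤ) (z : F k), k ≠ l → (DirectSum.lof A ℤ F k z) l = 0 :=
        fun k l z hkl => DirectSum.of_eq_of_ne k l z (by omega)
      rw [hne _ _ _ (by omega), hne _ _ _ (by omega), map_zero]
  | add x y hx hy =>
    rw [map_add, DirectSum.add_apply, DirectSum.add_apply, map_add, hx, hy]

lemma mem_ker_dT {x : ⨁ n, F n} : x ∈ LinearMap.ker (dT F d) ↔ ∀ n, x n ∈ LinearMap.ker (d n) := by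
  constructor
  · intro h n
    rw [LinearMap.mem_ker] at h ⊢
    rw [← dT_apply, h]
    rfl
  · intro h
    rw [LinearMap.mem_ker]
    ext k
    obtain ⟨n, rfl⟩ : ∃ n, k = n + 1 := ⟨k - 1, by omega⟩
    rw [dT_apply]
    exact h n

lemma range_dT (hex : ∀ n, LinearMap.range (d n) = LinearMap.ker (d (n + 1))) :
    LinearMap.range (dT F d) = LinearMap.ker (dT F d) := by
  classical
  apply le_antisymm
  · rintro _ ⟨x, rfl⟩
    rw [mem_ker_dT]
    intro k
    obtain ⟨n, rfl⟩ : ∃ n, k = n + 1 := ⟨k - 1, by omega⟩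
    rw [dT_apply, ← hex]
    exact ⟨_, rfl⟩
  · intro x hx
    rw [mem_ker_dT] at hx
    rw [← DirectSum.sum_support_of x]
    refine Submodule.sum_mem _ fun k _ => ?_
    have hk := hx k
    obtain ⟨n, rfl⟩ : ∃ n, k = n + 1 := ⟨k - 1, by omega⟩
    rw [← hex] at hk
    obtain ⟨y, hy⟩ := hk
    refine ⟨DirectSum.lof A ℤ F n y, ?_⟩
    rw [dT_lof, hy]
    rfl

lemma flat_ker_dT (hZ : ∀ n, Flat A (LinearMap.ker (d n))) : Flat A (LinearMap.ker (dT F d)) := by
  classical
  apply flat_of_fintype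
  intro n a x hx
  -- componentwise relations
  have h0 : ∀ k : ℤ, ∑ i, a i • (⟨(x i : ⨁ n, F n) k, (mem_ker_dT F d).1 (x i).2 k⟩ :
      LinearMap.ker (d k)) = 0 := by
    intro k
    apply Subtype.ext
    have h1 := congrArg (fun z : LinearMap.ker (dT F d) => (z : ⨁ n, F n) k) hx
    simp only [Submodule.coe_sum, Submodule.coe_smul, Submodule.coe_zero] at h1 ⊢
    rw [DFinsupp.finsetSum_apply] at h1
    exact h1
  choose m y b h1 h2 using fun k : ℤ => hZ k n a _ (h0 k)
  let s : Finset ℤ := Finset.univ.biUnion fun i => (x i : ⨁ n, F n).support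
  have hs : ∀ i, (x i : ⨁ n, F n).support ⊆ s := fun i =>
    Finset.subset_biUnion_of_mem (fun i => (x i : ⨁ n, F n).support) (Finset.mem_univ i)
  have hmem : ∀ k (z : LinearMap.ker (d k)), DirectSum.lof A ℤ F k z ∈
      LinearMap.ker (dT F d) := by
    intro k z
    rw [LinearMap.mem_ker, dT_lof, LinearMap.mem_ker.1 z.2, map_zero]
  refine ⟨Σ k : s, Fin (m k), inferInstance,
    fun p => ⟨DirectSum.lof A ℤ F p.1 (y p.1 p.2), hmem _ _⟩,
    fun i p => b p.1 i p.2, ?_, fun p => h2 _ _⟩
  intro i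
  apply Subtype.ext
  rw [Submodule.coe_sum]
  simp only [Submodule.coe_smul]
  rw [Fintype.sum_sigma]
  have e1 : ∀ k : ℤ, ∑ j, b k i j • DirectSum.lof A ℤ F k (y k j : F k) =
      DirectSum.lof A ℤ F k ((x i : ⨁ n, F n) k) := by
    intro k
    have := congrArg (fun z : LinearMap.ker (d k) => (z : F k)) (h1 k i)
    simp only [Submodule.coe_sum, Submodule.coe_smul] at this
    rw [this, map_sum]
    simp only [map_smul]
  dsimp only
  rw [Finset.sum_congr rfl fun (k : s) _ => e1 k]
  rw [Finset.sum_coe_sort s (fun k => DirectSum.lof A ℤ F k ((x i : ⨁ n, F n) k))]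
  conv_lhs => rw [← DirectSum.sum_support_of (x i : ⨁ n, F n)]
  refine Finset.sum_subset (hs i) fun k _ hk => ?_
  rw [DFinsupp.notMem_support_iff.1 hk]
  exact map_zero _

/-- the main theorem -/
theorem flaprojective_periodicity
    (hex : ∀ n, LinearMap.range (d n) = LinearMap.ker (d (n + 1)))
    (hF : ∀ n, Flapro φ (F n)) (hZ : ∀ n, Flat A (LinearMap.ker (d n))) :
    ∀ n, Flapro φ (LinearMap.ker (d n)) := by
  classical
  have hT : Flapro φ (⨁ n, F n) := by
    intro C _ _ _ hC hCc
    exact ExtZero.directSum fun n => hF n C hC hCc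
  have hK := periodic (range_dT F d hex) hT (flat_ker_dT F d hZ)
  intro n C _ _ _ hC hCc
  let ι : LinearMap.ker (d n) →ₗ[A] LinearMap.ker (dT F d) :=
    (DirectSum.lof A ℤ F n ∘ₗ (LinearMap.ker (d n)).subtype).codRestrict _ (by
      intro z
      rw [LinearMap.mem_ker, LinearMap.comp_apply, dT_lof]
      show DirectSum.lof A ℤ F (n + 1) (d n z) = 0
      rw [LinearMap.mem_ker.1 z.2, map_zero])
  let π : LinearMap.ker (dT F d) →ₗ[A] LinearMap.ker (d n) :=
    (DirectSum.component A ℤ F n ∘ₗ (LinearMap.ker (dT F d)).subtype).codRestrict _ (by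
      intro z
      exact (mem_ker_dT F d).1 z.2 n)
  refine (hK C hC hCc).retract ι π ?_
  ext z
  show DirectSum.component A ℤ F n (DirectSum.lof A ℤ F n (z : F n)) = z
  exact DirectSum.component.lof_self A n _

end complex

end Pool.Agent.V1166.FP
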