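import Mathlib

namespace Pool.Agent.V1166.FP

universe u v w

open Cardinal

/-- objects built from finitely many elements of `U` -/
class Fsup (U : Type u) (X : Type v) where
  sp : X → Set U
  fin : ∀ x, (sp x).Finite
  cnt : ∀ s : Set U, s.Countable → {x | sp x ⊆ s}.Countable

open Fsup

/-- a property of subsets of `U` which holds for all subsets closed under countably many finitary
operations -/
def Good (U : Type u) (P : Set U → Prop) : Prop :=
  ∃ cl : Set U → Set U, (∀ s, s.Finite → (cl s).Countable) ∧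
    ∀ N, (∀ s, s ⊆ N → s.Finite → cl s ⊆ N) → P N

lemma Good.and {U : Type u} {P Q : Set U → Prop} (hP : Good U P) (hQ : Good U Q) :
    Good U (fun N => P N ∧ Q N) := by
  obtain ⟨c1, h1, h2⟩ := hP
  obtain ⟨c2, h3, h4⟩ := hQ
  refine ⟨fun s => c1 s ∪ c2 s, fun s hs => (h1 s hs).union (h3 s hs), fun N hN => ⟨?_, ?_⟩⟩
  · exact h2 N fun s hs hf => Set.subset_union_left.trans (hN s hs hf)
  · exact h4 N fun s hs hf => Set.subset_union_right.trans (hN s hs hf)

lemma Good.mono {U : Type u} {P Q : Set U → Prop} (hP : Good U P) (h : ∀ N, P N → Q N) :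
    Good U Q := by
  obtain ⟨c1, h1, h2⟩ := hP
  exact ⟨c1, h1, fun N hN => h N (h2 N hN)⟩

lemma good_of_exists {U : Type u} {X : Type v} {Y : Type w} [Fsup U X] [Fsup U Y]
    (Q : X → Y → Prop) (h : ∀ x, ∃ y, Q x y) :
    Good U (fun N => ∀ x : X, sp x ⊆ N → ∃ y : Y, sp y ⊆ N ∧ Q x y) := by
  choose y hy using h
  refine ⟨fun s => ⋃ x ∈ {x : X | sp x ⊆ s}, sp (U := U) (y x), ?_, ?_⟩
  · intro s hs
    exact (cnt s hs.countable).biUnion fun x _ => (Fsup.fin (U := U) (y x)).countable
  · intro N hN x hx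
    refine ⟨y x, ?_, hy x⟩
    refine Set.Subset.trans ?_ (hN (sp x) hx (Fsup.fin x))
    exact Set.subset_biUnion_of_mem (u := fun x => sp (U := U) (y x)) (show x ∈ {x' : X | sp x' ⊆ sp (U := U) x} from Set.Subset.rfl)

section inst

variable {U : Type u}

@[reducible] def Fsup.ofInj {X : Type v} (f : X → U) (hf : Function.Injective f) : Fsup U X where
  sp x := {f x}
  fin x := Set.finite_singleton _
  cnt s hs := by
    have : {x | {f x} ⊆ s} = f ⁻¹' s := by ext x; simp
    rw [this]
    exact hs.preimage hf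

@[reducible] def Fsup.ofCountable {X : Type v} [Countable X] : Fsup U X where
  sp _ := ∅
  fin _ := Set.finite_empty
  cnt _ _ := Set.to_countable _

instance Fsup.prod {X : Type v} {Y : Type w} [Fsup U X] [Fsup U Y] : Fsup U (X × Y) where
  sp x := sp x.1 ∪ sp x.2
  fin x := (Fsup.fin x.1).union (Fsup.fin x.2)
  cnt s hs := by
    refine ((cnt (X := X) s hs).prod (cnt (X := Y) s hs)).mono ?_
    intro x hx
    exact ⟨Set.subset_union_left.trans hx, Set.subset_union_right.trans hx⟩

instance Fsup.finsupp {X : Type v} {Y : Type w} [Zero Y] [Fsup U X] [Fsup U Y] :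
    Fsup U (X →₀ Y) where
  sp f := ⋃ x ∈ f.support, (sp x ∪ sp (f x))
  fin f := by
    apply Set.Finite.biUnion (Finset.finite_toSet _)
    intro x _
    exact (Fsup.fin x).union (Fsup.fin (f x))
  cnt s hs := by
    have hC := (cnt (X := X) s hs).prod (cnt (X := Y) s hs)
    have h1 := Set.countable_ofPred_finite_subset hC
    refine Set.MapsTo.countable_of_injOn (f := fun f : X →₀ Y => (f.graph : Set (X × Y))) ?_ ?_ h1
    · intro f hf
      refine ⟨Finset.finite_toSet _, ?_⟩
      rintro ⟨x, y⟩ hxy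
      rw [Finset.mem_coe, Finsupp.mem_graph_iff] at hxy
      obtain ⟨h2, h3⟩ := hxy
      have h4 : x ∈ f.support := by rw [Finsupp.mem_support_iff, h2]; exact h3
      have h5 : sp x ∪ sp (f x) ⊆ s := by
        refine Set.Subset.trans ?_ hf
        exact Set.subset_biUnion_of_mem (u := fun x => sp (U := U) x ∪ sp (f x)) h4
      rw [h2] at h5
      exact ⟨Set.subset_union_left.trans h5, Set.subset_union_right.trans h5⟩
    · intro f _ g _ hfg
      apply Finsupp.graph_injective X Y
      exact Finset.coe_injective hfg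

lemma sp_prod {X : Type v} {Y : Type w} [Fsup U X] [Fsup U Y] (x : X) (y : Y) {N : Set U} :
    sp (x, y) ⊆ N ↔ sp x ⊆ N ∧ sp y ⊆ N := Set.union_subset_iff

lemma sp_finsupp {X : Type v} {Y : Type w} [Zero Y] [Fsup U X] [Fsup U Y] (f : X →₀ Y)
    {N : Set U} : sp f ⊆ N ↔ ∀ x ∈ f.support, sp x ⊆ N ∧ sp (f x) ⊆ N := by
  show (⋃ x ∈ f.support, (sp x ∪ sp (f x))) ⊆ N ↔ _
  rw [Set.iUnion₂_subset_iff]
  simp only [Set.union_subset_iff]

end inst

section hull

variable {U : Type u} (cl : Set U → Set U)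

/-- closed sets -/
def Cl (N : Set U) : Prop := ∀ s, s ⊆ N → s.Finite → cl s ⊆ N

/-- the hull of a set -/
def hull (T : Set U) : Set U := ⋂₀ {N | T ⊆ N ∧ Cl cl N}

lemma subset_hull (T : Set U) : T ⊆ hull cl T := Set.subset_sInter fun _ h => h.1

lemma hull_subset {T N : Set U} (h : T ⊆ N) (hN : Cl cl N) : hull cl T ⊆ N :=
  Set.sInter_subset_of_mem ⟨h, hN⟩

lemma hull_closed (T : Set U) : Cl cl (hull cl T) := by
  intro s hs hf
  apply Set.subset_sInter
  intro N hN
  exact hN.2 s (hs.trans (Set.sInter_subset_of_mem hN)) hf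

lemma hull_mono {T T' : Set U} (h : T ⊆ T') : hull cl T ⊆ hull cl T' :=
  hull_subset cl (h.trans (subset_hull cl T')) (hull_closed cl T')

lemma closed_univ : Cl cl (Set.univ : Set U) := fun _ _ _ => Set.subset_univ _

/-- directed unions of closed sets are closed -/
lemma closed_iUnion {W : Type v} [LinearOrder W] {I : Set W} (hI : I.Nonempty) (N : W → Set U)
    (hm : Monotone N) (hN : ∀ w ∈ I, Cl cl (N w)) : Cl cl (⋃ w ∈ I, N w) := by
  intro s hs hf
  have : ∃ w ∈ I, s ⊆ N w := by
    revert hs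
    refine Set.Finite.induction_on s hf ?_ ?_
    · intro _
      obtain ⟨w, hw⟩ := hI
      exact ⟨w, hw, Set.empty_subset _⟩
    · intro a s _ _ ih hs
      obtain ⟨w, hw, h1⟩ := ih ((Set.subset_insert _ _).trans hs)
      have h2 := hs (Set.mem_insert a s)
      rw [Set.mem_iUnion₂] at h2
      obtain ⟨w', hw', h3⟩ := h2
      rcases le_total w w' with h | h
      · exact ⟨w', hw', Set.insert_subset h3 (h1.trans (hm h))⟩
      · exact ⟨w, hw, Set.insert_subset (hm h h3) h1⟩
  obtain ⟨w, hw, h1⟩ := this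
  exact (hN w hw s h1 hf).trans (Set.subset_biUnion_of_mem (u := N) hw)

lemma mk_finset_le (X : Type u) : #(Finset X) ≤ max #X ℵ₀ := by
  cases finite_or_infinite X
  · exact (Cardinal.lt_aleph0_of_finite _).le.trans (le_max_right _ _)
  · rw [Cardinal.mk_finset_of_infinite]
    exact le_max_left _ _

theorem mk_hull (hcl : ∀ s, s.Finite → (cl s).Countable) (T : Set U) :
    #(hull cl T) ≤ max #T ℵ₀ := by
  set μ := max #T ℵ₀ with hμ
  have hμ0 : ℵ₀ ≤ μ := le_max_right _ _
  obtain ⟨seq, hseq0, hseq⟩ : ∃ seq : ℕ → Set U, seq 0 = T ∧ ∀ n, seq (n + 1) = seq n ∪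
      ⋃ t : Finset (seq n), cl ((fun x : seq n => (x : U)) '' (t : Set (seq n))) :=
    ⟨fun n => Nat.rec T
      (fun _ N => N ∪ ⋃ t : Finset N, cl ((fun x : N => (x : U)) '' (t : Set N))) n,
      rfl, fun n => rfl⟩
  have hcard : ∀ n, #(seq n) ≤ μ := by
    intro n
    induction n with
    | zero => rw [hseq0]; exact le_max_left _ _
    | succ n ih =>
      rw [hseq]
      refine (Cardinal.mk_union_le _ _).trans ?_
      refine (add_le_add ih ?_).trans (Cardinal.add_eq_self hμ0).le
      refine (Cardinal.mk_iUnion_le _).trans ?_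
      have h1 : #(Finset (seq n)) ≤ μ := (mk_finset_le _).trans (max_le ih hμ0)
      have h2 : (⨆ t : Finset (seq n), #(cl ((fun x : seq n => (x : U)) '' (t : Set (seq n))))) ≤
          ℵ₀ := by
        apply ciSup_le'
        intro t
        have := hcl ((fun x : seq n => (x : U)) '' (t : Set (seq n)))
          ((Finset.finite_toSet t).image _)
        exact (Cardinal.le_aleph0_iff_set_countable).2 this
      exact (mul_le_mul' h1 (h2.trans hμ0)).trans (Cardinal.mul_eq_self hμ0).le
  have hmono : Monotone seq := monotone_nat_of_le_succ fun n => by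
    rw [hseq]; exact Set.subset_union_left
  have hclosed : Cl cl (⋃ n, seq n) := by
    intro s hs hf
    have : ∃ n, s ⊆ seq n := by
      revert hs
      refine Set.Finite.induction_on s hf ?_ ?_
      · intro _
        exact ⟨0, Set.empty_subset _⟩
      · intro a s _ _ ih hs
        obtain ⟨n, h1⟩ := ih ((Set.subset_insert _ _).trans hs)
        have h2 := hs (Set.mem_insert a s)
        rw [Set.mem_iUnion] at h2
        obtain ⟨n', h3⟩ := h2
        exact ⟨max n n', Set.insert_subset (hmono (le_max_right _ _) h3)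
          (h1.trans (hmono (le_max_left _ _)))⟩
    obtain ⟨n, hn⟩ := this
    refine Set.Subset.trans ?_ (Set.subset_iUnion seq (n + 1))
    rw [hseq]
    refine Set.Subset.trans ?_ Set.subset_union_right
    classical
    let t : Finset (seq n) := (hf.preimage (f := fun x : seq n => (x : U))
      Subtype.val_injective.injOn).toFinset
    have ht : (fun x : seq n => (x : U)) '' (t : Set (seq n)) = s := by
      ext x
      simp only [t, Set.Finite.coe_toFinset, Set.mem_image, Set.mem_preimage]
      constructor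
      · rintro ⟨y, hy, rfl⟩; exact hy
      · intro hx; exact ⟨⟨x, hn hx⟩, hx, rfl⟩
    have := Set.subset_iUnion
      (fun t : Finset (seq n) => cl ((fun x : seq n => (x : U)) '' (t : Set (seq n)))) t
    rw [ht] at this
    exact this
  have hsub : hull cl T ⊆ ⋃ n, seq n := hull_subset cl
    (by rw [← hseq0]; exact Set.subset_iUnion seq 0) hclosed
  refine (Cardinal.mk_le_mk_of_subset hsub).trans ?_
  have h3 : #(⋃ n, seq n) ≤ #(ULift.{u} ℕ) * ⨆ n : ULift.{u} ℕ, #(seq n.down) := by
    have : (⋃ n, seq n) = ⋃ n : ULift.{u} ℕ, seq n.down := by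
      ext x; simp
    rw [this]
    exact Cardinal.mk_iUnion_le _
  refine h3.trans ?_
  have h4 : (⨆ n : ULift.{u} ℕ, #(seq n.down)) ≤ μ := ciSup_le' fun n => hcard n.down
  have h5 : #(ULift.{u} ℕ) ≤ μ := by simpa using hμ0
  exact (mul_le_mul' h5 h4).trans (Cardinal.mul_eq_self hμ0).le

end hull

end Pool.Agent.V1166.FP
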