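import Pool.Agent.V1166.FP.Nice

namespace Pool.Agent.V1166.FP

universe u v w

open Finsupp (linearCombination single)
open Fsup

section glue2

variable {A : Type u} [Ring A] {P : Type v} [AddCommGroup P] [Module A P]
  {I : Type w} [AddCommGroup I] [Module A I] {S : Subring A} {D : Set P}

lemma glue' (hD : Clo S D) {h : P → I} (hh : LinOn S D h) {B : Type*} (y : B → P) (M : B → I)
    {V : Set (B →₀ A)} (hV : Clo S V)
    (hc : ∀ a ∈ V, linearCombination A y a ∈ D → h (linearCombination A y a) =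
      linearCombination A M a) (D' : Set P)
    (hdec : ∀ x ∈ D', ∃ x₁ ∈ D, ∃ a ∈ V, x = x₁ + linearCombination A y a) :
    ∃ h' : P → I, LinOn S D' h' ∧ ∀ x ∈ D, ∀ a ∈ V, h' (x + linearCombination A y a) =
      h x + linearCombination A M a := by
  obtain ⟨h', hh'⟩ := glue hD hh y M hV hc
  refine ⟨h', ⟨?_, ?_⟩, hh'⟩
  · intro x hx z hz
    obtain ⟨x₁, hx₁, a, ha, rfl⟩ := hdec x hx
    obtain ⟨z₁, hz₁, b, hb, rfl⟩ := hdec z hz
    have e1 : x₁ + linearCombination A y a + (z₁ + linearCombination A y b) =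
        (x₁ + z₁) + linearCombination A y (a + b) := by rw [map_add]; abel
    rw [e1, hh' _ (hD.add _ hx₁ _ hz₁) _ (hV.add _ ha _ hb), hh' _ hx₁ _ ha, hh' _ hz₁ _ hb,
      hh.1 _ hx₁ _ hz₁, map_add]
    abel
  · intro s hs x hx
    obtain ⟨x₁, hx₁, a, ha, rfl⟩ := hdec x hx
    have e1 : s • (x₁ + linearCombination A y a) =
        s • x₁ + linearCombination A y (s • a) := by rw [map_smul, smul_add]
    rw [e1, hh' _ (hD.smul _ hs _ hx₁) _ (hV.smul _ hs _ ha), hh' _ hx₁ _ ha,
      hh.2 _ hs _ hx₁, map_smul, smul_add]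

end glue2

section lift

variable {R A : Type u} [Ring R] [Ring A] {φ : R →+* A} {F E : Type u} [AddCommGroup F]
  [Module A F] [AddCommGroup E] [Module A E] {d : F →ₗ[A] F} {i : F →ₗ[A] E} {r : E →ₗ[A] F}
  {W : Filt φ E} {N : Set (UU A R F E W.B)}

/-- the subring of `A` cut out by `N` -/
def Nice.NA (hN : Nice d i r W N) : Subring A where
  carrier := {a | iA a ∈ N}
  mul_mem' ha hb := hN.Amul _ _ ha hb
  one_mem' := hN.A1
  add_mem' ha hb := hN.Aadd _ _ ha hb
  zero_mem' := by
    have := hN.Aadd _ _ hN.A1 (hN.Aneg _ hN.A1)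
    rwa [add_neg_cancel] at this
  neg_mem' ha := hN.Aneg _ ha

/-- the subring of `R` cut out by `N` -/
def Nice.NR (hN : Nice d i r W N) : Subring R where
  carrier := {a | iR a ∈ N}
  mul_mem' ha hb := hN.Rmul _ _ ha hb
  one_mem' := hN.R1
  add_mem' ha hb := hN.Radd _ _ ha hb
  zero_mem' := by
    have := hN.Radd _ _ hN.R1 (hN.Rneg _ hN.R1)
    rwa [add_neg_cancel] at this
  neg_mem' ha := hN.Rneg _ ha

lemma Nice.mem_NA (hN : Nice d i r W N) {a : A} : a ∈ hN.NA ↔ iA a ∈ N := Iff.rfl
lemma Nice.mem_NR (hN : Nice d i r W N) {a : R} : a ∈ hN.NR ↔ iR a ∈ N := Iff.rfl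

lemma Nice.A0 (hN : Nice d i r W N) : iA 0 ∈ N := hN.NA.zero_mem

lemma Nice.E0 (hN : Nice d i r W N) : iE 0 ∈ N := by
  have := hN.Fi _ hN.F0
  rwa [map_zero] at this

lemma Nice.cloE (hN : Nice d i r W N) : Clo hN.NA {x : E | iE x ∈ N} where
  zero := hN.E0
  add _ hx _ hy := hN.Eadd _ _ hx hy
  smul _ ha _ hx := hN.Esmul _ _ ha hx

lemma Nice.cloF (hN : Nice d i r W N) : Clo hN.NA {x : F | iF x ∈ N} where
  zero := hN.F0
  add _ hx _ hy := hN.Fadd _ _ hx hy
  smul _ ha _ hx := hN.Fsmul _ _ ha hx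

/-- coefficients of vectors in `N` -/
lemma Nice.coefA (hN : Nice d i r W N) {X : Type*} [Fsup (UU A R F E W.B) X] {x : X →₀ A}
    (hx : sp x ⊆ N) (b : X) : x b ∈ hN.NA := by
  by_cases hb : b ∈ x.support
  · exact (spA _).1 (sp_val hx hb)
  · rw [Finsupp.notMem_support_iff.1 hb]
    exact zero_mem _

lemma Nice.coefR (hN : Nice d i r W N) {X : Type*} [Fsup (UU A R F E W.B) X] {x : X →₀ R}
    (hx : sp x ⊆ N) (b : X) : x b ∈ hN.NR := by
  by_cases hb : b ∈ x.support
  · exact (spR _).1 (sp_val hx hb)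
  · rw [Finsupp.notMem_support_iff.1 hb]
    exact zero_mem _

lemma Nice.sp_add (hN : Nice d i r W N) {X : Type*} [Fsup (UU A R F E W.B) X] {x y : X →₀ A}
    (hx : sp x ⊆ N) (hy : sp y ⊆ N) : sp (x + y) ⊆ N := by
  classical
  rw [sp_finsupp]
  intro b hb
  constructor
  · rcases Finset.mem_union.1 (Finsupp.support_add hb) with h | h
    · exact ((sp_finsupp x).1 hx b h).1
    · exact ((sp_finsupp y).1 hy b h).1
  · rw [Finsupp.add_apply, spA]
    exact hN.NA.add_mem (hN.coefA hx b) (hN.coefA hy b)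

lemma Nice.sp_smul (hN : Nice d i r W N) {X : Type*} [Fsup (UU A R F E W.B) X] {x : X →₀ A}
    {a : A} (ha : a ∈ hN.NA) (hx : sp x ⊆ N) : sp (a • x) ⊆ N := by
  classical
  rw [sp_finsupp]
  intro b hb
  constructor
  · exact ((sp_finsupp x).1 hx b (Finsupp.support_smul hb)).1
  · rw [Finsupp.smul_apply, spA]
    exact hN.NA.mul_mem ha (hN.coefA hx b)

lemma Nice.sp_addR (hN : Nice d i r W N) {X : Type*} [Fsup (UU A R F E W.B) X] {x y : X →₀ R}
    (hx : sp x ⊆ N) (hy : sp y ⊆ N) : sp (x + y) ⊆ N := by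
  classical
  rw [sp_finsupp]
  intro b hb
  constructor
  · rcases Finset.mem_union.1 (Finsupp.support_add hb) with h | h
    · exact ((sp_finsupp x).1 hx b h).1
    · exact ((sp_finsupp y).1 hy b h).1
  · rw [Finsupp.add_apply, spR]
    exact hN.NR.add_mem (hN.coefR hx b) (hN.coefR hy b)

lemma Nice.sp_smulR (hN : Nice d i r W N) {X : Type*} [Fsup (UU A R F E W.B) X] {x : X →₀ R}
    {a : R} (ha : a ∈ hN.NR) (hx : sp x ⊆ N) : sp (a • x) ⊆ N := by
  classical
  rw [sp_finsupp]
  intro b hb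
  constructor
  · exact ((sp_finsupp x).1 hx b (Finsupp.support_smul hb)).1
  · rw [Finsupp.smul_apply, spR]
    exact hN.NR.mul_mem ha (hN.coefR hx b)

lemma Nice.sp_bc (hN : Nice d i r W N) {X : Type*} [Fsup (UU A R F E W.B) X] {x : X →₀ R}
    (hx : sp x ⊆ N) : sp (bc φ x) ⊆ N := by
  rw [sp_finsupp]
  intro b hb
  have hb' : b ∈ x.support := by
    rw [Finsupp.mem_support_iff] at hb ⊢
    intro h0
    rw [bc_apply, h0, map_zero] at hb
    exact hb rfl
  refine ⟨((sp_finsupp x).1 hx b hb').1, ?_⟩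
  rw [bc_apply, spA]
  exact hN.RA _ (hN.coefR hx b)

lemma supp_bc {X : Type*} {x : X →₀ R} {b : X} (hb : b ∈ (bc φ x).support) : b ∈ x.support := by
  rw [Finsupp.mem_support_iff] at hb ⊢
  intro h0
  rw [bc_apply, h0, map_zero] at hb
  exact hb rfl

/-- the part of level at most `j` -/
def DE (W : Filt φ E) (N : Set (UU A R F E W.B)) (j : W.J) : Set E :=
  {x | iE x ∈ N ∧ ∃ y : W.B →₀ A, (∀ b ∈ y.support, W.lin.le (W.lev b) j) ∧
    linearCombination A W.e y = x}

lemma Nice.cloD (hN : Nice d i r W N) (j : W.J) : Clo hN.NA (DE W N j) where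
  zero := ⟨hN.E0, 0, fun b hb => absurd hb (by simp), map_zero _⟩
  add := by
    classical
    rintro x ⟨hx, y, hy, rfl⟩ x' ⟨hx', y', hy', rfl⟩
    refine ⟨hN.Eadd _ _ hx hx', y + y', fun b hb => ?_, map_add _ _ _⟩
    rcases Finset.mem_union.1 (Finsupp.support_add hb) with h | h
    · exact hy b h
    · exact hy' b h
  smul := by
    rintro a ha x ⟨hx, y, hy, rfl⟩
    exact ⟨hN.Esmul _ _ ha hx, a • y, fun b hb => hy b (Finsupp.support_smul hb), map_smul _ _ _⟩

lemma Nice.eb (hN : Nice d i r W N) {y : W.B →₀ A} (hy : sp y ⊆ N) {b : W.B}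
    (hb : b ∈ y.support) : iE (W.e b) ∈ N :=
  hN.Be _ ((spB b).1 (((sp_finsupp y).1 hy b hb).1))

lemma Nice.lcE (hN : Nice d i r W N) {y : W.B →₀ A} (hy : sp y ⊆ N) :
    iE (linearCombination A W.e y) ∈ N :=
  hN.cloE.lc (fun b => hN.coefA hy b) fun b hb => hN.eb hy hb

/-- elements of level below `j` -/
lemma mem_below {j : W.J} {x : E} (hx : iE x ∈ N) (y : W.B →₀ A)
    (hy : ∀ b ∈ y.support, W.lin.lt (W.lev b) j) (hyx : linearCombination A W.e y = x) :
    x = 0 ∨ ∃ v, W.lin.lt v j ∧ x ∈ DE W N v := by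
  classical
  let _ := W.lin
  by_cases hne : y.support.Nonempty
  · right
    let v : W.J := y.support.sup' hne W.lev
    refine ⟨v, ?_, hx, y, fun b hb => Finset.le_sup' W.lev hb, hyx⟩
    exact (Finset.sup'_lt_iff hne).2 hy
  · left
    rw [Finset.not_nonempty_iff_eq_empty, Finsupp.support_eq_empty] at hne
    rw [← hyx, hne, map_zero]

/-- lifting of maps from the filtered module -/
theorem Nice.lift (hN : Nice d i r W N) {C I C' : Type u} [AddCommGroup C] [Module A C]
    [AddCommGroup I] [Module A I] [AddCommGroup C'] [Module A C'] (hC : CotV φ C)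
    (j : C →ₗ[A] I) (q : I →ₗ[A] C') (hj : Function.Injective j) (hq : Function.Surjective q)
    (hjq : LinearMap.range j = LinearMap.ker q) (g : E → C')
    (hg : LinOn hN.NA {x : E | iE x ∈ N} g) :
    ∃ h : E → I, LinOn hN.NA {x : E | iE x ∈ N} h ∧ ∀ x, iE x ∈ N → q (h x) = g x := by
  classical
  let _ := W.lin
  have := W.wf
  have hg0 : g 0 = 0 := hg.zero hN.cloE
  rcases isEmpty_or_nonempty W.J with hJ | hJ
  · have hz : ∀ x : E, x = 0 := by
      intro x
      obtain ⟨y, hy⟩ := W.gen x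
      have : y = 0 := by
        ext b
        exact (hJ.false (W.lev b)).elim
      rw [← hy, this, map_zero]
    refine ⟨fun _ => 0, ⟨fun _ _ _ _ => by simp, fun _ _ _ _ => by simp⟩, fun x _ => ?_⟩
    rw [hz x, map_zero, hg0]
  have hmono : Monotone (DE W N) := by
    rintro j₁ j₂ h12 x ⟨hx, y, hy, hyx⟩
    exact ⟨hx, y, fun b hb => le_trans (hy b hb) h12, hyx⟩
  choose m hm using fun b => hq (g (W.e b))
  obtain ⟨h, hh, hh'⟩ := ext_rec (P := E) (I := I) (S := hN.NA) (fun x y => q y = g x)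
    (DE W N) hN.cloD hmono (by rw [map_zero, hg0]) (by
      intro w h hh
      -- the set below w
      set D₀ : Set E := {x | x = 0 ∨ ∃ v < w, x ∈ DE W N v} with hD₀
      have hD₀c : Clo hN.NA D₀ := by
        refine ⟨Or.inl rfl, ?_, ?_⟩
        · rintro x (rfl | ⟨v, hv, hx⟩) y (rfl | ⟨v', hv', hy⟩)
          · left; rw [add_zero]
          · right; rw [zero_add]; exact ⟨v', hv', hy⟩
          · right; rw [add_zero]; exact ⟨v, hv, hx⟩
          · right
            exact ⟨max v v', max_lt hv hv', (hN.cloD _).add _ (hmono (le_max_left _ _) hx) _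
              (hmono (le_max_right _ _) hy)⟩
        · rintro a ha x (rfl | ⟨v, hv, hx⟩)
          · left; rw [smul_zero]
          · right; exact ⟨v, hv, (hN.cloD _).smul _ ha _ hx⟩
      have hD₀E : ∀ x ∈ D₀, iE x ∈ N := by
        rintro x (rfl | ⟨v, hv, hx⟩)
        · exact hN.E0
        · exact hx.1
      have hmemD : ∀ x, iE x ∈ N → ∀ y : W.B →₀ A, (∀ b ∈ y.support, W.lev b < w) →
          linearCombination A W.e y = x → x ∈ D₀ := fun x hx y hy hyx => mem_below hx y hy hyx
      have hlt : ∀ x ∈ D₀, ∃ y : W.B →₀ A, (∀ b ∈ y.support, W.lev b < w) ∧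
          linearCombination A W.e y = x := by
        rintro x (rfl | ⟨v, hv, hx, y, hy, hyx⟩)
        · exact ⟨0, fun b hb => absurd hb (by simp), map_zero _⟩
        · exact ⟨y, fun b hb => lt_of_le_of_lt (hy b hb) hv, hyx⟩
      -- relations
      let KK : Set (W.B →₀ R) := {k | k ∈ W.K w ∧ sp k ⊆ N}
      have hKKs : SubLike hN.NR KK := by
        refine ⟨⟨(W.K w).zero_mem, sp_zero_finsupp⟩, ?_, ?_, ?_⟩
        · rintro x ⟨hx, hx'⟩ y ⟨hy, hy'⟩
          exact ⟨(W.K w).add_mem hx hy, hN.sp_addR hx' hy'⟩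
        · rintro a ha x ⟨hx, hx'⟩
          exact ⟨(W.K w).smul_mem a hx, hN.sp_smulR ha hx'⟩
        · rintro x ⟨hx, hx'⟩ b
          exact hN.coefR hx' b
      have hKKθ : Theta KK := by
        rintro k ⟨hk, hk'⟩
        exact hN.th w k hk hk'
      have hbcD : ∀ k ∈ KK, linearCombination A W.e (bc φ k) ∈ D₀ := by
        rintro k ⟨hk, hk'⟩
        have h1 : ∀ b ∈ (bc φ k).support, W.lev b = w := fun b hb => W.supp w k hk b (supp_bc hb)
        obtain ⟨x, hx, hx'⟩ := (W.rel w (bc φ k) h1).2 (Submodule.subset_span ⟨k, hk, rfl⟩)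
        exact hmemD _ (hN.lcE (hN.sp_bc hk')) x hx hx'.symm
      have hgl : ∀ y : W.B →₀ A, sp y ⊆ N → g (linearCombination A W.e y) =
          linearCombination A (fun b => g (W.e b)) y := fun y hy =>
        hg.lc hN.cloE (fun b => hN.coefA hy b) fun b hb => hN.eb hy hb
      have hδ : ∀ k, k ∈ KK → ∃ c, j c = h (linearCombination A W.e (bc φ k)) -
          linearCombination A m (bc φ k) := by
        intro k hk
        have : h (linearCombination A W.e (bc φ k)) - linearCombination A m (bc φ k) ∈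
            LinearMap.ker q := by
          rw [LinearMap.mem_ker, map_sub, hh.2 _ (hbcD k hk), hgl _ (hN.sp_bc hk.2),
            Finsupp.apply_linearCombination, sub_eq_zero]
          congr 1
          congr 1
          ext b
          exact (hm b).symm
        rw [← hjq] at this
        exact this
      choose! δ hδ using hδ
      obtain ⟨c, hc⟩ := hC.sub hKKs hKKθ (f := δ) (by
        constructor
        · intro x hx y hy
          apply hj
          rw [map_add, hδ x hx, hδ y hy, hδ _ (hKKs.add _ hx _ hy), bc_add, map_add, map_add,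
            hh.1.1 _ (hbcD x hx) _ (hbcD y hy)]
          abel
        · intro a ha x hx
          apply hj
          rw [map_smul, hδ x hx, hδ _ (hKKs.smul _ ha _ hx), bc_smul, map_smul, map_smul,
            hh.1.2 _ (hN.RA _ ha) _ (hbcD x hx), smul_sub])
      let M : W.B → I := fun b => m b + j (c b)
      have hM : ∀ y : W.B →₀ A, linearCombination A M y = linearCombination A m y +
          j (linearCombination A c y) := by
        intro y
        rw [Finsupp.apply_linearCombination]
        simp only [Finsupp.linearCombination_apply, Finsupp.sum, M, smul_add,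
          Finset.sum_add_distrib, Function.comp_apply]
      have hMk : ∀ k ∈ KK, h (linearCombination A W.e (bc φ k)) =
          linearCombination A M (bc φ k) := by
        intro k hk
        rw [hM, ← hc k hk, hδ k hk]
        abel
      let V : Set (W.B →₀ A) := {a | sp a ⊆ N ∧ ∀ b ∈ a.support, W.lev b = w}
      have hV : Clo hN.NA V := by
        refine ⟨⟨sp_zero_finsupp, fun b hb => absurd hb (by simp)⟩, ?_, ?_⟩
        · rintro x ⟨hx, hx'⟩ y ⟨hy, hy'⟩
          refine ⟨hN.sp_add hx hy, fun b hb => ?_⟩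
          rcases Finset.mem_union.1 (Finsupp.support_add hb) with h | h
          · exact hx' b h
          · exact hy' b h
        · rintro a ha x ⟨hx, hx'⟩
          exact ⟨hN.sp_smul ha hx, fun b hb => hx' b (Finsupp.support_smul hb)⟩
      have hdec : ∀ x ∈ DE W N w, ∃ x₁ ∈ D₀, ∃ a ∈ V, x = x₁ + linearCombination A W.e a := by
        intro x hx
        obtain ⟨y, hy1, hy2, hy3⟩ := hN.rep x hx.1
        have hy4 := hy3 w hx.2
        have hs1 : sp (y.filter fun b => W.lev b < w) ⊆ N := by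
          rw [sp_finsupp]
          intro b hb
          rw [Finsupp.support_filter, Finset.mem_filter] at hb
          rw [Finsupp.filter_apply_pos (fun b => W.lev b < w) y hb.2]
          exact (sp_finsupp y).1 hy1 b hb.1
        have hs2 : sp (y.filter fun b => ¬ W.lev b < w) ⊆ N := by
          rw [sp_finsupp]
          intro b hb
          rw [Finsupp.support_filter, Finset.mem_filter] at hb
          rw [Finsupp.filter_apply_pos (fun b => ¬ W.lev b < w) y hb.2]
          exact (sp_finsupp y).1 hy1 b hb.1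
        refine ⟨linearCombination A W.e (y.filter fun b => W.lev b < w), ?_,
          y.filter fun b => ¬ W.lev b < w, ⟨hs2, ?_⟩, ?_⟩
        · refine hmemD _ (hN.lcE hs1) (y.filter fun b => W.lev b < w) ?_ rfl
          intro b hb
          rw [Finsupp.support_filter, Finset.mem_filter] at hb
          exact hb.2
        · intro b hb
          rw [Finsupp.support_filter, Finset.mem_filter] at hb
          exact le_antisymm (hy4 b hb.1) (not_lt.1 hb.2)
        · rw [← map_add, Finsupp.filter_pos_add_filter_neg, hy2]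
      have hcomp : ∀ a ∈ V, linearCombination A W.e a ∈ D₀ → h (linearCombination A W.e a) =
          linearCombination A M a := by
        rintro a ⟨ha, ha'⟩ haD
        obtain ⟨x, hx, hx'⟩ := hlt _ haD
        obtain ⟨l, hl1, hl2, hl3⟩ := hN.rl w a ha ha' ⟨x, hx, hx'.symm⟩
        have hlK : ∀ k ∈ l.support, k ∈ KK := fun k hk =>
          ⟨hl2 k hk, ((sp_finsupp l).1 hl1 k hk).1⟩
        rw [hl3, Finsupp.sum, map_sum, map_sum, hh.1.sum hD₀c]
        · refine Finset.sum_congr rfl fun k hk => ?_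
          rw [map_smul, map_smul, hh.1.2 _ (hN.coefA hl1 k) _ (hbcD k (hlK k hk)),
            hMk k (hlK k hk)]
        · intro k hk
          rw [map_smul]
          exact hD₀c.smul _ (hN.coefA hl1 k) _ (hbcD k (hlK k hk))
      obtain ⟨h', hh1, hh2⟩ := glue' hD₀c hh.1 W.e M hV hcomp (DE W N w) hdec
      refine ⟨h', ⟨hh1, ?_⟩, ?_⟩
      · intro x hx
        obtain ⟨x₁, hx₁, a, ha, rfl⟩ := hdec x hx
        rw [hh2 _ hx₁ _ ha, map_add, hh.2 _ hx₁, hg.1 _ (hD₀E _ hx₁) _ (hN.lcE ha.1),
          hgl _ ha.1, hM, map_add]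
        have : q (j (linearCombination A c a)) = 0 := by
          rw [← LinearMap.mem_ker, ← hjq]; exact ⟨_, rfl⟩
        rw [this, add_zero, Finsupp.apply_linearCombination]
        congr 2
        congr 1
        ext b
        exact hm b
      · intro v hv x hx
        have := hh2 x (Or.inr ⟨v, hv, hx⟩) 0 hV.zero
        rwa [map_zero, add_zero, map_zero, add_zero] at this)
  have hall : ∀ x, iE x ∈ N → ∃ w, x ∈ DE W N w := by
    intro x hx
    obtain ⟨y, hy⟩ := W.gen x
    by_cases hne : y.support.Nonempty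
    · exact ⟨y.support.sup' hne W.lev, hx, y, fun b hb => Finset.le_sup' W.lev hb, hy⟩
    · rw [Finset.not_nonempty_iff_eq_empty, Finsupp.support_eq_empty] at hne
      exact ⟨Classical.arbitrary _, hx, y, by rw [hne]; simp, hy⟩
  refine ⟨h, ⟨fun x hx y hy => hh.1 _ (hall x hx) _ (hall y hy),
    fun a ha x hx => hh.2 _ ha _ (hall x hx)⟩, fun x hx => hh' _ (hall x hx)⟩

end lift

end Pool.Agent.V1166.FP
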