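import Pool.Agent.V1166.FP.Count

namespace Pool.Agent.V1166.FP

universe u v w

open Finsupp (linearCombination single)
open Fsup
open scoped Cardinal

lemma finite_sub_iUnion {U : Type u} {W : Type v} [LinearOrder W] {I : Set W} (hI : I.Nonempty)
    (N : W → Set U) (hm : Monotone N) (s : Set U) (hs : s ⊆ ⋃ w ∈ I, N w) (hf : s.Finite) :
    ∃ w ∈ I, s ⊆ N w := by
  revert hs
  refine Set.Finite.induction_on s hf ?_ ?_
  · intro _
    obtain ⟨w, hw⟩ := hI
    exact ⟨w, hw, Set.empty_subset _⟩
  · intro a s _ _ ih hs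
    obtain ⟨w, hw, h1⟩ := ih ((Set.subset_insert _ _).trans hs)
    have h2 := hs (Set.mem_insert a s)
    rw [Set.mem_iUnion₂] at h2
    obtain ⟨w', hw', h3⟩ := h2
    rcases le_total w w' with h | h
    · exact ⟨w', hw', Set.insert_subset h3 (h1.trans (hm h))⟩
    · exact ⟨w, hw, Set.insert_subset (hm h h3) h1⟩

lemma LinOn.span_eq {A : Type u} [Ring A] {P : Type v} [AddCommGroup P] [Module A P]
    {I : Type w} [AddCommGroup I] [Module A I] {S : Subring A} {K D : Set P} (hD : Clo S D)
    (hK : K ⊆ D) {f g : P → I} (hf : LinOn S D f) (hg : LinOn S D g) (h : ∀ x ∈ K, f x = g x) :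
    ∀ x ∈ Submodule.span S K, x ∈ D ∧ f x = g x := by
  intro x hx
  induction hx using Submodule.span_induction with
  | mem x hx => exact ⟨hK hx, h x hx⟩
  | zero => exact ⟨hD.zero, by rw [hf.zero hD, hg.zero hD]⟩
  | add x y _ _ hx hy =>
    exact ⟨hD.add _ hx.1 _ hy.1, by rw [hf.1 _ hx.1 _ hy.1, hg.1 _ hx.1 _ hy.1, hx.2, hy.2]⟩
  | smul a x _ hx =>
    refine ⟨hD.smul a a.2 _ hx.1, ?_⟩
    have e1 : a • x = (a : A) • x := rfl
    rw [e1, hf.2 _ a.2 _ hx.1, hg.2 _ a.2 _ hx.1, hx.2]

lemma LinOn.mono {A : Type u} [Ring A] {P : Type v} [AddCommGroup P] [Module A P]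
    {I : Type w} [AddCommGroup I] [Module A I] {S S' : Subring A} {D D' : Set P} {f : P → I}
    (hf : LinOn S D f) (hS : S' ≤ S) (hD : D' ⊆ D) : LinOn S' D' f :=
  ⟨fun x hx y hy => hf.1 x (hD hx) y (hD hy), fun a ha x hx => hf.2 a (hS ha) x (hD hx)⟩

lemma LinOn.of_linear {A : Type u} [Ring A] {P : Type v} [AddCommGroup P] [Module A P]
    {I : Type w} [AddCommGroup I] [Module A I] {S : Subring A} {D : Set P} (f : P →ₗ[A] I) :
    LinOn S D f := ⟨fun x _ y _ => map_add f x y, fun a _ x _ => map_smul f a x⟩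

section main

variable {R A : Type u} [Ring R] [Ring A] {φ : R →+* A} {F E : Type u} [AddCommGroup F]
  [Module A F] [AddCommGroup E] [Module A E] {d : F →ₗ[A] F} {i : F →ₗ[A] E} {r : E →ₗ[A] F}
  {W : Filt φ E}

lemma KN_mono {N N' : Set (UU A R F E W.B)} (h : N ⊆ N') : KN d W N ⊆ KN d W N' :=
  fun _ hx => ⟨hx.1.trans h, hx.2⟩

/-- the uncountable step -/
theorem Nice.lifting_uncountable {cl : Set (UU A R F E W.B) → Set (UU A R F E W.B)}
    (hcl : ∀ s, s.Finite → (cl s).Countable) (hnice : ∀ N, Cl cl N → Nice d i r W N)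
    {N : Set (UU A R F E W.B)} (hN : Nice d i r W N) (hcN : Cl cl N) (hunc : ℵ₀ < #N)
    (ih : ∀ N' (hN' : Nice d i r W N'), Cl cl N' → #N' < #N → Claim φ d W hN'.NA N') :
    Lifting φ d W hN.NA N := by
  classical
  intro C I C' _ _ _ _ _ _ hC hC' j q hj hq hjq g hg
  have hK := hN.cloK
  have hg0 : g 0 = 0 := hg.zero hK
  -- filtration
  let X : Type u := (#N).ord.ToType
  obtain ⟨eN⟩ : Nonempty (X ≃ N) := Cardinal.eq.1 (Cardinal.mk_ord_toType _)
  let T : Set X → Set (UU A R F E W.B) := fun s => (fun x => (eN x : UU A R F E W.B)) '' s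
  have hT : ∀ s : Set X, #s < #N → #(hull cl (T s)) < #N := by
    intro s hs
    refine (mk_hull cl hcl _).trans_lt (max_lt ?_ hunc)
    exact Cardinal.mk_image_le.trans_lt hs
  have hTN : ∀ s, T s ⊆ N := by
    rintro s _ ⟨x, _, rfl⟩
    exact (eN x).2
  let NN : X → Set (UU A R F E W.B) := fun u => hull cl (T (Set.Iic u))
  have hNNcl : ∀ u, Cl cl (NN u) := fun u => hull_closed cl _
  have hNNmono : Monotone NN := fun u v huv =>
    hull_mono cl (Set.image_mono (Set.Iic_subset_Iic.2 huv))
  have hNNsub : ∀ u, NN u ⊆ N := fun u => hull_subset cl (hTN _) hcN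
  have hIio : ∀ u : X, #(Set.Iio u) < #N := fun u => by
    simpa [X] using Cardinal.mk_Iio_lt u (by simp [X])
  have hIic : ∀ u : X, #(Set.Iic u) < #N := by
    intro u
    have : Set.Iic u = insert u (Set.Iio u) := by
      ext x; simp [le_iff_eq_or_lt]
    rw [this]
    refine (Cardinal.mk_insert_le).trans_lt ?_
    exact Cardinal.add_lt_of_lt hunc.le (hIio u) (Cardinal.one_lt_aleph0.trans hunc)
  have hNNcard : ∀ u, #(NN u) < #N := fun u => hT _ (hIic u)
  have hmemNN : ∀ x ∈ N, ∃ u, x ∈ NN u := by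
    intro x hx
    refine ⟨eN.symm ⟨x, hx⟩, subset_hull cl _ ⟨eN.symm ⟨x, hx⟩, Set.mem_Iic.2 le_rfl, ?_⟩⟩
    simp
  have hXne : Nonempty X := by
    have : Nonempty N := by
      rw [← Cardinal.mk_ne_zero_iff]
      exact (lt_of_le_of_lt (zero_le) hunc).ne'
    exact eN.nonempty_congr.2 this
  let D : X → Set (F →₀ A) := fun u => (Submodule.span hN.NA (KN d W (NN u)) : Set (F →₀ A))
  have hDclo : ∀ u, Clo hN.NA (D u) := fun u =>
    ⟨Submodule.zero_mem _, fun x hx y hy => Submodule.add_mem _ hx hy,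
      fun a ha x hx => Submodule.smul_mem _ (⟨a, ha⟩ : hN.NA) hx⟩
  have hDmono : Monotone D := fun u v huv => Submodule.span_mono (KN_mono (hNNmono huv))
  have hKsub : ∀ u, KN d W (NN u) ⊆ KN d W N := fun u => KN_mono (hNNsub u)
  have hDK : ∀ u, D u ⊆ KN d W N := fun u x hx =>
    (LinOn.span_eq hK (hKsub u) hg hg (fun _ _ => rfl) x hx).1
  obtain ⟨h, hh, hh'⟩ := ext_rec (P := F →₀ A) (I := I) (S := hN.NA) (fun x y => q y = g x)
    D hDclo hDmono (by rw [map_zero, hg0]) (by
      intro w h hh
      have hNw := hnice _ (hNNcl w)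
      have hNAw : hNw.NA ≤ hN.NA := fun a ha => hNNsub w ha
      obtain ⟨e', he'⟩ := ih _ hNw (hNNcl w) (hNNcard w) C' hC' g (hg.mono hNAw (hKsub w))
      choose e he using fun z => hq (e' z)
      have hqe : ∀ x, q (linearCombination A e x) = linearCombination A e' x := by
        intro x
        rw [Finsupp.apply_linearCombination]
        congr 2
        ext z
        exact he z
      have hgD : ∀ x ∈ D w, g x = linearCombination A e' x := fun x hx =>
        (LinOn.span_eq hK (hKsub w) hg (LinOn.of_linear (linearCombination A e')) he' x hx).2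
      by_cases hw : ∃ v, v < w
      · set D₀ : Set (F →₀ A) := {x | x = 0 ∨ ∃ v < w, x ∈ D v} with hD₀
        have hD₀c : Clo hN.NA D₀ := by
          refine ⟨Or.inl rfl, ?_, ?_⟩
          · rintro x (rfl | ⟨v, hv, hx⟩) y (rfl | ⟨v', hv', hy⟩)
            · left; rw [add_zero]
            · right; rw [zero_add]; exact ⟨v', hv', hy⟩
            · right; rw [add_zero]; exact ⟨v, hv, hx⟩
            · right
              exact ⟨max v v', max_lt hv hv', (hDclo _).add _ (hDmono (le_max_left _ _) hx) _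
                (hDmono (le_max_right _ _) hy)⟩
          · rintro a ha x (rfl | ⟨v, hv, hx⟩)
            · left; rw [smul_zero]
            · right; exact ⟨v, hv, (hDclo _).smul _ ha _ hx⟩
        have hD₀w : ∀ x ∈ D₀, x ∈ D w := by
          rintro x (rfl | ⟨v, hv, hx⟩)
          · exact (hDclo w).zero
          · exact hDmono hv.le hx
        have hδ : ∀ x, x ∈ D₀ → ∃ c, j c = h x - linearCombination A e x := by
          intro x hx
          have : h x - linearCombination A e x ∈ LinearMap.ker q := by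
            rw [LinearMap.mem_ker, map_sub, hh.2 _ hx, hqe, hgD _ (hD₀w x hx), sub_self]
          rw [← hjq] at this
          exact this
        choose! δ hδ using hδ
        have hδl : LinOn hN.NA D₀ δ := by
          constructor
          · intro x hx y hy
            apply hj
            rw [map_add, hδ x hx, hδ y hy, hδ _ (hD₀c.add _ hx _ hy), hh.1.1 _ hx _ hy, map_add]
            abel
          · intro a ha x hx
            apply hj
            rw [map_smul, hδ x hx, hδ _ (hD₀c.smul _ ha _ hx), hh.1.2 _ ha _ hx, map_smul,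
              smul_sub]
        let N₀ : Set (UU A R F E W.B) := ⋃ v ∈ Set.Iio w, NN v
        have hne : (Set.Iio w).Nonempty := hw
        have hN₀c : Cl cl N₀ := closed_iUnion cl hne NN hNNmono fun v _ => hNNcl v
        have hN₀ := hnice _ hN₀c
        have hN₀N : N₀ ⊆ N := Set.iUnion₂_subset fun v _ => hNNsub v
        have hN₀card : #N₀ < #N := by
          refine lt_of_le_of_lt (Cardinal.mk_le_mk_of_subset ?_) (hT _ (hIio w))
          refine Set.iUnion₂_subset fun v hv => hull_mono cl (Set.image_mono ?_)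
          exact fun x hx => Set.mem_Iio.2 (lt_of_le_of_lt (Set.mem_Iic.1 hx) (Set.mem_Iio.1 hv))
        have hKN₀ : KN d W N₀ ⊆ D₀ := by
          intro x hx
          obtain ⟨v, hv, h1⟩ := finite_sub_iUnion hne NN hNNmono (sp x) hx.1 (Fsup.fin x)
          exact Or.inr ⟨v, hv, Submodule.subset_span ⟨h1, hx.2⟩⟩
        have hNA₀ : hN₀.NA ≤ hN.NA := fun a ha => hN₀N ha
        obtain ⟨c, hc⟩ := ih _ hN₀ hN₀c hN₀card C hC δ (hδl.mono hNA₀ hKN₀)
        have hcD : ∀ v < w, ∀ x ∈ D v, δ x = linearCombination A c x := by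
          intro v hv x hx
          refine (LinOn.span_eq hD₀c (K := KN d W (NN v)) ?_ hδl
            (LinOn.of_linear (linearCombination A c)) ?_ x hx).2
          · intro y hy
            exact Or.inr ⟨v, hv, Submodule.subset_span hy⟩
          · intro y hy
            exact hc y (KN_mono (Set.subset_biUnion_of_mem (u := NN) (Set.mem_Iio.2 hv)) hy)
        refine ⟨fun x => (linearCombination A e + j ∘ₗ linearCombination A c) x,
          ⟨LinOn.of_linear _, ?_⟩, ?_⟩
        · intro x hx
          have : q (j (linearCombination A c x)) = 0 := by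
            rw [← LinearMap.mem_ker, ← hjq]; exact ⟨_, rfl⟩
          beta_reduce
          rw [LinearMap.add_apply, LinearMap.comp_apply, map_add, this, add_zero, hqe,
            hgD x hx]
        · intro v hv x hx
          have := hδ x (Or.inr ⟨v, hv, hx⟩)
          beta_reduce
          rw [LinearMap.add_apply, LinearMap.comp_apply, ← hcD v hv x hx, this]
          abel
      · refine ⟨fun x => linearCombination A e x, ⟨LinOn.of_linear _, ?_⟩, ?_⟩
        · intro x hx
          beta_reduce
          rw [hqe, hgD x hx]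
        · intro v hv
          exact absurd ⟨v, hv⟩ hw)
  have hall : ∀ x ∈ KN d W N, ∃ u, x ∈ D u := by
    intro x hx
    have h1 : sp x ⊆ ⋃ u ∈ (Set.univ : Set X), NN u := by
      intro y hy
      obtain ⟨u, hu⟩ := hmemNN y (hx.1 hy)
      exact Set.mem_iUnion₂.2 ⟨u, trivial, hu⟩
    obtain ⟨u, _, h2⟩ := finite_sub_iUnion Set.univ_nonempty NN hNNmono (sp x) h1 (Fsup.fin x)
    exact ⟨u, Submodule.subset_span ⟨h2, hx.2⟩⟩
  exact ⟨h, hh.mono le_rfl hall, fun x hx => hh' x (hall x hx)⟩

/-- the claim holds for all closed sets -/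
theorem Nice.claim {cl : Set (UU A R F E W.B) → Set (UU A R F E W.B)}
    (hcl : ∀ s, s.Finite → (cl s).Countable) (hnice : ∀ N, Cl cl N → Nice d i r W N)
    (hdd : ∀ x, d (d x) = 0) (hri : ∀ x, r (i x) = x) :
    ∀ N (hN : Nice d i r W N), Cl cl N → Claim φ d W hN.NA N := by
  have key : ∀ κ : Cardinal.{u}, ∀ N (hN : Nice d i r W N), Cl cl N → #N = κ →
      Claim φ d W hN.NA N := by
    intro κ
    induction κ using WellFoundedLT.induction with
    | ind κ ih =>
      intro N hN hcN hκ
      apply hN.claim_of_lifting hdd hri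
      rcases le_or_gt #N ℵ₀ with h | h
      · exact hN.lifting_countable (Cardinal.le_aleph0_iff_set_countable.1 h)
      · refine hN.lifting_uncountable hcl hnice hcN h ?_
        intro N' hN' hcN' hlt
        rw [hκ] at hlt
        exact ih _ hlt N' hN' hcN' rfl
  intro N hN hcN
  exact key _ N hN hcN rfl

end main

end Pool.Agent.V1166.FP
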