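import Pool.Agent.V1166.FP.Rec

namespace Pool.Agent.V1166.FP

universe u v w

open Finsupp (linearCombination single)
open Fsup

/-- the universe of the Skolem hulls -/
abbrev UU (A R F E B : Type u) : Type u := A ⊕ R ⊕ F ⊕ E ⊕ B

section inj

variable {A R F E B : Type u}

def iA (x : A) : UU A R F E B := Sum.inl x
def iR (x : R) : UU A R F E B := Sum.inr (Sum.inl x)
def iF (x : F) : UU A R F E B := Sum.inr (Sum.inr (Sum.inl x))
def iE (x : E) : UU A R F E B := Sum.inr (Sum.inr (Sum.inr (Sum.inl x)))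
def iB (x : B) : UU A R F E B := Sum.inr (Sum.inr (Sum.inr (Sum.inr x)))

instance fA : Fsup (UU A R F E B) A := Fsup.ofInj iA (fun x y h => by
  simpa [iA] using h)
instance fR : Fsup (UU A R F E B) R := Fsup.ofInj iR (fun x y h => by
  simpa [iR] using h)
instance fF : Fsup (UU A R F E B) F := Fsup.ofInj iF (fun x y h => by
  simpa [iF] using h)
instance fE : Fsup (UU A R F E B) E := Fsup.ofInj iE (fun x y h => by
  simpa [iE] using h)
instance fB : Fsup (UU A R F E B) B := Fsup.ofInj iB (fun x y h => by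
  simpa [iB] using h)

variable {N : Set (UU A R F E B)}

lemma spA (x : A) : sp x ⊆ N ↔ iA x ∈ N := Set.singleton_subset_iff
lemma spR (x : R) : sp x ⊆ N ↔ iR x ∈ N := Set.singleton_subset_iff
lemma spF (x : F) : sp x ⊆ N ↔ iF x ∈ N := Set.singleton_subset_iff
lemma spE (x : E) : sp x ⊆ N ↔ iE x ∈ N := Set.singleton_subset_iff
lemma spB (x : B) : sp x ⊆ N ↔ iB x ∈ N := Set.singleton_subset_iff

end inj

section ops

variable {U : Type u}

lemma good_const {X : Type v} [Fsup U X] (c : X) : Good U (fun N => sp c ⊆ N) := by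
  refine ⟨fun _ => sp c, fun _ _ => (Fsup.fin c).countable, fun N hN => ?_⟩
  exact hN ∅ (Set.empty_subset _) Set.finite_empty

lemma good_fun {X : Type v} {Y : Type w} [Fsup U X] [Fsup U Y] (f : X → Y) :
    Good U (fun N => ∀ x : X, sp x ⊆ N → sp (f x) ⊆ N) := by
  refine (good_of_exists (U := U) (fun (x : X) (y : Y) => y = f x) fun x => ⟨_, rfl⟩).mono ?_
  intro N hN x hx
  obtain ⟨y, hy, rfl⟩ := hN x hx
  exact hy

lemma good_fun2 {X : Type v} {X' : Type*} {Y : Type w} [Fsup U X] [Fsup U X'] [Fsup U Y]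
    (f : X → X' → Y) :
    Good U (fun N => ∀ x : X, sp x ⊆ N → ∀ x' : X', sp x' ⊆ N → sp (f x x') ⊆ N) := by
  refine (good_of_exists (U := U) (fun (x : X × X') (y : Y) => y = f x.1 x.2)
    fun x => ⟨_, rfl⟩).mono ?_
  intro N hN x hx x' hx'
  obtain ⟨y, hy, rfl⟩ := hN (x, x') ((sp_prod x x').2 ⟨hx, hx'⟩)
  exact hy

end ops

lemma finsupp_theta {ι B : Type u} [Ring B] {P : (ι →₀ B) → Prop} (h0 : P 0) (x : ι →₀ B)
    (θ : ι → (ι →₀ B)) (h1 : ∀ i, P (θ i)) (h2 : linearCombination B θ x = x) :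
    ∃ θ' : ι →₀ (ι →₀ B), (∀ i, P (θ' i)) ∧ linearCombination B (fun i => θ' i) x = x := by
  classical
  refine ⟨Finsupp.onFinset x.support (fun i => if i ∈ x.support then θ i else 0) ?_, ?_, ?_⟩
  · intro i hi
    by_contra hc
    rw [if_neg hc] at hi
    exact hi rfl
  · intro i
    rw [Finsupp.onFinset_apply]
    split_ifs
    · exact h1 i
    · exact h0
  · conv_rhs => rw [← h2]
    rw [Finsupp.linearCombination_apply, Finsupp.linearCombination_apply, Finsupp.sum,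
      Finsupp.sum]
    refine Finset.sum_congr rfl fun i hi => ?_
    rw [Finsupp.onFinset_apply, if_pos hi]

section nice

variable {R A : Type u} [Ring R] [Ring A] {φ : R →+* A} {F E : Type u} [AddCommGroup F]
  [Module A F] [AddCommGroup E] [Module A E] (d : F →ₗ[A] F) (i : F →ₗ[A] E) (r : E →ₗ[A] F)
  (W : Filt φ E)

/-- relations among cocycles with support in `N` -/
def KN (N : Set (UU A R F E W.B)) : Set (F →₀ A) :=
  {x | sp x ⊆ N ∧ (∀ z ∈ x.support, d z = 0) ∧ linearCombination A (id : F → F) x = 0}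

/-- the closure properties used in the induction -/
structure Nice (N : Set (UU A R F E W.B)) : Prop where
  A1 : iA 1 ∈ N
  Aadd : ∀ a b, iA a ∈ N → iA b ∈ N → iA (a + b) ∈ N
  Amul : ∀ a b, iA a ∈ N → iA b ∈ N → iA (a * b) ∈ N
  Aneg : ∀ a, iA a ∈ N → iA (-a) ∈ N
  R1 : iR 1 ∈ N
  Radd : ∀ a b, iR a ∈ N → iR b ∈ N → iR (a + b) ∈ N
  Rmul : ∀ a b, iR a ∈ N → iR b ∈ N → iR (a * b) ∈ N
  Rneg : ∀ a, iR a ∈ N → iR (-a) ∈ N
  RA : ∀ a, iR a ∈ N → iA (φ a) ∈ N
  F0 : iF 0 ∈ N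
  Fadd : ∀ a b, iF a ∈ N → iF b ∈ N → iF (a + b) ∈ N
  Fsmul : ∀ a b, iA a ∈ N → iF b ∈ N → iF (a • b) ∈ N
  Fd : ∀ a, iF a ∈ N → iF (d a) ∈ N
  Fi : ∀ a, iF a ∈ N → iE (i a) ∈ N
  Er : ∀ a, iE a ∈ N → iF (r a) ∈ N
  Eadd : ∀ a b, iE a ∈ N → iE b ∈ N → iE (a + b) ∈ N
  Esmul : ∀ a b, iA a ∈ N → iE b ∈ N → iE (a • b) ∈ N
  Be : ∀ b, iB b ∈ N → iE (W.e b) ∈ N
  ac : ∀ z, iF z ∈ N → d z = 0 → ∃ y, iF y ∈ N ∧ d y = z
  fl : ∀ x ∈ KN d W N, ∃ θ : F → (F →₀ A), (∀ z, θ z ∈ KN d W N) ∧ linearCombination A θ x = x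
  rep : ∀ x, iE x ∈ N → ∃ y : W.B →₀ A, sp y ⊆ N ∧ linearCombination A W.e y = x ∧
    ∀ j, (∃ y' : W.B →₀ A, (∀ b ∈ y'.support, W.lin.le (W.lev b) j) ∧
      linearCombination A W.e y' = x) → ∀ b ∈ y.support, W.lin.le (W.lev b) j
  rl : ∀ j (a : W.B →₀ A), sp a ⊆ N → (∀ b ∈ a.support, W.lev b = j) →
    (∃ x : W.B →₀ A, (∀ b ∈ x.support, W.lin.lt (W.lev b) j) ∧
      linearCombination A W.e a = linearCombination A W.e x) →
    ∃ l : (W.B →₀ R) →₀ A, sp l ⊆ N ∧ (∀ k ∈ l.support, k ∈ W.K j) ∧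
      a = l.sum fun k c => c • bc φ k
  th : ∀ j, ∀ k ∈ W.K j, sp k ⊆ N → ∃ θ : W.B → (W.B →₀ R),
    (∀ b, θ b ∈ W.K j ∧ sp (θ b) ⊆ N) ∧ linearCombination R θ k = k

variable {d i r}

lemma sp_zero_finsupp {U : Type u} {X Y : Type*} [Zero Y] [Fsup U X] [Fsup U Y] {N : Set U} :
    sp (0 : X →₀ Y) ⊆ N := by
  rw [sp_finsupp]
  intro x hx
  exact absurd hx (by simp)

lemma sp_val {U : Type u} {X Y : Type*} [Zero Y] [Fsup U X] [Fsup U Y] {N : Set U} {f : X →₀ Y}
    (h : sp f ⊆ N) {x : X} (hx : x ∈ f.support) : sp (f x) ⊆ N := ((sp_finsupp f).1 h x hx).2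

lemma good_fl (hZ : Flat A (LinearMap.ker d)) : Good (UU A R F E W.B) (fun N =>
    ∀ x ∈ KN d W N, ∃ θ : F → (F →₀ A), (∀ z, θ z ∈ KN d W N) ∧
      linearCombination A θ x = x) := by
  classical
  let Z := LinearMap.ker d
  let KU : Set (F →₀ A) := {x | (∀ z ∈ x.support, d z = 0) ∧
    linearCombination A (id : F → F) x = 0}
  have hθ : Theta KU := by
    have h1 := theta_of_flat hZ (id : Z → Z) (fun g => ⟨single g 1, by simp⟩)
    have h2 := theta_map h1 (fun z : Z => (z : F)) Subtype.val_injective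
    convert h2 using 1
    ext x
    constructor
    · rintro ⟨hx1, hx2⟩
      have e1 : Finsupp.mapDomain (fun z : Z => (z : F))
          (x.comapDomain (fun z : Z => (z : F)) Subtype.val_injective.injOn) = x := by
        apply Finsupp.mapDomain_comapDomain _ Subtype.val_injective
        intro z hz
        exact ⟨⟨z, hx1 z hz⟩, rfl⟩
      refine ⟨x.comapDomain (fun z : Z => (z : F)) Subtype.val_injective.injOn, ?_, e1⟩
      rw [SetLike.mem_coe, mem_Rel]
      apply Z.injective_subtype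
      rw [map_zero, Finsupp.apply_linearCombination]
      rw [← e1, Finsupp.linearCombination_mapDomain] at hx2
      exact hx2
    · rintro ⟨y, hy, rfl⟩
      constructor
      · intro z hz
        have := Finsupp.mapDomain_support hz
        rw [Finset.mem_image] at this
        obtain ⟨z', _, rfl⟩ := this
        exact z'.2
      · rw [Finsupp.lmapDomain_apply, Finsupp.linearCombination_mapDomain]
        rw [SetLike.mem_coe, mem_Rel] at hy
        have := congrArg Z.subtype hy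
        rw [Finsupp.apply_linearCombination, map_zero] at this
        exact this
  have h0 : (0 : F →₀ A) ∈ KU := ⟨fun z hz => absurd hz (by simp), map_zero _⟩
  refine (good_of_exists (U := UU A R F E W.B) (X := F →₀ A) (Y := F →₀ (F →₀ A))
    (fun x θ => x ∈ KU → (∀ z, θ z ∈ KU) ∧ linearCombination A (fun z => θ z) x = x) ?_).mono ?_
  · intro x
    by_cases hx : x ∈ KU
    · obtain ⟨θ, h1, h2⟩ := hθ x hx
      obtain ⟨θ', h3, h4⟩ := finsupp_theta (P := (· ∈ KU)) h0 x θ h1 h2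
      exact ⟨θ', fun _ => ⟨h3, h4⟩⟩
    · exact ⟨0, fun h => absurd h hx⟩
  · intro N hN x hx
    obtain ⟨θ, h1, h2⟩ := hN x hx.1
    obtain ⟨h3, h4⟩ := h2 hx.2
    refine ⟨fun z => θ z, fun z => ⟨?_, h3 z⟩, h4⟩
    by_cases hz : z ∈ θ.support
    · exact sp_val h1 hz
    · beta_reduce
      rw [Finsupp.notMem_support_iff.1 hz]
      exact sp_zero_finsupp

lemma good_rep : Good (UU A R F E W.B) (fun N => ∀ x : E, iE x ∈ N →
    ∃ y : W.B →₀ A, sp y ⊆ N ∧ linearCombination A W.e y = x ∧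
    ∀ j, (∃ y' : W.B →₀ A, (∀ b ∈ y'.support, W.lin.le (W.lev b) j) ∧
      linearCombination A W.e y' = x) → ∀ b ∈ y.support, W.lin.le (W.lev b) j) := by
  classical
  let _ := W.lin
  have := W.wf
  refine (good_of_exists (U := UU A R F E W.B) (X := E) (Y := W.B →₀ A)
    (fun x y => linearCombination A W.e y = x ∧
    ∀ j, (∃ y' : W.B →₀ A, (∀ b ∈ y'.support, W.lin.le (W.lev b) j) ∧
      linearCombination A W.e y' = x) → ∀ b ∈ y.support, W.lin.le (W.lev b) j) ?_).mono ?_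
  · intro x
    by_cases hx : ∃ j, ∃ y' : W.B →₀ A, (∀ b ∈ y'.support, W.lin.le (W.lev b) j) ∧
      linearCombination A W.e y' = x
    · let Q : Set W.J := {j | ∃ y' : W.B →₀ A, (∀ b ∈ y'.support, W.lin.le (W.lev b) j) ∧
        linearCombination A W.e y' = x}
      have hne : Q.Nonempty := hx
      obtain ⟨y, hy1, hy2⟩ : WellFounded.min (wellFounded_lt) Q hne ∈ Q :=
        WellFounded.min_mem _ _ _
      refine ⟨y, hy2, fun j hj b hb => ?_⟩
      have h1 : ¬ j < WellFounded.min (wellFounded_lt) Q hne :=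
        WellFounded.not_lt_min _ Q hj
      exact (hy1 b hb).trans (not_lt.1 h1)
    · obtain ⟨a, ha⟩ := W.gen x
      exact ⟨a, ha, fun j hj => absurd ⟨j, hj⟩ hx⟩
  · intro N hN x hx
    exact hN x ((spE x).2 hx)

lemma good_rl : Good (UU A R F E W.B) (fun N => ∀ j (a : W.B →₀ A), sp a ⊆ N →
    (∀ b ∈ a.support, W.lev b = j) →
    (∃ x : W.B →₀ A, (∀ b ∈ x.support, W.lin.lt (W.lev b) j) ∧
      linearCombination A W.e a = linearCombination A W.e x) →
    ∃ l : (W.B →₀ R) →₀ A, sp l ⊆ N ∧ (∀ k ∈ l.support, k ∈ W.K j) ∧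
      a = l.sum fun k c => c • bc φ k) := by
  classical
  refine (good_of_exists (U := UU A R F E W.B) (X := W.B →₀ A) (Y := (W.B →₀ R) →₀ A)
    (fun a l => ∀ j, (∀ b ∈ a.support, W.lev b = j) →
    (∃ x : W.B →₀ A, (∀ b ∈ x.support, W.lin.lt (W.lev b) j) ∧
      linearCombination A W.e a = linearCombination A W.e x) →
    (∀ k ∈ l.support, k ∈ W.K j) ∧ a = l.sum fun k c => c • bc φ k) ?_).mono ?_
  · intro a
    by_cases ha : a = 0
    · subst ha
      exact ⟨0, fun j _ _ => ⟨fun k hk => absurd hk (by simp), by simp⟩⟩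
    · by_cases hj : ∃ j, (∀ b ∈ a.support, W.lev b = j) ∧
        (∃ x : W.B →₀ A, (∀ b ∈ x.support, W.lin.lt (W.lev b) j) ∧
        linearCombination A W.e a = linearCombination A W.e x)
      · obtain ⟨j, h1, h2⟩ := hj
        have h3 := (W.rel j a h1).1 h2
        rw [Finsupp.mem_span_image_iff_linearCombination] at h3
        obtain ⟨l, hl, hl'⟩ := h3
        refine ⟨l, fun j' h1' _ => ?_⟩
        have : j' = j := by
          obtain ⟨b, hb⟩ := Finsupp.support_nonempty_iff.2 ha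
          rw [← h1 b hb, h1' b hb]
        subst this
        refine ⟨fun k hk => hl hk, ?_⟩
        rw [← hl', Finsupp.linearCombination_apply]
      · exact ⟨0, fun j h1 h2 => absurd ⟨j, h1, h2⟩ hj⟩
  · intro N hN j a ha h1 h2
    obtain ⟨l, hl, hl'⟩ := hN a ha
    exact ⟨l, hl, hl' j h1 h2⟩

lemma good_th : Good (UU A R F E W.B) (fun N => ∀ j, ∀ k ∈ W.K j, sp k ⊆ N →
    ∃ θ : W.B → (W.B →₀ R), (∀ b, θ b ∈ W.K j ∧ sp (θ b) ⊆ N) ∧
      linearCombination R θ k = k) := by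
  classical
  refine (good_of_exists (U := UU A R F E W.B) (X := W.B →₀ R) (Y := W.B →₀ (W.B →₀ R))
    (fun k θ => ∀ j, k ∈ W.K j → (∀ b, θ b ∈ W.K j) ∧
      linearCombination R (fun b => θ b) k = k) ?_).mono ?_
  · intro k
    by_cases hk : k = 0
    · subst hk
      exact ⟨0, fun j _ => ⟨fun b => (W.K j).zero_mem, map_zero _⟩⟩
    · by_cases hj : ∃ j, k ∈ W.K j
      · obtain ⟨j, hj⟩ := hj
        obtain ⟨θ, h1, h2⟩ := W.theta j k hj
        obtain ⟨θ', h3, h4⟩ := finsupp_theta (P := (· ∈ W.K j)) (W.K j).zero_mem k θ h1 h2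
        refine ⟨θ', fun j' hj' => ?_⟩
        have : j' = j := by
          obtain ⟨b, hb⟩ := Finsupp.support_nonempty_iff.2 hk
          rw [← W.supp j k hj b hb, W.supp j' k hj' b hb]
        subst this
        exact ⟨h3, h4⟩
      · exact ⟨0, fun j h => absurd ⟨j, h⟩ hj⟩
  · intro N hN j k hk hk'
    obtain ⟨θ, h1, h2⟩ := hN k hk'
    obtain ⟨h3, h4⟩ := h2 j hk
    refine ⟨fun b => θ b, fun b => ⟨h3 b, ?_⟩, h4⟩
    by_cases hb : b ∈ θ.support
    · exact sp_val h1 hb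
    · beta_reduce
      rw [Finsupp.notMem_support_iff.1 hb]
      exact sp_zero_finsupp

/-- sufficiently closed sets are nice -/
theorem good_nice (hac : ∀ z, d z = 0 → ∃ y, d y = z) (hZ : Flat A (LinearMap.ker d)) :
    Good (UU A R F E W.B) (Nice d i r W) := by
  have g1 := good_const (U := UU A R F E W.B) (1 : A)
  have g2 := good_fun2 (U := UU A R F E W.B) (fun a b : A => a + b)
  have g3 := good_fun2 (U := UU A R F E W.B) (fun a b : A => a * b)
  have g4 := good_fun (U := UU A R F E W.B) (fun a : A => -a)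
  have g5 := good_const (U := UU A R F E W.B) (1 : R)
  have g6 := good_fun2 (U := UU A R F E W.B) (fun a b : R => a + b)
  have g7 := good_fun2 (U := UU A R F E W.B) (fun a b : R => a * b)
  have g8 := good_fun (U := UU A R F E W.B) (fun a : R => -a)
  have g9 := good_fun (U := UU A R F E W.B) (fun a : R => φ a)
  have g10 := good_const (U := UU A R F E W.B) (0 : F)
  have g11 := good_fun2 (U := UU A R F E W.B) (fun a b : F => a + b)
  have g12 := good_fun2 (U := UU A R F E W.B) (fun (a : A) (b : F) => a • b)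
  have g13 := good_fun (U := UU A R F E W.B) (fun a : F => d a)
  have g14 := good_fun (U := UU A R F E W.B) (fun a : F => i a)
  have g15 := good_fun (U := UU A R F E W.B) (fun a : E => r a)
  have g16 := good_fun2 (U := UU A R F E W.B) (fun a b : E => a + b)
  have g17 := good_fun2 (U := UU A R F E W.B) (fun (a : A) (b : E) => a • b)
  have g18 := good_fun (U := UU A R F E W.B) (fun b : W.B => W.e b)
  have g19 : Good (UU A R F E W.B) (fun N => ∀ z : F, sp z ⊆ N → ∃ y : F, sp y ⊆ N ∧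
      (d z = 0 → d y = z)) := by
    apply good_of_exists
    intro z
    by_cases hz : d z = 0
    · obtain ⟨y, hy⟩ := hac z hz
      exact ⟨y, fun _ => hy⟩
    · exact ⟨0, fun h => absurd h hz⟩
  have g20 := good_fl (R := R) (E := E) W hZ
  have g21 := good_rep (F := F) W
  have g22 := good_rl (F := F) W
  have g23 := good_th (F := F) W
  refine (((((g1.and g2).and (g3.and g4)).and ((g5.and g6).and (g7.and g8))).and
    (((g9.and g10).and (g11.and g12)).and ((g13.and g14).and (g15.and g16)))).and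
    (((g17.and g18).and (g19.and g20)).and ((g21.and g22).and g23))).mono ?_
  rintro N ⟨⟨⟨⟨⟨h1, h2⟩, ⟨h3, h4⟩⟩, ⟨⟨h5, h6⟩, ⟨h7, h8⟩⟩⟩, ⟨⟨⟨h9, h10⟩, ⟨h11, h12⟩⟩,
    ⟨⟨h13, h14⟩, ⟨h15, h16⟩⟩⟩⟩, ⟨⟨⟨h17, h18⟩, ⟨h19, h20⟩⟩, ⟨⟨h21, h22⟩, h23⟩⟩⟩
  simp only [spA, spR, spF, spE, spB] at *
  exact ⟨h1, fun a b ha hb => h2 a ha b hb, fun a b ha hb => h3 a ha b hb, h4, h5,
    fun a b ha hb => h6 a ha b hb, fun a b ha hb => h7 a ha b hb, h8, h9, h10,
    fun a b ha hb => h11 a ha b hb, fun a b ha hb => h12 a ha b hb, h13, h14, h15,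
    fun a b ha hb => h16 a ha b hb, fun a b ha hb => h17 a ha b hb, h18,
    fun z hz hz' => by
      obtain ⟨y, hy, hy'⟩ := h19 z hz
      exact ⟨y, hy, hy' hz'⟩, h20, h21, h22, h23⟩

end nice

end Pool.Agent.V1166.FP
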