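import Pool.Agent.V1166.FP.SOA

namespace Pool.Agent.V1166.FP

universe u v w

open Finsupp (linearCombination single)

section linon

variable {A : Type u} [Ring A] {P : Type v} [AddCommGroup P] [Module A P]
  {I : Type w} [AddCommGroup I] [Module A I]

/-- additive and homogeneous on a set -/
def LinOn (S : Subring A) (D : Set P) (f : P → I) : Prop :=
  (∀ x ∈ D, ∀ y ∈ D, f (x + y) = f x + f y) ∧ ∀ a ∈ S, ∀ x ∈ D, f (a • x) = a • f x

/-- sets closed under linear combinations with coefficients in `S` -/
structure Clo (S : Subring A) (D : Set P) : Prop where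
  zero : (0 : P) ∈ D
  add : ∀ x ∈ D, ∀ y ∈ D, x + y ∈ D
  smul : ∀ a ∈ S, ∀ x ∈ D, a • x ∈ D

variable {S : Subring A} {D : Set P}

lemma Clo.neg (h : Clo S D) {x : P} (hx : x ∈ D) : -x ∈ D := by
  have := h.smul (-1) (neg_mem (one_mem S)) x hx
  simpa using this

lemma Clo.sub (h : Clo S D) {x y : P} (hx : x ∈ D) (hy : y ∈ D) : x - y ∈ D := by
  rw [sub_eq_add_neg]; exact h.add _ hx _ (h.neg hy)

lemma Clo.sum (h : Clo S D) {α : Type*} (s : Finset α) (f : α → P)
    (hf : ∀ a ∈ s, f a ∈ D) : ∑ a ∈ s, f a ∈ D :=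
  Finset.sum_induction f (· ∈ D) (fun a b ha hb => h.add a ha b hb) h.zero hf

lemma LinOn.zero {f : P → I} (hf : LinOn S D f) (h : Clo S D) : f 0 = 0 := by
  have := hf.2 0 (zero_mem S) 0 h.zero
  simpa using this

lemma LinOn.neg {f : P → I} (hf : LinOn S D f) {x : P} (hx : x ∈ D) :
    f (-x) = - f x := by
  have := hf.2 (-1) (neg_mem (one_mem S)) x hx
  simpa using this

lemma LinOn.sub {f : P → I} (hf : LinOn S D f) (h : Clo S D) {x y : P} (hx : x ∈ D)
    (hy : y ∈ D) : f (x - y) = f x - f y := by
  rw [sub_eq_add_neg, hf.1 x hx _ (h.neg hy), hf.neg hy, sub_eq_add_neg]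

lemma LinOn.sum {f : P → I} (hf : LinOn S D f) (h : Clo S D) {α : Type*}
    (s : Finset α) (x : α → P) (hx : ∀ a ∈ s, x a ∈ D) :
    f (∑ a ∈ s, x a) = ∑ a ∈ s, f (x a) := by
  classical
  induction s using Finset.induction_on with
  | empty => simp [hf.zero h]
  | insert a s ha ih =>
    rw [Finset.sum_insert ha, Finset.sum_insert ha, hf.1 _ (hx a (Finset.mem_insert_self _ _)) _
      (h.sum _ _ fun b hb => hx b (Finset.mem_insert_of_mem hb)),
      ih fun b hb => hx b (Finset.mem_insert_of_mem hb)]

/-- linear combinations -/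
lemma Clo.lc (h : Clo S D) {ι : Type*} {c : ι → P} {x : ι →₀ A} (hx : ∀ i, x i ∈ S)
    (hc : ∀ i ∈ x.support, c i ∈ D) : linearCombination A c x ∈ D := by
  rw [Finsupp.linearCombination_apply]
  exact h.sum _ _ fun i hi => h.smul _ (hx i) _ (hc i hi)

lemma LinOn.lc {f : P → I} (hf : LinOn S D f) (h : Clo S D) {ι : Type*} {c : ι → P}
    {x : ι →₀ A} (hx : ∀ i, x i ∈ S) (hc : ∀ i ∈ x.support, c i ∈ D) :
    f (linearCombination A c x) = linearCombination A (fun i => f (c i)) x := by
  rw [Finsupp.linearCombination_apply, Finsupp.linearCombination_apply, Finsupp.sum, Finsupp.sum,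
    hf.sum h _ _ fun i hi => h.smul _ (hx i) _ (hc i hi)]
  exact Finset.sum_congr rfl fun i hi => hf.2 _ (hx i) _ (hc i hi)

/-- gluing a partial map with prescribed values on new generators -/
lemma glue (hD : Clo S D) {h : P → I} (hh : LinOn S D h) {B : Type*} (y : B → P) (M : B → I)
    {V : Set (B →₀ A)} (hV : Clo S V)
    (hc : ∀ a ∈ V, linearCombination A y a ∈ D → h (linearCombination A y a) =
      linearCombination A M a) :
    ∃ h' : P → I, ∀ x ∈ D, ∀ a ∈ V, h' (x + linearCombination A y a) =
      h x + linearCombination A M a := by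
  classical
  let Q : P → P × (B →₀ A) → Prop := fun z p => p.1 ∈ D ∧ p.2 ∈ V ∧
    z = p.1 + linearCombination A y p.2
  let h' : P → I := fun z => if hz : ∃ p, Q z p then h hz.choose.1 +
    linearCombination A M hz.choose.2 else 0
  refine ⟨h', fun x hx a ha => ?_⟩
  have hz : ∃ p, Q (x + linearCombination A y a) p := ⟨(x, a), hx, ha, rfl⟩
  simp only [h']
  rw [dif_pos hz]
  obtain ⟨h1, h2, h3⟩ := hz.choose_spec
  set p := hz.choose
  have h4 : linearCombination A y (p.2 - a) = x - p.1 := by
    rw [map_sub, sub_eq_sub_iff_add_eq_add, add_comm, ← h3]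
  have h5 := hc (p.2 - a) (hV.sub h2 ha) (by rw [h4]; exact hD.sub hx h1)
  rw [h4, hh.sub hD hx h1, map_sub] at h5
  rw [← sub_eq_zero]
  have h6 : h p.1 + linearCombination A M p.2 - (h x + linearCombination A M a) =
      (linearCombination A M p.2 - linearCombination A M a) - (h x - h p.1) := by abel
  rw [h6, ← h5, sub_self]

variable (Q : P → I → Prop)

/-- good partial maps -/
def GoodOn (S : Subring A) (D : Set P) (f : P → I) : Prop :=
  LinOn S D f ∧ ∀ x ∈ D, Q x (f x)

open Classical in
/-- transfinite extension of partial maps -/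
theorem ext_rec {W : Type*} [LinearOrder W] [WellFoundedLT W] (D : W → Set P)
    (hD : ∀ w, Clo S (D w)) (hmono : Monotone D) (hQ : Q 0 0)
    (step : ∀ w, ∀ h : P → I, GoodOn Q S {x | x = 0 ∨ ∃ v < w, x ∈ D v} h →
      ∃ h' : P → I, GoodOn Q S (D w) h' ∧ ∀ v < w, ∀ x ∈ D v, h' x = h x) :
    ∃ h : P → I, GoodOn Q S {x | ∃ w, x ∈ D w} h := by
  let gl : (w : W) → ((v : W) → v < w → (P → I)) → (P → I) := fun w ih x =>
    if hx : ∃ v, v < w ∧ x ∈ D v then ih hx.choose hx.choose_spec.1 x else 0
  let F : (w : W) → ((v : W) → v < w → (P → I)) → (P → I) := fun w ih =>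
    if hg : GoodOn Q S {x | x = 0 ∨ ∃ v < w, x ∈ D v} (gl w ih) then
      (step w (gl w ih) hg).choose else gl w ih
  let H : W → P → I := (wellFounded_lt : WellFounded ((· < ·) : W → W → Prop)).fix F
  have hH : ∀ w, H w = F w (fun v _ => H v) := fun w => WellFounded.fix_eq _ F w
  have claim : ∀ w, GoodOn Q S (D w) (H w) ∧ ∀ v < w, ∀ x ∈ D v, H w x = H v x := by
    intro w
    induction w using WellFoundedLT.induction with
    | ind w ih =>
      -- values of the glued map
      have hgl : ∀ v < w, ∀ x ∈ D v, gl w (fun v _ => H v) x = H v x := by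
        intro v hv x hx
        have hex : ∃ v, v < w ∧ x ∈ D v := ⟨v, hv, hx⟩
        simp only [gl]
        rw [dif_pos hex]
        obtain ⟨h1, h2⟩ := hex.choose_spec
        rcases lt_trichotomy hex.choose v with h3 | h3 | h3
        · exact ((ih v hv).2 _ h3 x h2).symm
        · rw [h3]
        · exact (ih _ h1).2 v h3 x hx
      have hgl0 : gl w (fun v _ => H v) 0 = 0 := by
        by_cases hex : ∃ v, v < w ∧ (0 : P) ∈ D v
        · obtain ⟨v, hv, hx⟩ := hex
          rw [hgl v hv 0 hx]
          exact (ih v hv).1.1.zero (hD v)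
        · simp only [gl]
          rw [dif_neg hex]
      have hgood : GoodOn Q S {x | x = 0 ∨ ∃ v < w, x ∈ D v} (gl w (fun v _ => H v)) := by
        refine ⟨⟨?_, ?_⟩, ?_⟩
        · rintro x (rfl | ⟨v, hv, hx⟩) y (rfl | ⟨v', hv', hy⟩)
          · rw [add_zero, hgl0, add_zero]
          · rw [zero_add, hgl0, zero_add]
          · rw [add_zero, hgl0, add_zero]
          · have hm : max v v' < w := max_lt hv hv'
            have hx' := hmono (le_max_left v v') hx
            have hy' := hmono (le_max_right v v') hy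
            rw [hgl _ hm _ ((hD _).add _ hx' _ hy'), hgl _ hm _ hx', hgl _ hm _ hy']
            exact (ih _ hm).1.1.1 _ hx' _ hy'
        · rintro a ha x (rfl | ⟨v, hv, hx⟩)
          · rw [smul_zero, hgl0, smul_zero]
          · rw [hgl _ hv _ ((hD _).smul _ ha _ hx), hgl _ hv _ hx]
            exact (ih _ hv).1.1.2 _ ha _ hx
        · rintro x (rfl | ⟨v, hv, hx⟩)
          · rw [hgl0]; exact hQ
          · rw [hgl _ hv _ hx]
            exact (ih _ hv).1.2 _ hx
      have hHw : H w = (step w (gl w (fun v _ => H v)) hgood).choose := by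
        rw [hH]
        simp only [F]
        rw [dif_pos hgood]
      obtain ⟨h1, h2⟩ := (step w (gl w (fun v _ => H v)) hgood).choose_spec
      rw [← hHw] at h1 h2
      exact ⟨h1, fun v hv x hx => (h2 v hv x hx).trans (hgl v hv x hx)⟩
  let h : P → I := fun x => if hx : ∃ w, x ∈ D w then H hx.choose x else 0
  have hh : ∀ w, ∀ x ∈ D w, h x = H w x := by
    intro w x hx
    have hex : ∃ w, x ∈ D w := ⟨w, hx⟩
    simp only [h]
    rw [dif_pos hex]
    rcases lt_trichotomy hex.choose w with h3 | h3 | h3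
    · exact ((claim w).2 _ h3 x hex.choose_spec).symm
    · rw [h3]
    · exact (claim _).2 w h3 x hx
  refine ⟨h, ⟨?_, ?_⟩, ?_⟩
  · rintro x ⟨w, hx⟩ y ⟨w', hy⟩
    have hx' := hmono (le_max_left w w') hx
    have hy' := hmono (le_max_right w w') hy
    rw [hh _ _ ((hD _).add _ hx' _ hy'), hh _ _ hx', hh _ _ hy']
    exact (claim _).1.1.1 _ hx' _ hy'
  · rintro a ha x ⟨w, hx⟩
    rw [hh _ _ ((hD _).smul _ ha _ hx), hh _ _ hx]
    exact (claim _).1.1.2 _ ha _ hx
  · rintro x ⟨w, hx⟩
    rw [hh _ _ hx]
    exact (claim _).1.2 _ hx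

end linon

section lemX

variable {R A : Type u} [Ring R] [Ring A] {φ : R →+* A}

/-- cotorsion modules and flat quotients over a subring -/
lemma CotV.sub {C : Type u} [AddCommGroup C] [Module A C] (h : CotV φ C) {ι : Type u}
    {S : Subring R} {K : Set (ι →₀ R)} (hS : SubLike S K) (hK : Theta K) {f : (ι →₀ R) → C}
    (hf : SLin φ S K f) : ∃ d : ι → C, ∀ k ∈ K, f k = linearCombination A d (bc φ k) := by
  classical
  have hid : bc (RingHom.id R) '' K = K := by
    ext x
    constructor
    · rintro ⟨y, hy, rfl⟩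
      have : bc (RingHom.id R) y = y := by ext i; simp [bc_apply]
      rw [this]; exact hy
    · intro hx
      refine ⟨x, hx, ?_⟩
      ext i; simp [bc_apply]
  have hθ := bc_theta (ψ := RingHom.id R) hS hK
  rw [hid] at hθ
  let Kh : Submodule R (ι →₀ R) := Submodule.span R K
  -- well-definedness
  have hwd : ∀ l : (ι →₀ R) →₀ R, (∀ k ∈ l.support, k ∈ K) →
      (l.sum fun k a => a • k) = 0 → (l.sum fun k a => φ a • f k) = 0 := by
    intro l hl h0
    refine bc1 hS hK hf l.support (fun k => k) hl (fun k => φ (l k)) ?_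
    have : ∑ k ∈ l.support, φ (l k) • bc φ k = bc φ (l.sum fun k a => a • k) := by
      rw [Finsupp.sum, bc_sum]
      exact Finset.sum_congr rfl fun k _ => (bc_smul φ _ _).symm
    rw [this, h0, bc_zero]
  have hrep : ∀ x : ι →₀ R, x ∈ Kh → ∃ l : (ι →₀ R) →₀ R, (∀ k ∈ l.support, k ∈ K) ∧
      (l.sum fun k a => a • k) = x := by
    intro x hx
    have hx' : x ∈ Submodule.span R (id '' K) := by rw [Set.image_id]; exact hx
    rw [Finsupp.mem_span_image_iff_linearCombination] at hx'
    obtain ⟨l, hl, hl'⟩ := hx'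
    refine ⟨l, fun k hk => hl hk, ?_⟩
    rw [Finsupp.linearCombination_apply] at hl'
    exact hl'
  choose! L hL1 hL2 using hrep
  let fh : (ι →₀ R) → C := fun x => (L x).sum fun k a => φ a • f k
  have hfh : ∀ x ∈ Kh, ∀ l : (ι →₀ R) →₀ R, (∀ k ∈ l.support, k ∈ K) →
      (l.sum fun k a => a • k) = x → fh x = l.sum fun k a => φ a • f k := by
    intro x hx l hl hlx
    have h1 := hwd (L x - l) (by
      intro k hk
      have := Finsupp.support_sub hk
      rw [Finset.mem_union] at this
      rcases this with h | h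
      · exact hL1 x hx k h
      · exact hl k h) (by
      rw [Finsupp.sum_sub_index (fun k a b => sub_smul _ _ _), hL2 x hx, hlx, sub_self])
    rw [Finsupp.sum_sub_index (fun k a b => by rw [map_sub, sub_smul]), sub_eq_zero] at h1
    exact h1
  obtain ⟨d, hd⟩ := h ι Kh hθ fh (by
    constructor
    · intro x hx y hy
      rw [hfh (x + y) (Kh.add_mem hx hy) (L x + L y)]
      · rw [Finsupp.sum_add_index' (fun k => by rw [map_zero, zero_smul])
          (fun k a b => by rw [map_add, add_smul])]
      · intro k hk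
        have := Finsupp.support_add hk
        rw [Finset.mem_union] at this
        rcases this with h | h
        · exact hL1 x hx k h
        · exact hL1 y hy k h
      · rw [Finsupp.sum_add_index' (h := fun (k : ι →₀ R) (a : R) => a • k)
          (fun k => zero_smul R k) (fun k a b => add_smul a b k), hL2 x hx, hL2 y hy]
    · intro a _ x hx
      rw [hfh (a • x) (Kh.smul_mem a hx) (a • L x)]
      · rw [Finsupp.sum_smul_index (fun k => by rw [map_zero, zero_smul])]
        simp only [fh, Finsupp.sum, Finset.smul_sum]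
        refine Finset.sum_congr rfl fun k _ => ?_
        rw [map_mul, mul_smul]
      · intro k hk
        exact hL1 x hx k (Finsupp.support_smul hk)
      · rw [Finsupp.sum_smul_index (h := fun (k : ι →₀ R) (a : R) => a • k)
          (fun k => zero_smul R k)]
        conv_rhs => rw [← hL2 x hx]
        simp only [Finsupp.sum, Finset.smul_sum]
        exact Finset.sum_congr rfl fun k _ => mul_smul _ _ _)
  refine ⟨d, fun k hk => ?_⟩
  rw [← hd k (Submodule.subset_span hk), hfh k (Submodule.subset_span hk) (single k 1)]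
  · rw [Finsupp.sum_single_index (by rw [map_zero, zero_smul]), map_one, one_smul]
  · intro k' hk'
    have := Finsupp.support_single_subset hk'
    rw [Finset.mem_singleton] at this
    rw [this]; exact hk
  · rw [Finsupp.sum_single_index (h := fun (k : ι →₀ R) (a : R) => a • k) (zero_smul R k),
      one_smul]

end lemX

end Pool.Agent.V1166.FP
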