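import Pool.Agent.V1166.FP.Attach

namespace Pool.Agent.V1166.FP

universe u v w

open Finsupp (linearCombination single)

section soa

/-- formal generators -/
inductive Gen (S K A M T : Type u) : Type u
  | base (m : M) : Gen S K A M T
  | cell (s : S) (len : K → ℕ) (coef : K → ℕ → A) (sub : K → ℕ → Gen S K A M T) (t : T) :
      Gen S K A M T

/-- cells -/
structure Cel (S K A M T : Type u) : Type u where
  s : S
  len : K → ℕ
  coef : K → ℕ → A
  sub : K → ℕ → Gen S K A M T

variable {S K A M T : Type u}

/-- the cell of a generator -/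
def lv : Gen S K A M T → Option (Cel S K A M T)
  | .base _ => none
  | .cell s len coef sub _ => some ⟨s, len, coef, sub⟩

/-- generators of a cell -/
def emb (c : Cel S K A M T) (t : T) : Gen S K A M T := .cell c.s c.len c.coef c.sub t

lemma emb_inj (c : Cel S K A M T) : Function.Injective (emb c) := by
  intro t t' h
  unfold emb at h
  injection h

lemma lv_emb (c : Cel S K A M T) (t : T) : lv (emb c t) = some c := rfl

/-- the cell `y` uses a generator of the cell `x` -/
def prec (x y : Option (Cel S K A M T)) : Prop :=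
  ∃ c, y = some c ∧ ∃ k i, lv (c.sub k i) = x

lemma prec_acc (g : Gen S K A M T) : Acc prec (lv g) := by
  induction g with
  | base m =>
    constructor
    rintro y ⟨c, hc, _⟩
    exact absurd hc (by simp [lv])
  | cell s len coef sub t ih =>
    constructor
    rintro y ⟨c, hc, k, i, rfl⟩
    have : c = ⟨s, len, coef, sub⟩ := (Option.some.inj hc).symm
    subst this
    exact ih k i

lemma prec_wf [Nonempty T] [Nonempty M] : WellFounded (prec : Option (Cel S K A M T) → _ → Prop) := by
  constructor
  intro x
  cases x with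
  | none =>
    obtain ⟨m⟩ := ‹Nonempty M›
    exact prec_acc (.base m)
  | some c =>
    obtain ⟨t⟩ := ‹Nonempty T›
    exact prec_acc (emb c t)

end soa

section construct

variable {R A : Type u} [Ring R] [Ring A] (φ : R →+* A) (M : Type u) [AddCommGroup M] [Module A M]

/-- index vectors -/
abbrev Vec (R : Type u) [Ring R] := (R × ℕ) →₀ R

/-- small flat presentations -/
abbrev Sm (R : Type u) [Ring R] := {K : Submodule R (Vec R) // Theta (K : Set (Vec R))}

abbrev GG (R A M : Type u) [Ring R] := Gen (Sm R) (Vec R) A M (R × ℕ)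
abbrev CC (R A M : Type u) [Ring R] := Cel (Sm R) (Vec R) A M (R × ℕ)

/-- the term attached to a vector -/
noncomputable def tm (c : CC R A M) (k : Vec R) : GG R A M →₀ A :=
  ∑ i ∈ Finset.range (c.len k), single (c.sub k i) (c.coef k i)

/-- the augmentation on formal generators -/
def aug : GG R A M → M
  | .base m => m
  | .cell _ _ _ _ _ => 0

noncomputable def qm : (GG R A M →₀ A) →ₗ[A] M := linearCombination A (aug M)

open Classical in
/-- relation module of a cell, depending on its being good -/
noncomputable def KK (g : Prop) : Option (CC R A M) → Submodule R (GG R A M →₀ R)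
  | none => ⊥
  | some c => if g then c.s.1.map (Finsupp.lmapDomain R R (emb c)) else
      (⊤ : Submodule R (Vec R)).map (Finsupp.lmapDomain R R (emb c))

open Classical in
noncomputable def TT (g : Prop) : Option (CC R A M) → (GG R A M →₀ R) → (GG R A M →₀ A)
  | none => fun _ => 0
  | some c => if g then fun k => tm M c (k.comapDomain (emb c) (emb_inj c).injOn) else fun _ => 0

/-- a cell is good relative to a relation module -/
def Gd (N : Submodule A (GG R A M →₀ A)) : Option (CC R A M) → Prop
  | none => True
  | some c => (∀ x ∈ c.s.1, ∀ y ∈ c.s.1, tm M c (x + y) - (tm M c x + tm M c y) ∈ N) ∧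
      (∀ a : R, ∀ x ∈ c.s.1, tm M c (a • x) - φ a • tm M c x ∈ N) ∧
      ∀ x ∈ c.s.1, qm M (tm M c x) = 0

instance : Nonempty (R × ℕ) := ⟨(0, 0)⟩

instance wfprec : IsWellFounded (Option (CC R A M)) prec := ⟨prec_wf⟩

/-- the well order of cells -/
@[reducible] noncomputable def cord : LinearOrder (Option (CC R A M)) :=
  IsWellFounded.wellOrderExtension prec

lemma cord_wf : @WellFoundedLT (Option (CC R A M)) (cord M).toLT :=
  IsWellFounded.wellOrderExtension.isWellFounded_lt prec

lemma cord_lt {x y : Option (CC R A M)} (h : prec x y) : (cord M).lt x y :=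
  Prod.Lex.left _ _ (IsWellFounded.rank_lt_of_rel h)

attribute [local instance] cord

/-- the set of relations of a level -/
def rs (g : Prop) (j : Option (CC R A M)) : Set (GG R A M →₀ A) :=
  {x | ∃ k ∈ KK M g j, x = bc φ k - TT M g j k}

/-- good levels, by well-founded recursion -/
noncomputable def gd : Option (CC R A M) → Prop :=
  (cord_wf M).wf.fix fun j ih =>
    Gd φ M (Submodule.span A {x | ∃ j', ∃ h : j' < j, x ∈ rs φ M (ih j' h) j'}) j

lemma gd_eq (j : Option (CC R A M)) : gd φ M j =
    Gd φ M (Submodule.span A {x | ∃ j' < j, x ∈ rs φ M (gd φ M j') j'}) j := by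
  have h1 : gd φ M j = Gd φ M (Submodule.span A {x | ∃ j', ∃ _ : j' < j,
      x ∈ rs φ M (gd φ M j') j'}) j := by
    unfold gd
    rw [WellFounded.fix_eq]
  rw [h1]
  congr 3
  ext x
  simp

noncomputable def Kf (j : Option (CC R A M)) : Submodule R (GG R A M →₀ R) := KK M (gd φ M j) j

noncomputable def Tf (j : Option (CC R A M)) : (GG R A M →₀ R) → (GG R A M →₀ A) :=
  TT M (gd φ M j) j

lemma Kf_good {c : CC R A M} (hg : gd φ M (some c)) :
    Kf φ M (some c) = c.s.1.map (Finsupp.lmapDomain R R (emb c)) := if_pos hg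

lemma Kf_bad {c : CC R A M} (hg : ¬ gd φ M (some c)) :
    Kf φ M (some c) = (⊤ : Submodule R (Vec R)).map (Finsupp.lmapDomain R R (emb c)) := if_neg hg

lemma Tf_good {c : CC R A M} (hg : gd φ M (some c)) :
    Tf φ M (some c) = fun k => tm M c (k.comapDomain (emb c) (emb_inj c).injOn) := if_pos hg

lemma Tf_bad {c : CC R A M} (hg : ¬ gd φ M (some c)) :
    Tf φ M (some c) = fun _ => 0 := if_neg hg

lemma gd_iff (j : Option (CC R A M)) : gd φ M j ↔
    Gd φ M (Rl φ (Kf φ M) (Tf φ M) j) j := by
  conv_lhs => rw [gd_eq]
  rfl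

lemma theta_map {B B' : Type u} {K : Submodule R (B →₀ R)} (h : Theta (K : Set (B →₀ R)))
    (f : B → B') (hf : Function.Injective f) :
    Theta ((K.map (Finsupp.lmapDomain R R f) : Submodule R (B' →₀ R)) : Set (B' →₀ R)) := by
  classical
  rintro _ ⟨k, hk, rfl⟩
  obtain ⟨θ, h1, h2⟩ := h k hk
  let θ' : B' → (B' →₀ R) := fun b' => if hb : ∃ b, f b = b' then (θ hb.choose).mapDomain f else 0
  have hθ' : ∀ b, θ' (f b) = (θ b).mapDomain f := by
    intro b
    have hb : ∃ b', f b' = f b := ⟨b, rfl⟩
    simp only [θ']
    rw [dif_pos hb]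
    rw [hf hb.choose_spec]
  refine ⟨θ', ?_, ?_⟩
  · intro b'
    by_cases hb : ∃ b, f b = b'
    · obtain ⟨b, rfl⟩ := hb
      rw [hθ']
      exact ⟨θ b, h1 b, rfl⟩
    · simp only [θ']
      rw [dif_neg hb]
      exact Submodule.zero_mem _
  · rw [Finsupp.lmapDomain_apply, Finsupp.linearCombination_mapDomain]
    have e1 : θ' ∘ f = ⇑(Finsupp.lmapDomain R R f) ∘ θ := funext hθ'
    rw [e1, ← Finsupp.apply_linearCombination, h2]
    rfl

lemma tm_lt (c : CC R A M) (k : Vec R) : Lt (lv : GG R A M → _) (some c) (tm M c k) := by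
  apply Lt_iff.2
  refine sum_mem fun i _ => ?_
  rw [Finsupp.mem_supported]
  intro b hb
  have h1 := Finsupp.support_single_subset hb
  rw [Finset.mem_singleton] at h1
  subst h1
  exact cord_lt M ⟨c, rfl, k, i, rfl⟩

lemma comap_map (c : CC R A M) (k : Vec R) :
    (k.mapDomain (emb c)).comapDomain (emb c) (emb_inj c).injOn = k :=
  Finsupp.comapDomain_mapDomain _ (emb_inj c) k

lemma attachData : AttachData φ (lv : GG R A M → _) (Kf φ M) (Tf φ M) := by
  classical
  refine ⟨?_, ?_, ?_, ?_, ?_⟩
  · intro j k hk b hb
    cases j with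
    | none =>
      have : k = 0 := (Submodule.mem_bot R).1 hk
      rw [this] at hb
      exact absurd hb (by simp)
    | some c =>
      have : ∃ k', k = Finsupp.mapDomain (emb c) k' := by
        by_cases hg : gd φ M (some c)
        · rw [Kf_good φ M hg] at hk
          obtain ⟨k', _, rfl⟩ := hk; exact ⟨k', rfl⟩
        · rw [Kf_bad φ M hg] at hk
          obtain ⟨k', _, rfl⟩ := hk; exact ⟨k', rfl⟩
      obtain ⟨k', rfl⟩ := this
      have h1 := Finsupp.mapDomain_support hb
      rw [Finset.mem_image] at h1
      obtain ⟨t, _, rfl⟩ := h1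
      rfl
  · intro j k hk
    cases j with
    | none => intro b hb; exact absurd hb (by simp [Tf, TT])
    | some c =>
      by_cases hg : gd φ M (some c)
      · rw [Tf_good φ M hg]
        exact tm_lt M c _
      · rw [Tf_bad φ M hg]
        intro b hb; exact absurd hb (by simp)
  · intro j x hx y hy
    cases j with
    | none =>
      have : Tf φ M none (x + y) - (Tf φ M none x + Tf φ M none y) = 0 := by simp [Tf, TT]
      rw [this]; exact zero_mem _
    | some c =>
      by_cases hg : gd φ M (some c)
      · have h1 := (gd_iff φ M (some c)).1 hg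
        rw [Kf_good φ M hg] at hx hy
        obtain ⟨x', hx', rfl⟩ := hx
        obtain ⟨y', hy', rfl⟩ := hy
        have h2 := h1.1 x' hx' y' hy'
        have h3 : ∀ z : Vec R, Tf φ M (some c) (Finsupp.lmapDomain R R (emb c) z) = tm M c z := by
          intro z
          rw [Tf_good φ M hg]
          show tm M c _ = _
          rw [Finsupp.lmapDomain_apply, comap_map]
        rw [← map_add, h3, h3, h3]
        exact h2
      · have : ∀ z, Tf φ M (some c) z = 0 := by
          intro z
          rw [Tf_bad φ M hg]
        rw [this, this, this, add_zero, sub_zero]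
        exact zero_mem _
  · intro j a x hx
    cases j with
    | none =>
      have : Tf φ M none (a • x) - φ a • Tf φ M none x = 0 := by simp [Tf, TT]
      rw [this]; exact zero_mem _
    | some c =>
      by_cases hg : gd φ M (some c)
      · have h1 := (gd_iff φ M (some c)).1 hg
        rw [Kf_good φ M hg] at hx
        obtain ⟨x', hx', rfl⟩ := hx
        have h2 := h1.2.1 a x' hx'
        have h3 : ∀ z : Vec R, Tf φ M (some c) (Finsupp.lmapDomain R R (emb c) z) = tm M c z := by
          intro z
          rw [Tf_good φ M hg]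
          show tm M c _ = _
          rw [Finsupp.lmapDomain_apply, comap_map]
        rw [← map_smul, h3, h3]
        exact h2
      · have : ∀ z, Tf φ M (some c) z = 0 := by
          intro z
          rw [Tf_bad φ M hg]
        rw [this, this, smul_zero, sub_zero]
        exact zero_mem _
  · intro j
    cases j with
    | none =>
      intro k hk
      have : k = 0 := (Submodule.mem_bot R).1 hk
      subst this
      exact ⟨fun _ => 0, fun _ => Submodule.zero_mem _, map_zero _⟩
    | some c =>
      by_cases hg : gd φ M (some c)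
      · rw [Kf_good φ M hg]
        exact theta_map c.s.2 _ (emb_inj c)
      · rw [Kf_bad φ M hg]
        refine theta_map ?_ _ (emb_inj c)
        intro k _
        refine ⟨fun i => single i 1, fun _ => trivial, ?_⟩
        conv_rhs => rw [← Finsupp.sum_single k]
        rw [Finsupp.linearCombination_apply]
        refine Finset.sum_congr rfl fun i _ => ?_
        simp

/-- the module of the construction -/
abbrev EE : Type u := (GG R A M →₀ A) ⧸ Rall φ (Kf φ M) (Tf φ M)

lemma qm_bc (c : CC R A M) (k : Vec R) : qm M (bc φ (Finsupp.mapDomain (emb c) k)) = 0 := by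
  have : bc φ (Finsupp.mapDomain (emb c) k) ∈ Finsupp.supported A A (Set.range (emb c)) := by
    rw [Finsupp.mem_supported]
    intro b hb
    rw [Finset.mem_coe, Finsupp.mem_support_iff, bc_apply] at hb
    have h1 : b ∈ (Finsupp.mapDomain (emb c) k).support := by
      rw [Finsupp.mem_support_iff]
      intro h0; apply hb; rw [h0, map_zero]
    classical
    have h2 := Finsupp.mapDomain_support h1
    rw [Finset.mem_image] at h2
    obtain ⟨t, _, rfl⟩ := h2
    exact ⟨t, rfl⟩
  unfold qm
  rw [Finsupp.linearCombination_apply, Finsupp.sum]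
  refine Finset.sum_eq_zero fun b hb => ?_
  rw [Finsupp.mem_supported] at this
  obtain ⟨t, rfl⟩ := this hb
  show _ • (0 : M) = 0
  exact smul_zero _

lemma qm_rel : Rall φ (Kf φ M) (Tf φ M) ≤ LinearMap.ker (qm (R := R) (A := A) M) := by
  classical
  unfold Rall
  rw [Submodule.span_le]
  rintro _ ⟨j, k, hk, rfl⟩
  rw [SetLike.mem_coe, LinearMap.mem_ker, map_sub]
  cases j with
  | none =>
    have : k = 0 := (Submodule.mem_bot R).1 hk
    subst this
    simp [Tf, TT, bc_zero]
  | some c =>
    by_cases hg : gd φ M (some c)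
    · have h1 := (gd_iff φ M (some c)).1 hg
      rw [Kf_good φ M hg] at hk
      obtain ⟨k', hk', rfl⟩ := hk
      have h3 : Tf φ M (some c) (Finsupp.lmapDomain R R (emb c) k') = tm M c k' := by
        rw [Tf_good φ M hg]
        show tm M c _ = _
        rw [Finsupp.lmapDomain_apply, comap_map]
      rw [h3, h1.2.2 k' hk', Finsupp.lmapDomain_apply, qm_bc, sub_zero]
    · rw [Kf_bad φ M hg] at hk
      obtain ⟨k', hk', rfl⟩ := hk
      have h3 : Tf φ M (some c) (Finsupp.lmapDomain R R (emb c) k') = 0 := by
        rw [Tf_bad φ M hg]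
      rw [h3, map_zero, Finsupp.lmapDomain_apply, qm_bc, sub_zero]

/-- the augmentation -/
noncomputable def qE : EE φ M →ₗ[A] M := (Rall φ (Kf φ M) (Tf φ M)).liftQ (qm M) (qm_rel φ M)

lemma qE_surj : Function.Surjective (qE φ M) := by
  intro m
  refine ⟨(Rall φ (Kf φ M) (Tf φ M)).mkQ (single (.base m) 1), ?_⟩
  show qm M _ = m
  unfold qm
  rw [Finsupp.linearCombination_single, one_smul]
  rfl

lemma exists_rep (x : GG R A M →₀ A) : ∃ (n : ℕ) (g : ℕ → GG R A M) (a : ℕ → A),
    x = ∑ i ∈ Finset.range n, single (g i) (a i) := by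
  induction x using Finsupp.induction_linear with
  | zero => exact ⟨0, fun _ => .base 0, fun _ => 0, by simp⟩
  | add x y hx hy =>
    obtain ⟨n, g, a, rfl⟩ := hx
    obtain ⟨n', g', a', rfl⟩ := hy
    refine ⟨n + n', fun i => if i < n then g i else g' (i - n),
      fun i => if i < n then a i else a' (i - n), ?_⟩
    rw [Finset.sum_range_add]
    congr 1
    · refine Finset.sum_congr rfl fun i hi => ?_
      rw [Finset.mem_range] at hi
      beta_reduce
      rw [if_pos hi, if_pos hi]
    · refine Finset.sum_congr rfl fun i _ => ?_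
      have h : ¬ (n + i < n) := by omega
      beta_reduce
      rw [if_neg h, if_neg h, Nat.add_sub_cancel_left]
  | single g a => exact ⟨1, fun _ => g, fun _ => a, by simp⟩

/-- the kernel of the augmentation passes the small test -/
theorem small_ker : ∀ K : Submodule R (Vec R), Theta (K : Set (Vec R)) →
    ∀ f : Vec R → EE φ M, (∀ k ∈ K, qE φ M (f k) = 0) → SLin φ ⊤ (K : Set (Vec R)) f →
    ∃ d : R × ℕ → EE φ M, (∀ t, qE φ M (d t) = 0) ∧
      ∀ k ∈ K, f k = linearCombination A d (bc φ k) := by
  classical
  intro K hK f hf0 hf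
  let N := Rall φ (Kf φ M) (Tf φ M)
  choose x hx using fun k : Vec R => N.mkQ_surjective (f k)
  choose len sub coef hrep using fun k : Vec R => exists_rep M (x k)
  let c : CC R A M := ⟨⟨K, hK⟩, len, coef, sub⟩
  have htm : ∀ k, tm M c k = x k := fun k => (hrep k).symm
  have had := attachData φ M
  have hg : gd φ M (some c) := by
    rw [gd_iff]
    refine ⟨?_, ?_, ?_⟩
    · intro k hk k' hk'
      apply mem_Rl_of_lt had
      · rw [htm, htm, htm]
        show _ ∈ N
        rw [← Submodule.Quotient.mk_eq_zero, ← Submodule.mkQ_apply, map_sub, map_add, hx, hx, hx,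
          hf.1 k hk k' hk', sub_self]
      · exact Lt_iff.2 (sub_mem (Lt_iff.1 (tm_lt M c _))
          (add_mem (Lt_iff.1 (tm_lt M c _)) (Lt_iff.1 (tm_lt M c _))))
    · intro a k hk
      apply mem_Rl_of_lt had
      · rw [htm, htm]
        show _ ∈ N
        rw [← Submodule.Quotient.mk_eq_zero, ← Submodule.mkQ_apply, map_sub, map_smul, hx, hx,
          hf.2 a trivial k hk, sub_self]
      · exact Lt_iff.2 (sub_mem (Lt_iff.1 (tm_lt M c _))
          (Submodule.smul_mem _ _ (Lt_iff.1 (tm_lt M c _))))
    · intro k hk
      rw [htm]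
      have := hf0 k hk
      rw [← hx k] at this
      exact this
  refine ⟨fun t => N.mkQ (single (emb c t) 1), ?_, ?_⟩
  · intro t
    show qm M _ = 0
    unfold qm
    rw [Finsupp.linearCombination_single, one_smul]
    rfl
  · intro k hk
    have h1 : linearCombination A (fun t => N.mkQ (single (emb c t) (1 : A))) (bc φ k) =
        N.mkQ (bc φ (Finsupp.mapDomain (emb c) k)) := by
      have : ∀ k : Vec R, linearCombination A (fun t => N.mkQ (single (emb c t) (1 : A))) (bc φ k) =
        N.mkQ (bc φ (Finsupp.mapDomain (emb c) k)) := by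
        intro k
        induction k using Finsupp.induction_linear with
        | zero => simp [bc_zero]
        | add x y hx hy => rw [bc_add, map_add, hx, hy, Finsupp.mapDomain_add, bc_add, map_add]
        | single t r =>
          rw [bc_single, Finsupp.linearCombination_single, Finsupp.mapDomain_single, bc_single,
            ← map_smul, Finsupp.smul_single, smul_eq_mul, mul_one]
      exact this k
    rw [h1, ← hx k, ← htm k, ← sub_eq_zero, ← map_sub, Submodule.mkQ_apply,
      Submodule.Quotient.mk_eq_zero, ← neg_mem_iff, neg_sub]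
    refine Submodule.subset_span ⟨some c, Finsupp.mapDomain (emb c) k, ?_, ?_⟩
    · rw [Kf_good φ M hg]
      exact ⟨k, hk, rfl⟩
    · congr 1
      rw [Tf_good φ M hg]
      show _ = tm M c _
      rw [comap_map]

/-- every `A`-module is a quotient of a filtered module by a module which is cotorsion over
`R` -/
theorem exists_filt : ∃ (E : Type u) (_ : AddCommGroup E) (_ : Module A E)
    (q : E →ₗ[A] M), Nonempty (Filt φ E) ∧ Function.Surjective q ∧
      ∀ (_ : Module R (LinearMap.ker q)),
        (∀ (r : R) (x : LinearMap.ker q), r • x = φ r • x) → Cotorsion R (LinearMap.ker q) := by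
  have := cord_wf (R := R) (A := A) M
  refine ⟨EE φ M, inferInstance, inferInstance, qE φ M, ⟨attachFilt (attachData φ M)⟩,
    qE_surj φ M, ?_⟩
  intro i1 hc
  apply cotorsion_of_small
  classical
  intro K hK f
  let f' : Vec R → EE φ M := fun k => if hk : k ∈ K then ((f ⟨k, hk⟩ : LinearMap.ker (qE φ M)) :
    EE φ M) else 0
  have hf' : ∀ k (hk : k ∈ K), f' k = f ⟨k, hk⟩ := by
    intro k hk
    simp only [f']
    rw [dif_pos hk]
  obtain ⟨d, hd, hd'⟩ := small_ker φ M K hK f' (by
    intro k hk
    rw [hf' k hk]
    exact (f ⟨k, hk⟩).2) (by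
    constructor
    · intro x hx y hy
      rw [hf' x hx, hf' y hy, hf' _ (K.add_mem hx hy)]
      have : (⟨x + y, K.add_mem hx hy⟩ : K) = ⟨x, hx⟩ + ⟨y, hy⟩ := rfl
      rw [this, map_add]
      rfl
    · intro a _ x hx
      rw [hf' x hx, hf' _ (K.smul_mem a hx)]
      have : (⟨a • x, K.smul_mem a hx⟩ : K) = a • ⟨x, hx⟩ := rfl
      rw [this, map_smul, hc]
      rfl)
  refine ⟨fun t => ⟨d t, hd t⟩, ?_⟩
  intro k
  apply Subtype.ext
  have h1 := hd' k k.2
  rw [hf' k k.2] at h1
  rw [h1]
  have : ∀ x : Vec R, linearCombination A d (bc φ x) =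
      ((linearCombination R (fun t => (⟨d t, hd t⟩ : LinearMap.ker (qE φ M))) x :
        LinearMap.ker (qE φ M)) : EE φ M) := by
    intro x
    induction x using Finsupp.induction_linear with
    | zero => rw [bc_zero, map_zero, map_zero]; rfl
    | add x y hx hy => rw [bc_add, map_add, map_add, hx, hy]; rfl
    | single t r =>
      rw [bc_single, Finsupp.linearCombination_single, Finsupp.linearCombination_single, hc]
      rfl
  exact this k

end construct

end Pool.Agent.V1166.FP
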