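import Pool.Agent.V1166.FP.Ext
import Pool.Agent.V1166.FP.Hull

namespace Pool.Agent.V1166.FP

universe u v w

open Finsupp (linearCombination single)
open Cardinal Fsup

section small

variable {R : Type u} [Ring R] {G : Type u} [AddCommGroup G] [Module R G]

/-- flatness of the quotient by a submodule -/
def PFlat (H : Submodule R G) : Prop :=
  ∀ (n : ℕ) (a : Fin n → R) (x : Fin n → G), ∑ i, a i • x i ∈ H →
    ∃ (m : ℕ) (y : Fin m → G) (b : Fin n → Fin m → R),
      (∀ i, x i - ∑ j, b i j • y j ∈ H) ∧ ∀ j, ∑ i, a i * b i j = 0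

lemma PFlat.flat {H : Submodule R G} (h : PFlat H) : Flat R (G ⧸ H) := by
  intro n a x hx
  choose x' hx' using fun i => H.mkQ_surjective (x i)
  have h0 : ∑ i, a i • x' i ∈ H := by
    rw [← Submodule.Quotient.mk_eq_zero, ← Submodule.mkQ_apply, map_sum]
    simp only [map_smul, hx']
    exact hx
  obtain ⟨m, y, b, h1, h2⟩ := h n a x' h0
  refine ⟨m, fun j => H.mkQ (y j), b, fun i => ?_, h2⟩
  rw [← hx' i, ← sub_eq_zero]
  have := h1 i
  rw [← Submodule.Quotient.mk_eq_zero, ← Submodule.mkQ_apply, map_sub, map_sum] at this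
  simp only [map_smul] at this
  exact this

lemma Flat.pflat_bot (h : Flat R G) : PFlat (⊥ : Submodule R G) := by
  intro n a x hx
  rw [Submodule.mem_bot] at hx
  obtain ⟨m, y, b, h1, h2⟩ := h n a x hx
  refine ⟨m, y, b, fun i => ?_, h2⟩
  rw [Submodule.mem_bot, ← h1, sub_self]

/-- small flat pure submodules -/
theorem exists_small (hG : Flat R G) (x₀ : G) : ∃ H : Submodule R G, x₀ ∈ H ∧
    #H ≤ #(R × ℕ) ∧ Flat R H ∧ PFlat H := by
  classical
  let U := R ⊕ G
  let i1 : Fsup U R := Fsup.ofInj Sum.inl Sum.inl_injective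
  let i2 : Fsup U G := Fsup.ofInj Sum.inr Sum.inr_injective
  let i3 : Fsup U ℕ := Fsup.ofCountable
  have hspR : ∀ (r : R) (N : Set U), sp (U := U) r ⊆ N ↔ Sum.inl r ∈ N := fun r N =>
    Set.singleton_subset_iff
  have hspG : ∀ (g : G) (N : Set U), sp (U := U) g ⊆ N ↔ Sum.inr g ∈ N := fun r N =>
    Set.singleton_subset_iff
  -- purity
  have g1 : Good U (fun N => ∀ x : (ℕ →₀ R) × G, sp x ⊆ N → ∃ y : ℕ →₀ G, sp y ⊆ N ∧
      ((∃ z : ℕ →₀ G, linearCombination R (fun i => z i) x.1 = x.2) →
        linearCombination R (fun i => y i) x.1 = x.2)) := by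
    apply good_of_exists
    intro x
    by_cases h : ∃ z : ℕ →₀ G, linearCombination R (fun i => z i) x.1 = x.2
    · obtain ⟨z, hz⟩ := h
      exact ⟨z, fun _ => hz⟩
    · exact ⟨0, fun h' => absurd h' h⟩
  -- flatness
  have hθ := theta_of_flat hG (id : G → G) (fun g => ⟨single g 1, by simp⟩)
  have g2 : Good U (fun N => ∀ x : G →₀ R, sp x ⊆ N → ∃ y : G →₀ (G →₀ R), sp y ⊆ N ∧
      (x ∈ Rel R (id : G → G) → (∀ i, y i ∈ Rel R (id : G → G)) ∧
        linearCombination R (fun i => y i) x = x)) := by
    apply good_of_exists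
    intro x
    by_cases h : x ∈ Rel R (id : G → G)
    · obtain ⟨θ, h1, h2⟩ := hθ x h
      refine ⟨Finsupp.onFinset x.support (fun i => if i ∈ x.support then θ i else 0) ?_, ?_⟩
      · intro i hi
        by_contra hc
        rw [if_neg hc] at hi
        exact hi rfl
      · intro _
        constructor
        · intro i
          rw [Finsupp.onFinset_apply]
          split_ifs
          · exact h1 i
          · exact Submodule.zero_mem _
        · conv_rhs => rw [← h2]
          rw [Finsupp.linearCombination_apply, Finsupp.linearCombination_apply, Finsupp.sum,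
            Finsupp.sum]
          refine Finset.sum_congr rfl fun i hi => ?_
          rw [Finsupp.onFinset_apply, if_pos hi]
    · exact ⟨0, fun h' => absurd h' h⟩
  have g3 : Good U (fun N => ∀ x : G × G, sp x ⊆ N → ∃ y : G, sp y ⊆ N ∧ y = x.1 + x.2) :=
    good_of_exists _ fun x => ⟨_, rfl⟩
  have g4 : Good U (fun N => ∀ x : R × G, sp x ⊆ N → ∃ y : G, sp y ⊆ N ∧ y = x.1 • x.2) :=
    good_of_exists _ fun x => ⟨_, rfl⟩
  obtain ⟨cl, hcl, hN⟩ := (g1.and g2).and (g3.and g4)
  let T : Set U := Set.range Sum.inl ∪ {Sum.inr x₀}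
  let N := hull cl T
  obtain ⟨⟨n1, n2⟩, n3, n4⟩ := hN N (hull_closed cl T)
  have hRN : ∀ r : R, Sum.inl r ∈ N := fun r => subset_hull cl T (Or.inl ⟨r, rfl⟩)
  have hx₀ : Sum.inr x₀ ∈ N := subset_hull cl T (Or.inr rfl)
  let H : Submodule R G :=
    { carrier := {g | Sum.inr g ∈ N}
      add_mem' := by
        intro a b ha hb
        obtain ⟨y, hy, rfl⟩ := n3 (a, b) (by rw [sp_prod, hspG, hspG]; exact ⟨ha, hb⟩)
        exact (hspG _ _).1 hy
      zero_mem' := by
        obtain ⟨y, hy, hy'⟩ := n4 (0, x₀) (by rw [sp_prod, hspR, hspG]; exact ⟨hRN 0, hx₀⟩)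
        have : y = 0 := by rw [hy', zero_smul]
        rw [this] at hy
        exact (hspG _ _).1 hy
      smul_mem' := by
        intro c x hx
        obtain ⟨y, hy, rfl⟩ := n4 (c, x) (by rw [sp_prod, hspR, hspG]; exact ⟨hRN c, hx⟩)
        exact (hspG _ _).1 hy }
  have hHmem : ∀ g, g ∈ H ↔ Sum.inr g ∈ N := fun g => Iff.rfl
  refine ⟨H, hx₀, ?_, ?_, ?_⟩
  · -- cardinality
    have h1 : #H ≤ #N := by
      refine Cardinal.mk_le_of_injective (f := fun h : H => (⟨Sum.inr h, h.2⟩ : N)) ?_
      intro a b hab
      have := congrArg Subtype.val hab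
      exact Subtype.ext (Sum.inr_injective this)
    refine h1.trans ((mk_hull cl hcl T).trans ?_)
    have h2 : #(R × ℕ) = #R * ℵ₀ := by simp
    have hR1 : (1 : Cardinal) ≤ #R := Cardinal.one_le_iff_ne_zero.2 (Cardinal.mk_ne_zero R)
    have h3 : ℵ₀ ≤ #(R × ℕ) := by
      rw [h2]; exact le_mul_of_one_le_left' hR1
    have h4 : #R ≤ #(R × ℕ) := by
      rw [h2]; exact le_mul_of_one_le_right' (Cardinal.one_le_aleph0)
    refine max_le ?_ h3
    refine (Cardinal.mk_union_le _ _).trans ?_
    have h5 : #(Set.range (Sum.inl : R → U)) ≤ #(R × ℕ) := Cardinal.mk_range_le.trans h4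
    have h6 : #({Sum.inr x₀} : Set U) ≤ #(R × ℕ) := by
      rw [Cardinal.mk_singleton]
      exact Cardinal.one_le_aleph0.trans h3
    exact (add_le_add h5 h6).trans (Cardinal.add_eq_self h3).le
  · -- flatness of H
    refine flat_of_theta (id : H → H) (fun g => ⟨single g 1, by simp⟩) ?_
    intro k hk
    let k' : G →₀ R := k.mapDomain (fun h : H => (h : G))
    have hinj : Function.Injective (fun h : H => (h : G)) := Subtype.val_injective
    have hk' : k' ∈ Rel R (id : G → G) := by
      rw [mem_Rel]
      simp only [k']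
      rw [Finsupp.linearCombination_mapDomain]
      rw [SetLike.mem_coe, mem_Rel] at hk
      have := congrArg H.subtype hk
      rw [Finsupp.apply_linearCombination, map_zero] at this
      exact this
    have hsk : sp (U := U) k' ⊆ N := by
      rw [sp_finsupp]
      intro x hx
      refine ⟨?_, (hspR _ _).2 (hRN _)⟩
      rw [hspG]
      have := Finsupp.mapDomain_support hx
      rw [Finset.mem_image] at this
      obtain ⟨h, _, rfl⟩ := this
      exact h.2
    obtain ⟨y, hy, hy'⟩ := n2 k' hsk
    obtain ⟨h1, h2⟩ := hy' hk'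
    rw [sp_finsupp] at hy
    -- pull back
    have hyH : ∀ i g, y i g ≠ 0 → g ∈ H := by
      intro i g hg
      by_cases hi : i ∈ y.support
      · have := (hy i hi).2
        rw [sp_finsupp] at this
        exact (hspG _ _).1 (this g (Finsupp.mem_support_iff.2 hg)).1
      · rw [Finsupp.notMem_support_iff.1 hi] at hg
        exact absurd rfl hg
    let θ : H → (H →₀ R) := fun i => Finsupp.comapDomain (fun h : H => (h : G)) (y i)
      hinj.injOn
    have hθm : ∀ i : H, (θ i).mapDomain (fun h : H => (h : G)) = y i := by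
      intro i
      apply Finsupp.mapDomain_comapDomain _ hinj
      intro g hg
      exact ⟨⟨g, hyH _ g (Finsupp.mem_support_iff.1 hg)⟩, rfl⟩
    refine ⟨θ, ?_, ?_⟩
    · intro i
      rw [SetLike.mem_coe, mem_Rel]
      apply H.injective_subtype
      rw [map_zero, Finsupp.apply_linearCombination]
      have := h1 i
      rw [mem_Rel, ← hθm, Finsupp.linearCombination_mapDomain] at this
      exact this
    · apply Finsupp.mapDomain_injective hinj
      have e1 : (linearCombination R θ k).mapDomain (fun h : H => (h : G)) =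
          linearCombination R (fun i : H => y i) k := by
        have := Finsupp.apply_linearCombination R (Finsupp.lmapDomain R R (fun h : H => (h : G)))
          θ k
        rw [Finsupp.lmapDomain_apply] at this
        rw [this]
        have e3 : (⇑(Finsupp.lmapDomain R R (fun h : H => (h : G))) ∘ θ) = fun i : H => y i :=
          funext hθm
        rw [e3]
      rw [e1]
      have e2 : linearCombination R (fun i => y i) k' = linearCombination R (fun i : H => y i) k := by
        simp only [k']
        rw [Finsupp.linearCombination_mapDomain]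
        rfl
      rw [← e2, h2]
  · -- purity
    intro n a x hx
    let a' : ℕ →₀ R := ∑ i : Fin n, single (i : ℕ) (a i)
    have ha' : ∀ z : ℕ → G, linearCombination R z a' = ∑ i : Fin n, a i • z i := by
      intro z
      simp only [a', map_sum, Finsupp.linearCombination_single]
    let z0 : ℕ →₀ G := Finsupp.onFinset (Finset.range n)
      (fun i => if h : i < n then x ⟨i, h⟩ else 0) (by
        intro i hi
        rw [Finset.mem_range]
        by_contra hc
        rw [dif_neg hc] at hi
        exact hi rfl)
    have hz0 : ∀ i : Fin n, z0 i = x i := by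
      intro i
      simp [z0]
    obtain ⟨y, hy, hy'⟩ := n1 (a', ∑ i, a i • x i) (by
      rw [sp_prod, hspG]
      refine ⟨?_, hx⟩
      rw [sp_finsupp]
      intro i _
      exact ⟨Set.empty_subset _, (hspR _ _).2 (hRN _)⟩)
    have h1 := hy' ⟨z0, by rw [ha']; simp only [hz0]⟩
    rw [ha'] at h1
    have hyH : ∀ i, y i ∈ H := by
      intro i
      by_cases hi : i ∈ y.support
      · rw [sp_finsupp] at hy
        exact (hspG _ _).1 (hy i hi).2
      · rw [Finsupp.notMem_support_iff.1 hi]
        exact H.zero_mem
    obtain ⟨m, y', b, h2, h3⟩ := hG n a (fun i => x i - y i) (by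
      simp only [smul_sub, Finset.sum_sub_distrib]
      rw [h1, sub_self])
    refine ⟨m, y', b, fun i => ?_, h3⟩
    rw [← h2]
    simp only [sub_sub_cancel]
    exact hyH i

end small

section deconstruct

variable {R : Type u} [Ring R] {C : Type u} [AddCommGroup C] [Module R C]

/-- the small test for cotorsion modules -/
def SmallCot (R : Type u) [Ring R] (C : Type u) [AddCommGroup C] [Module R C] : Prop :=
  ∀ K : Submodule R ((R × ℕ) →₀ R), Theta (K : Set ((R × ℕ) →₀ R)) → ∀ f : K →ₗ[R] C,
    ∃ d : R × ℕ → C, ∀ k : K, f k = linearCombination R d k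

/-- a module which passes the small test is cotorsion -/
theorem cotorsion_of_small (h : SmallCot R C) : Cotorsion R C := by
  classical
  intro G _ _ hG X _ _ i p hi hp hip
  let P : Set (G →ₗ.[R] X) := {s | (∀ x : s.domain, p (s x) = x) ∧ PFlat s.domain}
  have hbot : (⊥ : G →ₗ.[R] X) ∈ P := by
    refine ⟨?_, hG.pflat_bot⟩
    intro x
    have hx : x = 0 := by
      have := x.2
      apply Subtype.ext
      exact (Submodule.mem_bot R).1 this
    rw [hx, LinearPMap.map_zero, map_zero]
    rfl
  obtain ⟨s, -, hs, hmax⟩ := zorn_le_nonempty₀ P (by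
    intro c hc hchain y hy
    have hdir : DirectedOn (· ≤ ·) c := hchain.directedOn
    refine ⟨LinearPMap.sSup c hdir, ⟨?_, ?_⟩, fun z hz => LinearPMap.le_sSup hdir hz⟩
    · intro x
      have hx := x.2
      have hne : (LinearPMap.domain '' c).Nonempty := ⟨_, y, hy, rfl⟩
      have hdir' : DirectedOn (· ≤ ·) (LinearPMap.domain '' c) := by
        rintro _ ⟨a, ha, rfl⟩ _ ⟨b, hb, rfl⟩
        obtain ⟨d, hd, h1, h2⟩ := hdir a ha b hb
        exact ⟨d.domain, ⟨d, hd, rfl⟩, h1.1, h2.1⟩
      have hx' : (x : G) ∈ sSup (LinearPMap.domain '' c) := hx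
      rw [Submodule.mem_sSup_of_directed hne hdir'] at hx'
      obtain ⟨_, ⟨z, hz, rfl⟩, hxz⟩ := hx'
      have h1 := LinearPMap.le_sSup hdir hz
      have h2 : (LinearPMap.sSup c hdir) x = z ⟨x, hxz⟩ := (h1.2 (x := ⟨x, hxz⟩) (y := x) rfl).symm
      rw [h2]
      exact (hc hz).1 ⟨x, hxz⟩
    · intro n a x hx
      have hne : (LinearPMap.domain '' c).Nonempty := ⟨_, y, hy, rfl⟩
      have hdir' : DirectedOn (· ≤ ·) (LinearPMap.domain '' c) := by
        rintro _ ⟨a, ha, rfl⟩ _ ⟨b, hb, rfl⟩
        obtain ⟨d, hd, h1, h2⟩ := hdir a ha b hb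
        exact ⟨d.domain, ⟨d, hd, rfl⟩, h1.1, h2.1⟩
      have hx' : (∑ i, a i • x i) ∈ sSup (LinearPMap.domain '' c) := hx
      rw [Submodule.mem_sSup_of_directed hne hdir'] at hx'
      obtain ⟨_, ⟨z, hz, rfl⟩, hxz⟩ := hx'
      obtain ⟨m, y', b, h1, h2⟩ := (hc hz).2 n a x hxz
      exact ⟨m, y', b, fun i => (LinearPMap.le_sSup hdir hz).1 (h1 i), h2⟩) ⊥ hbot
  have htop : s.domain = ⊤ := by
    by_contra hne
    obtain ⟨x₀, hx₀⟩ : ∃ x₀, x₀ ∉ s.domain := by
      by_contra hc
      push Not at hc
      exact hne (eq_top_iff.2 fun x _ => hc x)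
    set H := s.domain with hH
    obtain ⟨H'', h1, h2, h3, h4⟩ := exists_small (hs.2.flat) (H.mkQ x₀)
    -- a small generating family
    have hcard : Nonempty (H'' ↪ (R × ℕ)) := Cardinal.le_def _ _ |>.1 h2
    obtain ⟨em⟩ := hcard
    let τ : R × ℕ → H'' := Function.invFun em
    have hτ : Function.Surjective τ := Function.invFun_surjective em.injective
    have hlcτ : Function.Surjective (linearCombination R τ) := by
      intro y
      obtain ⟨t, rfl⟩ := hτ y
      exact ⟨single t 1, by simp⟩
    have hth := theta_of_flat h3 τ hlcτ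
    choose y hy using fun t => H.mkQ_surjective ((τ t : H'') : G ⧸ H)
    choose ξ hξ using fun t => hp (y t)
    have hmem : ∀ k : (R × ℕ) →₀ R, H.mkQ (linearCombination R y k) =
        ((linearCombination R τ k : H'') : G ⧸ H) := by
      intro k
      rw [Finsupp.apply_linearCombination]
      have := Finsupp.apply_linearCombination R H''.subtype τ k
      rw [Submodule.subtype_apply] at this
      rw [this]
      have e3 : (⇑H.mkQ ∘ y) = ⇑H''.subtype ∘ τ := funext hy
      rw [e3]
    have hmemH : ∀ k, k ∈ Rel R τ ↔ linearCombination R y k ∈ H := by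
      intro k
      have e := hmem k
      rw [mem_Rel]
      constructor
      · intro h
        rw [h] at e
        exact (Submodule.Quotient.mk_eq_zero _).1 e
      · intro h
        have h' : H.mkQ (linearCombination R y k) = 0 := (Submodule.Quotient.mk_eq_zero _).2 h
        rw [h'] at e
        exact Subtype.ext e.symm
    have hpξ : ∀ k, p (linearCombination R ξ k) = linearCombination R y k := by
      intro k
      rw [Finsupp.apply_linearCombination]
      have e3 : (⇑p ∘ ξ) = y := funext hξ
      rw [e3]
    have hex : ∀ k : Rel R τ, ∃ z, i z = s ⟨linearCombination R y k, (hmemH k).1 k.2⟩ -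
        linearCombination R ξ (k : (R × ℕ) →₀ R) := by
      intro k
      have : s ⟨linearCombination R y k, (hmemH k).1 k.2⟩ -
        linearCombination R ξ (k : (R × ℕ) →₀ R) ∈ LinearMap.ker p := by
        rw [LinearMap.mem_ker, map_sub, hs.1, hpξ, sub_self]
      rw [← hip] at this
      exact this
    choose f hf using hex
    let f' : Rel R τ →ₗ[R] C :=
      { toFun := f
        map_add' := by
          intro a b
          apply hi
          rw [map_add, hf, hf, hf]
          have e1 : (⟨linearCombination R y ((a + b : Rel R τ) : (R × ℕ) →₀ R),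
              (hmemH _).1 (a + b).2⟩ : s.domain) =
              ⟨linearCombination R y a, (hmemH a).1 a.2⟩ +
              ⟨linearCombination R y b, (hmemH b).1 b.2⟩ := by
            apply Subtype.ext
            show linearCombination R y ((a : (R × ℕ) →₀ R) + b) = _
            rw [map_add]
            rfl
          rw [e1, LinearPMap.map_add]
          have e2 : linearCombination R ξ ((a + b : Rel R τ) : (R × ℕ) →₀ R) =
              linearCombination R ξ (a : (R × ℕ) →₀ R) +
              linearCombination R ξ (b : (R × ℕ) →₀ R) := by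
            rw [← map_add]; rfl
          rw [e2]
          abel
        map_smul' := by
          intro r a
          apply hi
          rw [RingHom.id_apply, map_smul, hf, hf]
          have e1 : (⟨linearCombination R y ((r • a : Rel R τ) : (R × ℕ) →₀ R),
              (hmemH _).1 (r • a).2⟩ : s.domain) =
              r • ⟨linearCombination R y a, (hmemH a).1 a.2⟩ := by
            apply Subtype.ext
            show linearCombination R y (r • (a : (R × ℕ) →₀ R)) = _
            rw [map_smul]
            rfl
          rw [e1, LinearPMap.map_smul]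
          have e2 : linearCombination R ξ ((r • a : Rel R τ) : (R × ℕ) →₀ R) =
              r • linearCombination R ξ (a : (R × ℕ) →₀ R) := by
            rw [← map_smul]; rfl
          rw [e2, smul_sub] }
    obtain ⟨d, hd⟩ := h (Rel R τ) hth f'
    have hd' : ∀ k : Rel R τ, f k = linearCombination R d k := hd
    let H' : Submodule R G := H''.comap H.mkQ
    have hyH' : ∀ t, y t ∈ H' := by
      intro t
      show H.mkQ (y t) ∈ H''
      rw [hy]
      exact (τ t).2
    have hHH' : H ≤ H' := by
      intro g hg
      show H.mkQ g ∈ H''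
      have : H.mkQ g = 0 := by rw [Submodule.mkQ_apply, Submodule.Quotient.mk_eq_zero]; exact hg
      rw [this]; exact H''.zero_mem
    let π : (H × ((R × ℕ) →₀ R)) →ₗ[R] H' :=
      (H.subtype.coprod (linearCombination R y)).codRestrict H' (by
        rintro ⟨g, k⟩
        refine H'.add_mem (hHH' g.2) ?_
        show linearCombination R y k ∈ H'
        rw [Finsupp.linearCombination_apply, Finsupp.sum]
        exact sum_mem fun t _ => H'.smul_mem _ (hyH' t))
    have hπ : ∀ g k, ((π (g, k) : H') : G) = g + linearCombination R y k := fun g k => rfl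
    have hπs : Function.Surjective π := by
      intro g
      have hg : H.mkQ (g : G) ∈ H'' := g.2
      obtain ⟨k, hk⟩ := hlcτ ⟨H.mkQ g, hg⟩
      have h5 : (g : G) - linearCombination R y k ∈ H := by
        rw [← Submodule.Quotient.mk_eq_zero, ← Submodule.mkQ_apply, map_sub, hmem, hk, sub_self]
      refine ⟨(⟨_, h5⟩, k), ?_⟩
      apply Subtype.ext
      rw [hπ]
      simp
    let L : (H × ((R × ℕ) →₀ R)) →ₗ[R] X :=
      s.toFun.coprod (linearCombination R ξ + i ∘ₗ linearCombination R d)
    have hL : ∀ g k, L (g, k) = s g + (linearCombination R ξ k + i (linearCombination R d k)) :=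
      fun g k => rfl
    obtain ⟨s', hs'⟩ := exists_factor π hπs L (by
      rintro ⟨g, k⟩ hgk
      rw [LinearMap.mem_ker] at hgk ⊢
      have h5 : (g : G) + linearCombination R y k = 0 := by
        rw [← hπ, hgk]; rfl
      have h6 : linearCombination R y k ∈ H := by
        have : linearCombination R y k = -(g : G) := by rw [← add_eq_zero_iff_eq_neg', h5]
        rw [this]
        exact H.neg_mem g.2
      have h7 := hf ⟨k, (hmemH k).2 h6⟩
      rw [hd'] at h7
      have h7' : i (linearCombination R d k) = s ⟨linearCombination R y k, h6⟩ -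
        linearCombination R ξ k := h7
      rw [hL, h7']
      have h8 : (⟨linearCombination R y k, h6⟩ : s.domain) = -g := by
        apply Subtype.ext
        show linearCombination R y k = -(g : G)
        rw [← add_eq_zero_iff_eq_neg', h5]
      rw [h8, LinearPMap.map_neg]
      abel)
    let t : G →ₗ.[R] X := ⟨H', s'⟩
    have ht : t ∈ P := by
      constructor
      · intro x
        obtain ⟨⟨g, k⟩, rfl⟩ := hπs x
        show p (s' (π (g, k))) = _
        rw [hs', hL, map_add, hs.1, map_add, hpξ, hπ]
        have : p (i (linearCombination R d k)) = 0 := by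
          rw [← LinearMap.mem_ker, ← hip]; exact ⟨_, rfl⟩
        rw [this, add_zero]
      · intro n a x hx
        have hx' : ∑ i, a i • H.mkQ (x i) ∈ H'' := by
          have : H.mkQ (∑ i, a i • x i) ∈ H'' := hx
          rw [map_sum] at this
          simpa only [map_smul] using this
        obtain ⟨m, y', b, h5, h6⟩ := h4 n a (fun i => H.mkQ (x i)) hx'
        choose z hz using fun j => H.mkQ_surjective (y' j)
        refine ⟨m, z, b, fun i => ?_, h6⟩
        show H.mkQ (x i - ∑ j, b i j • z j) ∈ H''
        rw [map_sub, map_sum]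
        simp only [map_smul, hz]
        exact h5 i
    have hst : s ≤ t := by
      refine ⟨hHH', ?_⟩
      intro x y hxy
      show s x = s' y
      have h5 : y = π (x, 0) := by
        apply Subtype.ext
        rw [hπ, map_zero, add_zero]
        exact hxy.symm
      rw [h5, hs', hL, map_zero, map_zero, map_zero, add_zero, add_zero]
    have hts := hmax ht hst
    have : x₀ ∈ H' := h1
    exact hx₀ (hts.1 this)
  refine ⟨s.toFun ∘ₗ (LinearMap.id.codRestrict s.domain (fun x => by rw [htop]; trivial)), ?_⟩
  ext x
  exact hs.1 _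

end deconstruct

end Pool.Agent.V1166.FP
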